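import Pool.Agent.H462.JL.KF

/-!
# The joint law over `K`
-/

set_option autoImplicit false
set_option linter.unusedSectionVars false
set_option linter.unusedVariables false

open scoped Classical

namespace Pool.Agent.H462.JL

open NumberField IsDedekindDomain WeierstrassCurve
open Pool.Agent.Y692.QS (Ei w nr nr_mul)
open Pool.Agent.Y703.CT
open Pool.Agent.Y703.XL (cr)
open Pool.Agent.Y715.T.RecG (Pq)
open Pool.Agent.Y696.CTK
open Pool.Agent.Y699.E (PD mem_PD PS nrm prm)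
open Pool.Agent.TH841.NF.D (Sha)
open Pool.Agent.H462.CTU.Chr (nq)
open Pool.Agent.H462.CTU.LK (Dk)
open Pool.Agent.H462.CTU.Law.Cou (un un_isUnit exists_un A0 exists_el)
open Pool.Agent.H462.CTU.K (AK AK_iff)

/-- the corank exists -/
lemma cor_ex' {T : Finset Ei} (hT : ∀ ρ ∈ T, Pq ρ) (g : Ei → ZMod 3) (p : Bool × ZMod 3)
    (hu : ¬ IsUnit (un p * pe T g)) : ∃ r, CorG (un p * pe T g) r := by
  have h2 : Dk p.2 (lp T g) (le' T g) (un p * pe T g) := by
    apply un_dk (b := p.1)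
    rw [pD_pe]
  refine cor_exists (dt_lp hT g) h2 ?_
  by_contra hne
  rw [not_nonempty_iff] at hne
  apply hu
  rw [← pD_pe]
  unfold pD
  rw [Fintype.prod_empty, mul_one]
  exact un_isUnit _

section
variable {K : Type} [Field K] [NumberField K] {I : Type} [Fintype I]

/-- the elements of norm at most `X` -/
def upAm (A : I → 𝓞 K) (X : ℕ) : Set (𝓞 K) := {D : 𝓞 K | Algebra.norm ℤ D ≤ X ∧ AKm A D}

/-- the elements of the class of norm at most `X` -/
def upCm (A : I → 𝓞 K) (m : I → Bool) (X : ℕ) : Set (𝓞 K) :=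
  {D : 𝓞 K | Algebra.norm ℤ D ≤ X ∧ AKm A D ∧ CKm A m D}

end

/-- **The final statement.** -/
theorem finalJ (K : Type) [Field K] [NumberField K] [IsCyclotomicExtension {3} ℚ K]
    {I : Type} [Fintype I] (A : I → 𝓞 K) (m : I → Bool) (hA : ∀ i, CfK (A i)) :
    (∀ X, (upAm A X).Finite) ∧
    (∃ c : ℝ, 0 < c ∧ ∃ X₀ : ℕ, ∀ X : ℕ, X₀ ≤ X → c * X ≤ ((upAm A X).ncard : ℝ)) ∧
    cellsK A m ≤ 9 ∧
    Filter.Tendsto (fun X : ℕ => ((upCm A m X).ncard : ℝ) / ((upAm A X).ncard : ℝ)) Filter.atTop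
      (nhds ((9 - cellsK A m) / 9)) ∧
    (NeK A m → cellsK A m < 9 → ∀ r : I → ℕ, Filter.Tendsto (fun X : ℕ =>
      (({D ∈ upCm A m X | ∀ i, CorKG (twK (m i) (A i) D) (r i)}.ncard : ℕ) : ℝ) /
        ((upCm A m X).ncard : ℝ)) Filter.atTop (nhds (∏ i, cr (r i)))) ∧
    (NeK A m → ∀ r : I → ℕ, Filter.Tendsto (fun X : ℕ =>
      (({D ∈ upCm A m X | ∀ i, CorKG (twK (m i) (A i) D) (r i)}.ncard : ℕ) : ℝ) /
        ((upAm A X).ncard : ℝ)) Filter.atTop (nhds ((9 - cellsK A m) / 9 * ∏ i, cr (r i)))) ∧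
    ∀ D : 𝓞 K, AKm A D → CKm A m D → ∀ i, (∃! r, CorKG (twK (m i) (A i) D) r) ∧
      ∀ r, CorKG (twK (m i) (A i) D) r →
      Module.Finite ℤ (ED (twK (m i) (A i) D : K)).toAffine.Point ∧
      Module.finrank ℤ (ED (twK (m i) (A i) D : K)).toAffine.Point ≤ 2 * r ∧
      (∃ Φ : ℂ → ℂ, Differentiable ℂ Φ ∧ (∀ s : ℂ, 3 / 2 < s.re →
        LSeriesSummable ((fun n : ℤ => (n : ℂ)) ∘ (ED (twK (m i) (A i) D : K)).LFunction) s ∧
          Φ s = (ED (twK (m i) (A i) D : K)).LSeries s) ∧ (r = 0 → Φ 1 ≠ 0)) ∧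
      (r = 0 → Finite (ED (twK (m i) (A i) D : K)).toAffine.Point ∧
        padicValNat 3 (Nat.card (ED (twK (m i) (A i) D : K)).toAffine.Point) = 1 ∧
        ∀ (n : ℕ) (x : Sha (ED (twK (m i) (A i) D : K))), 3 ^ n • x = 0 → x = 0) := by
  obtain ⟨⟨j, hj⟩, -⟩ := Pool.Agent.Y455.CTK.jex K
  obtain ⟨B, hB⟩ : ∃ B : I → Ei, (fun i => j (B i)) = A :=
    ⟨fun i => j.symm (A i), funext fun i => RingEquiv.apply_symm_apply j _⟩
  subst hB
  have hB : ∀ i, Cf3 (B i) := fun i => (CfK_iff j hj (B i)).1 (hA i)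
  obtain ⟨q, R, f, hF⟩ := exists_fm hB
  have hcard := card_GG (q := q) (R := R) (f := f) m
  rw [← cells_eq j hj hF] at hcard
  have eA : ∀ X : ℕ, (upAm (fun i => j (B i)) X).ncard = {D : Ei | nr D ≤ X ∧ AR R D}.ncard :=
    fun X => Pool.Agent.Y696.XK.img_ncard j hj X (AR R) (AKm fun i => j (B i))
      fun D => (AKm_iff j hj hF D).symm
  have eC : ∀ X : ℕ, (upCm (fun i => j (B i)) m X).ncard =
      {D : Ei | nr D ≤ X ∧ AR R D ∧ CF B m D}.ncard := fun X =>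
    Pool.Agent.Y696.XK.img_ncard j hj X (fun D => AR R D ∧ CF B m D)
      (fun D => AKm (fun i => j (B i)) D ∧ CKm (fun i => j (B i)) m D) fun D => by
        rw [AKm_iff j hj hF D, CKm_iff j hj D]
  have eR : ∀ (X : ℕ) (r : I → ℕ), ({D ∈ upCm (fun i => j (B i)) m X |
      ∀ i, CorKG (twK (m i) (j (B i)) D) (r i)}).ncard =
      {D : Ei | nr D ≤ X ∧ AR R D ∧ CF B m D ∧ ∀ i, CorG (tw (m i) (B i) D) (r i)}.ncard := by
    intro X r
    rw [← Pool.Agent.Y696.XK.img_ncard j hj X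
      (fun D => AR R D ∧ CF B m D ∧ ∀ i, CorG (tw (m i) (B i) D) (r i))
      (fun D => AKm (fun i => j (B i)) D ∧ CKm (fun i => j (B i)) m D ∧
        ∀ i, CorKG (twK (m i) (j (B i)) D) (r i)) fun D => by
        rw [AKm_iff j hj hF D, CKm_iff j hj D]
        refine and_congr_right fun _ => and_congr_right fun _ => forall_congr' fun i => ?_
        rw [tw_K, corG_iff j hj]]
    congr 1
    ext D
    exact ⟨fun h => ⟨h.1.1, h.1.2.1, h.1.2.2, h.2⟩, fun h => ⟨⟨h.1, h.2.1, h.2.2.1⟩, h.2.2.2⟩⟩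
  have hc9 : (((GG q R f m).card : ℕ) : ℝ) = 9 - cellsK (fun i => j (B i)) m := by
    have h : (((GG q R f m).card : ℕ) : ℝ) + cellsK (fun i => j (B i)) m = 9 := by
      exact_mod_cast hcard
    linarith
  refine ⟨fun X => ?_, ?_, ?_, ?_, fun hne h9 r => ?_, fun hne r => ?_, fun D hD1 hD2 i => ?_⟩
  · have h1 : {D : Ei | nr D ≤ X}.Finite :=
      (Pool.Agent.Y699.E.fin_norm_le X).subset fun D hD => Pool.Agent.Y699.E.nr_le.1 hD
    refine (h1.image j).subset ?_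
    rintro D ⟨h2, -⟩
    obtain ⟨z, rfl⟩ := j.surjective D
    rw [hj] at h2
    exact ⟨z, h2, rfl⟩
  · obtain ⟨c, hc, X₀, h⟩ := ar_low hF.pq
    exact ⟨c, hc, X₀, fun X hX => by rw [eA]; exact h X hX⟩
  · omega
  · have h := share_F m hF
    rw [hc9] at h
    simp only [eA, eC]
    exact h
  · simp only [eR, eC]
    refine law_F m hF (ne_of j hF hne) ?_ r
    rw [← Finset.card_pos]
    omega
  · have h := law_A m hF (ne_of j hF hne) r
    rw [hc9] at h
    simp only [eA, eR]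
    exact h
  · obtain ⟨z, rfl⟩ := j.surjective D
    have h1 : AR R z := (AKm_iff j hj hF z).1 hD1
    have h2 : CF B m z := (CKm_iff j hj z).1 hD2
    obtain ⟨p, n, hn, hz⟩ := exists_el h1.1
    have hc : cop R n := by
      have := h1.2
      rw [hz] at this
      exact (cop_un p).1 this
    have hbad := h2.2 i
    have hu : ¬ IsUnit (tw (m i) (B i) z) := by
      intro h
      apply h2.1
      unfold tw at h
      split_ifs at h
      · exact isUnit_of_dvd_unit ((dvd_pow_self z two_ne_zero).trans (dvd_mul_left _ _)) h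
      · exact isUnit_of_dvd_unit (dvd_mul_left _ _) h
    obtain ⟨r, hr⟩ : ∃ r, CorG (tw (m i) (B i) z) r := by
      rw [hz, tw_eq hF hn hc]
      apply cor_ex' (pq_union hF hn hc)
      rw [← tw_eq hF hn hc, ← hz]
      exact hu
    dsimp only
    rw [tw_K]
    refine ⟨⟨r, (corG_iff j hj _ r).2 hr, fun s hs =>
      cor_unique ((corG_iff j hj _ s).1 hs) hr⟩, fun s hs => ?_⟩
    exact oneG j hbad hu ((corG_iff j hj _ s).1 hs)

end Pool.Agent.H462.JL
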