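import Pool.Agent.H462.JL.Fin

/-!
# The residue classes
-/

set_option autoImplicit false
set_option linter.unusedSectionVars false
set_option linter.unusedVariables false

open scoped Classical

namespace Pool.Agent.H462.JL

open Finset Filter
open NumberField IsDedekindDomain WeierstrassCurve
open Pool.Agent.Y692.QS (Ei w nr nr_mul)
open Pool.Agent.Y703.CT
open Pool.Agent.Y703.XL (cr)
open Pool.Agent.Y715.T.RecG (Pq)
open Pool.Agent.Y699.E (PD mem_PD PS nrm prm)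
open Pool.Agent.H462.CTU.Chr (nq)
open Pool.Agent.H462.CTU.Law.Cou (un un_nr un_isUnit exists_un A0 exists_el ct ct_congr dvd_el ct_none)
open Pool.Agent.H462.CTU.K (AK AK_iff)

/-- the count in a residue class -/
theorem cnt_cell {R : Finset Ei} (P : Ei → Prop) (p : Bool × ZMod 3) (t : ℤ) (X : ℕ) :
    {D : Ei | nr D ≤ X ∧ AR R D ∧ ((3 : Ei) ∣ D - un p ∧ (9 : ℤ) ∣ nr D - 1 - 3 * t) ∧ P D}.ncard =
      ct (SR R X) (fun n => nq n = (t : ZMod 3) ∧ P (un p * n)) := by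
  rw [cntR R (fun D => ((3 : Ei) ∣ D - un p ∧ (9 : ℤ) ∣ nr D - 1 - 3 * t) ∧ P D), sum_eq_single p]
  · refine ct_congr fun n hn => ?_
    have hn' := (mem_SR.1 hn).1.2
    rw [dvd_el hn', nr_mul, un_nr, one_mul, nq_iff hn'.prm]
    exact ⟨fun h => ⟨h.1.2, h.2⟩, fun h => ⟨⟨rfl, h.1⟩, h.2⟩⟩
  · intro q _ hqp
    refine ct_none fun n hn h1 => ?_
    exact hqp ((dvd_el (mem_SR.1 hn).1.2).1 h1.1.1)
  · intro h1
    exact absurd (mem_univ _) h1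

section
variable {I : Type} [Fintype I] {A : I → Ei} {q : I → Bool × ZMod 3} {R : Finset Ei}
  {f : I → Ei → ZMod 3} (m : I → Bool)

/-- **the joint law in a residue class** -/
theorem law_R (hF : Fm A q R f) (hne : ∀ i j, i ≠ j → sg (m i) (q i).2 ≠ sg (m j) (q j).2 ∨
      ∃ u ∈ R, sg (m i) (f i u) ≠ sg (m j) (f j u)) (r : I → ℕ) (p : Bool × ZMod 3) (t : ℤ) :
    Tendsto (fun X : ℕ => ({D : Ei | nr D ≤ X ∧ AR R D ∧
        ((3 : Ei) ∣ D - un p ∧ (9 : ℤ) ∣ nr D - 1 - 3 * t) ∧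
        ∀ i, CorG (tw (m i) (A i) D) (r i)}.ncard : ℝ) /
      ({D : Ei | nr D ≤ X ∧ AR R D ∧
        ((3 : Ei) ∣ D - un p ∧ (9 : ℤ) ∣ nr D - 1 - 3 * t)}.ncard : ℝ)) atTop
      (nhds (∏ i, cr (r i))) := by
  have h1 := joint m hF hne r p (t : ZMod 3)
  have h2 := cell hF.pq (t : ZMod 3)
  have h := h1.div h2 (by norm_num)
  have e : (∏ i, cr (r i)) * (1 / 3) / (1 / 3) = ∏ i, cr (r i) := by field_simp
  rw [e] at h
  refine h.congr' ?_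
  filter_upwards [sr_pos hF.pq] with X hN
  have e1 : {D : Ei | nr D ≤ X ∧ AR R D ∧ ((3 : Ei) ∣ D - un p ∧ (9 : ℤ) ∣ nr D - 1 - 3 * t)}.ncard =
      ct (SR R X) (fun n => nq n = (t : ZMod 3)) := by
    have h3 := cnt_cell (R := R) (fun _ => True) p t X
    have e2 : {D : Ei | nr D ≤ X ∧ AR R D ∧ ((3 : Ei) ∣ D - un p ∧ (9 : ℤ) ∣ nr D - 1 - 3 * t)} =
        {D : Ei | nr D ≤ X ∧ AR R D ∧ ((3 : Ei) ∣ D - un p ∧ (9 : ℤ) ∣ nr D - 1 - 3 * t) ∧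
          True} := by
      ext D
      exact ⟨fun h => ⟨h.1, h.2.1, h.2.2, trivial⟩, fun h => ⟨h.1, h.2.1, h.2.2.1⟩⟩
    rw [e2, h3]
    exact ct_congr fun n _ => ⟨fun h => h.1, fun h => ⟨h, trivial⟩⟩
  rw [cnt_cell (R := R) (fun D => ∀ i, CorG (tw (m i) (A i) D) (r i)) p t X, e1]
  exact div_div_div_cancel_right₀ hN.ne' _ _

/-- the share of a residue class -/
theorem share_R (hR : ∀ π ∈ R, Pq π) (p : Bool × ZMod 3) (t : ℤ) :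
    Tendsto (fun X : ℕ => ({D : Ei | nr D ≤ X ∧ AR R D ∧
        ((3 : Ei) ∣ D - un p ∧ (9 : ℤ) ∣ nr D - 1 - 3 * t)}.ncard : ℝ) /
      ({D : Ei | nr D ≤ X ∧ AR R D}.ncard : ℝ)) atTop (nhds (1 / 18)) := by
  have h := (cell hR (t : ZMod 3)).div_const 6
  have e : (1 : ℝ) / 3 / 6 = 1 / 18 := by norm_num
  rw [e] at h
  refine h.congr fun X => ?_
  have h3 := cnt_cell (R := R) (fun _ => True) p t X
  have e2 : {D : Ei | nr D ≤ X ∧ AR R D ∧ ((3 : Ei) ∣ D - un p ∧ (9 : ℤ) ∣ nr D - 1 - 3 * t)} =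
      {D : Ei | nr D ≤ X ∧ AR R D ∧ ((3 : Ei) ∣ D - un p ∧ (9 : ℤ) ∣ nr D - 1 - 3 * t) ∧
        True} := by
    ext D
    exact ⟨fun h => ⟨h.1, h.2.1, h.2.2, trivial⟩, fun h => ⟨h.1, h.2.1, h.2.2.1⟩⟩
  rw [cnt_AR, e2, h3, ct_congr (Q := fun n => nq n = (t : ZMod 3) ∧ (fun _ : Ei => True) (un p * n))
    (Q' := fun n => nq n = (t : ZMod 3)) fun n _ => ⟨fun h => h.1, fun h => ⟨h, trivial⟩⟩]
  push_cast
  rw [div_div, mul_comm ((SR R X).card : ℝ)]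

end

/-- **the joint law in the residue classes, over `K`** -/
theorem resJ (K : Type) [Field K] [NumberField K] [IsCyclotomicExtension {3} ℚ K]
    {I : Type} [Fintype I] (A : I → 𝓞 K) (m : I → Bool) (hA : ∀ i, CfK (A i)) (u : (𝓞 K)ˣ) (t : ℤ) :
    Tendsto (fun X : ℕ =>
      (({D ∈ upAm A X | (3 : 𝓞 K) ∣ D - u ∧ (9 : ℤ) ∣ Algebra.norm ℤ D - 1 - 3 * t}.ncard : ℕ) : ℝ) /
        ((upAm A X).ncard : ℝ)) atTop (nhds (1 / 18)) ∧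
    (NeK A m → ∀ r : I → ℕ, Tendsto (fun X : ℕ =>
      (({D ∈ upAm A X | ((3 : 𝓞 K) ∣ D - u ∧ (9 : ℤ) ∣ Algebra.norm ℤ D - 1 - 3 * t) ∧
        ∀ i, CorKG (twK (m i) (A i) D) (r i)}.ncard : ℕ) : ℝ) /
      (({D ∈ upAm A X | (3 : 𝓞 K) ∣ D - u ∧ (9 : ℤ) ∣ Algebra.norm ℤ D - 1 - 3 * t}.ncard : ℕ) : ℝ))
      atTop (nhds (∏ i, cr (r i)))) := by
  obtain ⟨⟨j, hj⟩, -⟩ := Pool.Agent.Y455.CTK.jex K
  obtain ⟨B, hB⟩ : ∃ B : I → Ei, (fun i => j (B i)) = A :=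
    ⟨fun i => j.symm (A i), funext fun i => RingEquiv.apply_symm_apply j _⟩
  subst hB
  have hB : ∀ i, Cf3 (B i) := fun i => (CfK_iff j hj (B i)).1 (hA i)
  obtain ⟨q, R, f, hF⟩ := exists_fm hB
  have hu : IsUnit (j.symm (u : 𝓞 K)) := u.isUnit.map j.symm
  obtain ⟨p, hp⟩ := exists_un (Pool.Agent.Y692.QS.isUnit_iff.1 hu)
  have hdv : ∀ z : Ei, (3 : 𝓞 K) ∣ j z - u ↔ (3 : Ei) ∣ z - un p := by
    intro z
    have h1 : j z - u = j (z - un p) := by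
      rw [map_sub, ← hp, RingEquiv.apply_symm_apply]
    rw [h1, ← map_ofNat j 3, map_dvd_iff j]
  have eA : ∀ X : ℕ, (upAm (fun i => j (B i)) X).ncard = {D : Ei | nr D ≤ X ∧ AR R D}.ncard :=
    fun X => Pool.Agent.Y696.XK.img_ncard j hj X (AR R) (AKm fun i => j (B i))
      fun D => (AKm_iff j hj hF D).symm
  have eC : ∀ X : ℕ, ({D ∈ upAm (fun i => j (B i)) X | (3 : 𝓞 K) ∣ D - u ∧
      (9 : ℤ) ∣ Algebra.norm ℤ D - 1 - 3 * t}).ncard =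
      {D : Ei | nr D ≤ X ∧ AR R D ∧ ((3 : Ei) ∣ D - un p ∧ (9 : ℤ) ∣ nr D - 1 - 3 * t)}.ncard := by
    intro X
    rw [← Pool.Agent.Y696.XK.img_ncard j hj X
      (fun D => AR R D ∧ ((3 : Ei) ∣ D - un p ∧ (9 : ℤ) ∣ nr D - 1 - 3 * t))
      (fun D => AKm (fun i => j (B i)) D ∧ ((3 : 𝓞 K) ∣ D - u ∧
        (9 : ℤ) ∣ Algebra.norm ℤ D - 1 - 3 * t)) fun D => by
        rw [AKm_iff j hj hF D, hdv, hj]]
    congr 1
    ext D
    exact ⟨fun h => ⟨h.1.1, h.1.2, h.2⟩, fun h => ⟨⟨h.1, h.2.1⟩, h.2.2⟩⟩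
  have eR : ∀ (X : ℕ) (r : I → ℕ), ({D ∈ upAm (fun i => j (B i)) X | ((3 : 𝓞 K) ∣ D - u ∧
      (9 : ℤ) ∣ Algebra.norm ℤ D - 1 - 3 * t) ∧
      ∀ i, CorKG (twK (m i) (j (B i)) D) (r i)}).ncard =
      {D : Ei | nr D ≤ X ∧ AR R D ∧ ((3 : Ei) ∣ D - un p ∧ (9 : ℤ) ∣ nr D - 1 - 3 * t) ∧
        ∀ i, CorG (tw (m i) (B i) D) (r i)}.ncard := by
    intro X r
    rw [← Pool.Agent.Y696.XK.img_ncard j hj X
      (fun D => AR R D ∧ ((3 : Ei) ∣ D - un p ∧ (9 : ℤ) ∣ nr D - 1 - 3 * t) ∧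
        ∀ i, CorG (tw (m i) (B i) D) (r i))
      (fun D => AKm (fun i => j (B i)) D ∧ ((3 : 𝓞 K) ∣ D - u ∧
        (9 : ℤ) ∣ Algebra.norm ℤ D - 1 - 3 * t) ∧
        ∀ i, CorKG (twK (m i) (j (B i)) D) (r i)) fun D => by
        rw [AKm_iff j hj hF D, hdv, hj]
        refine and_congr_right fun _ => and_congr_right fun _ => forall_congr' fun i => ?_
        rw [tw_K, corG_iff j hj]]
    congr 1
    ext D
    exact ⟨fun h => ⟨h.1.1, h.1.2, h.2.1, h.2.2⟩, fun h => ⟨⟨h.1, h.2.1⟩, h.2.2.1, h.2.2.2⟩⟩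
  refine ⟨?_, fun hne r => ?_⟩
  · simp only [eA, eC]
    exact share_R hF.pq p t
  · simp only [eR, eC]
    exact law_R m hF (ne_of j hF hne) r p t

end Pool.Agent.H462.JL
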