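import Pool.Agent.H462.JL.Rep

/-!
# The curve `y² + B y = x³` for a cube-free `B` of the class
-/

set_option autoImplicit false
set_option linter.unusedSectionVars false
set_option linter.unusedVariables false

open scoped Classical

namespace Pool.Agent.H462.JL

open NumberField IsDedekindDomain WeierstrassCurve
open Pool.Agent.Y692.QS (Ei w nr nr_mul)
open Pool.Agent.Y703.CT
open Pool.Agent.Y715.T.Rec (cs nn)
open Pool.Agent.Y715.T.RecG (Pq)
open Pool.Agent.Y696.CTK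
open Pool.Agent.Y699.E (PD mem_PD PS PS_prod eq_of_dvd pq_ne nrm prm prm_one prm_mul prm_ne_zero
  prm_cancel eq_one_of_prm)
open Pool.Agent.XL6 (KerV)
open Pool.Agent.TH841.NF.D (Sha)
open Pool.Agent.H462.CTU.Chr (nq)
open Pool.Agent.H462.CTU.LK (Dk)
open Pool.Agent.H462.CTU.Sel (KW KerC)
open Pool.Agent.H462.CTU.Law.Cou (un un_nr un_inj un_isUnit un_ne exists_un el_inj)

/-- the class modulo nine which is left out -/
def bad (z : Ei) : Prop := (3 : Ei) ∣ z ^ 2 - 1 ∧ (9 : ℤ) ∣ nr z - 1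

lemma sq_prm {p : Bool × ZMod 3} {n : Ei} (hn : prm n) :
    (3 : Ei) ∣ (un p * n) ^ 2 - 1 ↔ p.2 = 0 := by
  obtain ⟨c, hc⟩ := hn
  have hn2 : (3 : Ei) ∣ n ^ 2 - 1 := ⟨c * (n + 1), by linear_combination (n + 1) * hc⟩
  have h1 : (un p * n) ^ 2 - 1 = (un p) ^ 2 * (n ^ 2 - 1) + ((un p) ^ 2 - 1) := by ring
  rw [h1, dvd_add_right (hn2.mul_left _)]
  have h2 := Pool.Agent.H462.CTU.Law.Cou.sq_el (p := p) (n := 1) Pool.Agent.Y699.E.PS_one
  rw [mul_one] at h2
  exact h2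

lemma nine_prm {p : Bool × ZMod 3} {n : Ei} (hn : prm n) :
    (9 : ℤ) ∣ nr (un p * n) - 1 ↔ nq n = 0 := by
  rw [nr_mul, un_nr, one_mul]
  obtain ⟨a, ha⟩ := Pool.Agent.Y699.E.prm_nr hn
  unfold nq
  rw [ha, ZMod.intCast_zmod_eq_zero_iff_dvd]
  push_cast
  omega

lemma bad_el {p : Bool × ZMod 3} {n : Ei} (hn : prm n) :
    bad (un p * n) ↔ p.2 = 0 ∧ nq n = 0 := by
  unfold bad
  rw [sq_prm hn, nine_prm hn]

/-- the data of an element of the class -/
lemma cor_data {z : Ei} (hz : ¬ bad z) (hu : ¬ IsUnit z) {r : ℕ} (hr : CorG z r) :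
    ∃ (k : ZMod 3) (J : Type) (_ : Fintype J) (_ : Nonempty J) (π : J → Ei) (e : J → ZMod 3),
      Dt π e ∧ Dk k π e z ∧ (KW k π e).ncard = 3 ^ (r + 1 + kz k) ∧
      (k = 0 → ¬ (9 : ℤ) ∣ nr (pD π e) - 1) := by
  obtain ⟨k, n, π, e, h1, h2, h3⟩ := hr
  obtain ⟨b, hb⟩ := dk_un h2
  refine ⟨k, Fin n, inferInstance, ?_, π, e, h1, h2, h3, fun hk h9 => hz ?_⟩
  · by_contra hne
    rw [not_nonempty_iff] at hne
    apply hu
    rw [hb]
    unfold pD
    rw [Fintype.prod_empty, mul_one]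
    exact un_isUnit _
  · rw [hb, bad_el (prm_pD h1)]
    refine ⟨hk, ?_⟩
    rw [← nine_prm (p := (b, k)) (prm_pD h1), nr_mul, un_nr, one_mul]
    exact h9

section
variable {J : Type} [Fintype J] {π : J → Ei} {e : J → ZMod 3} {k : ZMod 3}

lemma kerC_of (h : (KW k π e).ncard = 3) : KerC k π e := by
  have hfin : (KW k π e).Finite := Set.toFinite _
  have hc : ∀ c : ZMod 3, (fun _ => c : Option J → ZMod 3) ∈ KW k π e := by
    intro c j
    simp
  have hcc : Set.range (fun (c : ZMod 3) (_ : Option J) => c) = KW k π e := by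
    apply Set.eq_of_subset_of_ncard_le _ _ hfin
    · rintro _ ⟨c, rfl⟩
      exact hc c
    · rw [h, Set.ncard_range_of_injective, Nat.card_zmod]
      intro c c' h
      exact congrFun h none
  intro v hv i
  rw [← hcc] at hv
  obtain ⟨c, rfl⟩ := hv
  rfl

lemma ker_of [Nonempty J] (h : (KerV π e).ncard = 3) : Ker π e := by
  obtain ⟨j0⟩ := (inferInstance : Nonempty J)
  have hfin : (KerV π e).Finite := Set.toFinite _
  have hc : ∀ c : ZMod 3, (fun _ => c : J → ZMod 3) ∈ KerV π e := by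
    intro c j
    simp
  have hcc : Set.range (fun (c : ZMod 3) (_ : J) => c) = KerV π e := by
    apply Set.eq_of_subset_of_ncard_le _ _ hfin
    · rintro _ ⟨c, rfl⟩
      exact hc c
    · rw [h, Set.ncard_range_of_injective, Nat.card_zmod]
      intro c c' h
      exact congrFun h j0
  intro v hv i k
  have hv' : v ∈ KerV π e := hv
  rw [← hcc] at hv'
  obtain ⟨c, rfl⟩ := hv'
  rfl

/-- without the additional node -/
lemma KW_zero : (KW 0 π e).ncard = 3 * (KerV π e).ncard := by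
  rw [← Nat.card_coe_set_eq, ← Nat.card_coe_set_eq]
  have h : Nat.card (ZMod 3 × KerV π e) = 3 * Nat.card (KerV π e) := by
    rw [Nat.card_prod, Nat.card_zmod]
  rw [← h]
  refine Nat.card_congr
    { toFun := fun v => (v.1 none, ⟨fun j => v.1 (some j), fun j => ?_⟩)
      invFun := fun p => ⟨fun o => Option.elim o p.1 (fun j => p.2.1 j), fun j => ?_⟩
      left_inv := fun v => ?_
      right_inv := fun p => ?_ }
  · have h1 := v.2 j
    rwa [zero_mul, zero_mul, zero_add] at h1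
  · show 0 * nq (π j) * (p.1 - p.2.1 j) + ∑ i, e i * cs (π j) (π i) * (p.2.1 i - p.2.1 j) = 0
    rw [zero_mul, zero_mul, zero_add]
    exact p.2.2 j
  · apply Subtype.ext
    funext o
    cases o with
    | none => rfl
    | some j => rfl
  · rfl

end

section
variable {K : Type} [Field K] [NumberField K] (j : Ei ≃+* 𝓞 K)

/-- **the curve, for one element** -/
theorem oneG {z : Ei} (hz : ¬ bad z) (hu : ¬ IsUnit z) {r : ℕ} (hr : CorG z r) :
    Module.Finite ℤ (ED (j z : K)).toAffine.Point ∧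
    Module.finrank ℤ (ED (j z : K)).toAffine.Point ≤ 2 * r ∧
    (∃ Φ : ℂ → ℂ, Differentiable ℂ Φ ∧ (∀ s : ℂ, 3 / 2 < s.re →
      LSeriesSummable ((fun n : ℤ => (n : ℂ)) ∘ (ED (j z : K)).LFunction) s ∧
        Φ s = (ED (j z : K)).LSeries s) ∧ (r = 0 → Φ 1 ≠ 0)) ∧
    (r = 0 → Finite (ED (j z : K)).toAffine.Point ∧
      padicValNat 3 (Nat.card (ED (j z : K)).toAffine.Point) = 1 ∧
      ∀ (n : ℕ) (x : Sha (ED (j z : K))), 3 ^ n • x = 0 → x = 0) := by
  obtain ⟨k, J, _, _, π, e, hdt, hDk, hG, h9⟩ := cor_data hz hu hr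
  by_cases hk : k = 0
  · subst hk
    have hG' : (KerV π e).ncard = 3 ^ (r + 1) := by
      have h1 : kz 0 = 1 := rfl
      rw [KW_zero, h1, pow_succ 3 (r + 1)] at hG
      omega
    have h9' := h9 rfl
    obtain ⟨a1, a2, a3⟩ := Pool.Agent.H462.CTU.Crit0.rk (K := K) j hdt hDk h9'
    obtain ⟨Φ, b1, b2, b3⟩ := Pool.Agent.H462.CTU.Crit0.entire (K := K) j hdt hDk h9'
    refine ⟨a1, a3 r hG'.le, ⟨Φ, b1, b2, fun h0 => b3 (ker_of (by rw [hG', h0]; norm_num))⟩,
      fun h0 => Pool.Agent.H462.CTU.Crit0.ari j hdt hDk h9' (ker_of (by rw [hG', h0]; norm_num))⟩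
  · have hKW : (KW k π e).ncard = 3 ^ (r + 1) := by
      have h1 : kz k = 0 := if_neg hk
      rw [hG, h1, add_zero]
    obtain ⟨a1, a2, a3⟩ := Pool.Agent.H462.CTU.Crit.rk (K := K) j hk hdt hDk
    obtain ⟨Φ, b1, b2, b3⟩ := Pool.Agent.H462.CTU.Crit.entire (K := K) j hk hdt hDk
    refine ⟨a1, a3 r hKW.le, ⟨Φ, b1, b2, fun h0 => b3 (kerC_of (by rw [hKW, h0]; norm_num))⟩,
      fun h0 => Pool.Agent.H462.CTU.Crit.ari j hk hdt hDk (kerC_of (by rw [hKW, h0]; norm_num))⟩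

end

/-! ### the cube-free elements -/

/-- cube-free and prime to three -/
def Cf3 (z : Ei) : Prop := (∀ π : Ei, Prime π → ¬ π ^ 3 ∣ z) ∧ ¬ (3 : ℤ) ∣ nr z

/-- a primary element is a product of powers -/
lemma prm_fac (n : ℕ) : ∀ a : Ei, prm a → nrm a ≤ n → ∃ (T : Finset Ei) (g : Ei → ℕ),
    (∀ ρ ∈ T, Pq ρ ∧ g ρ ≠ 0) ∧ (∀ ρ, ρ ∉ T → g ρ = 0) ∧ a = ∏ ρ ∈ T, ρ ^ g ρ := by
  induction n with
  | zero =>
    intro a ha h
    have := Pool.Agent.Y699.E.nrm_pos' (prm_ne_zero ha)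
    omega
  | succ n ih =>
    intro a ha h
    by_cases hu : IsUnit a
    · refine ⟨∅, fun _ => 0, fun ρ hρ => absurd hρ (Finset.notMem_empty _), fun _ _ => rfl, ?_⟩
      rw [Finset.prod_empty]
      exact eq_one_of_prm ha hu
    · obtain ⟨ρ, hρ, hρa⟩ := WfDvdMonoid.exists_irreducible_factor hu (prm_ne_zero ha)
      have hρ' : Prime ρ := irreducible_iff_prime.1 hρ
      obtain ⟨π, hπ, hass⟩ := Pool.Agent.Y699.E.exists_PP hρ'
        (Pool.Agent.Y699.E.not_dvd_three hρ' hρa ha)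
      obtain ⟨b, hb⟩ := hass.dvd.trans hρa
      have hbp : prm b := by
        rw [hb] at ha
        exact prm_cancel hπ.three ha
      have hlt : nrm b ≤ n := by
        have h1 : nrm a = nrm π * nrm b := by rw [hb, Pool.Agent.Y699.E.nrm_mul]
        have h2 : 2 ≤ nrm π := by
          by_contra hlt
          have h3 := Pool.Agent.Y699.E.nrm_pos' (pq_ne hπ)
          have h4 : nrm π = 1 := by omega
          apply hπ.prime.not_isUnit
          rw [Pool.Agent.Y692.QS.isUnit_iff]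
          have h5 := Pool.Agent.Y692.QS.nr_nonneg π
          unfold nrm at h4
          omega
        have h3 := Pool.Agent.Y699.E.nrm_pos' (prm_ne_zero hbp)
        nlinarith
      obtain ⟨T, g, h1, h2, h3⟩ := ih b hbp hlt
      refine ⟨insert π T, fun ρ => if ρ = π then g ρ + 1 else g ρ, fun ρ hρ => ?_, fun ρ hρ => ?_, ?_⟩
      · rw [Finset.mem_insert] at hρ
        dsimp only
        by_cases h4 : ρ = π
        · rw [h4, if_pos rfl]
          exact ⟨hπ, Nat.succ_ne_zero _⟩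
        · rw [if_neg h4]
          exact h1 ρ (hρ.resolve_left h4)
      · rw [Finset.mem_insert, not_or] at hρ
        dsimp only
        rw [if_neg hρ.1]
        exact h2 ρ hρ.2
      · have h4 : ∏ ρ ∈ insert π T, ρ ^ (if ρ = π then g ρ + 1 else g ρ) =
            π * ∏ ρ ∈ insert π T, ρ ^ g ρ := by
          have h5 : ∀ ρ, ρ ^ (if ρ = π then g ρ + 1 else g ρ) = (if ρ = π then π else 1) * ρ ^ g ρ := by
            intro ρ
            by_cases h6 : ρ = π
            · rw [if_pos h6, if_pos h6, pow_succ, h6, mul_comm]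
            · rw [if_neg h6, if_neg h6, one_mul]
          rw [Finset.prod_congr rfl fun ρ _ => h5 ρ, Finset.prod_mul_distrib,
            Finset.prod_ite_eq' (insert π T) π (fun _ => π), if_pos (Finset.mem_insert_self _ _)]
        rw [h4, hb, h3]
        congr 1
        by_cases h5 : π ∈ T
        · rw [Finset.insert_eq_of_mem h5]
        · rw [Finset.prod_insert h5, h2 π h5, pow_zero, one_mul]

/-- the representation of a cube-free element -/
theorem exists_rep {z : Ei} (hz : Cf3 z) : ∃ (p : Bool × ZMod 3) (T : Finset Ei) (g : Ei → ZMod 3),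
    (∀ ρ ∈ T, Pq ρ ∧ g ρ ≠ 0) ∧ (∀ ρ, ρ ∉ T → g ρ = 0) ∧ z = un p * pe T g := by
  obtain ⟨h1, h2⟩ := hz
  have h4 := (Pool.Agent.Y692.QS.ep_cases z h2).2
  have h5 : nr (Pool.Agent.Y692.QS.ep z) = 1 := by
    have := congrArg nr h4
    rw [nr_mul, Pool.Agent.Y692.QS.nr_star, Pool.Agent.Y692.QS.nr_one] at this
    have h6 := Pool.Agent.Y692.QS.nr_nonneg (Pool.Agent.Y692.QS.ep z)
    nlinarith
  obtain ⟨p, hp⟩ := exists_un h5
  have h7 : z = un p * Pool.Agent.Y692.QS.ns z := by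
    rw [← hp]
    unfold Pool.Agent.Y692.QS.ns
    rw [← mul_assoc, mul_comm (Pool.Agent.Y692.QS.ep z), h4, one_mul]
  have h8 : prm (Pool.Agent.Y692.QS.ns z) := Pool.Agent.Y692.QS.ns_one h2
  obtain ⟨T, g, h9, h10, h11⟩ := prm_fac _ _ h8 le_rfl
  have hle : ∀ ρ, g ρ ≤ 2 := by
    intro ρ
    by_cases hρ : ρ ∈ T
    · by_contra hlt
      apply h1 ρ (h9 ρ hρ).1.prime
      rw [h7, h11]
      refine Dvd.dvd.mul_left ?_ _
      exact (pow_dvd_pow ρ (by omega)).trans (Finset.dvd_prod_of_mem (fun ρ => ρ ^ g ρ) hρ)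
    · rw [h10 ρ hρ]
      omega
  have hval : ∀ ρ, ((g ρ : ZMod 3)).val = g ρ := fun ρ => by
    rw [ZMod.val_natCast]
    exact Nat.mod_eq_of_lt (by have := hle ρ; omega)
  refine ⟨p, T, fun ρ => (g ρ : ZMod 3), fun ρ hρ => ⟨(h9 ρ hρ).1, ?_⟩, fun ρ hρ => ?_, ?_⟩
  · intro h0
    have h12 := hval ρ
    have h0' : ((g ρ : ℕ) : ZMod 3) = 0 := h0
    rw [h0'] at h12
    exact (h9 ρ hρ).2 h12.symm
  · show ((g ρ : ℕ) : ZMod 3) = 0
    rw [h10 ρ hρ, Nat.cast_zero]
  · conv_lhs => rw [h7, h11]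
    unfold pe
    congr 1
    exact Finset.prod_congr rfl fun ρ _ => by rw [hval]

end Pool.Agent.H462.JL
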