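import Pool.Agent.H462.JL.Cou

/-!
# The families `A_i D` and `A_i D²`
-/

set_option autoImplicit false
set_option linter.unusedSectionVars false
set_option linter.unusedVariables false

open scoped Classical
open Finset Filter

namespace Pool.Agent.H462.JL

open Pool.Agent.Y692.QS (Ei w nr nr_mul)
open Pool.Agent.Y703.CT
open Pool.Agent.Y703.XL (cr)
open Pool.Agent.Y715.T.RecG (Pq)
open Pool.Agent.Y699.E
open Pool.Agent.H462.CTU.Chr (nq nq_mul)
open Pool.Agent.H462.CTU.Law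
open Pool.Agent.H462.CTU.Law.Cou (un un_nr un_inj un_isUnit un_ne exists_un el_inj A0 cnt ct
  ct_congr ct_true ct_le ct_insert)

lemma un_mul (p q : Bool × ZMod 3) : un p * un q = un (xor p.1 q.1, p.2 + q.2) := by
  revert p q
  decide

lemma prm_nr3 {a : Ei} (h : prm a) : (3 : ℤ) ∣ nr a - 1 := by
  obtain ⟨b, hb⟩ := prm_nr h
  exact ⟨b, by rw [hb]; ring⟩

lemma nq_mul' {a b : Ei} (ha : prm a) (hb : prm b) : nq (a * b) = nq a + nq b :=
  nq_mul (prm_nr3 ha) (prm_nr3 hb)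

/-- the element of the family -/
def tw (m : Bool) (A D : Ei) : Ei := if m then A * D ^ 2 else A * D

/-- the sign -/
def sg (m : Bool) (x : ZMod 3) : ZMod 3 := if m then -x else x

lemma sg_zero {m : Bool} {x : ZMod 3} : sg m x = 0 ↔ x = 0 := by
  unfold sg
  split_ifs
  · exact neg_eq_zero
  · exact Iff.rfl

lemma sg_inj {m : Bool} {x y : ZMod 3} (h : sg m x = sg m y) : x = y := by
  unfold sg at h
  split_ifs at h
  · exact neg_injective h
  · exact h

section
variable {I : Type} {A : I → Ei} {q : I → Bool × ZMod 3} {R : Finset Ei} {f : I → Ei → ZMod 3}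

/-- the data of a family -/
structure Fm (A : I → Ei) (q : I → Bool × ZMod 3) (R : Finset Ei) (f : I → Ei → ZMod 3) :
    Prop where
  pq : ∀ ρ ∈ R, Pq ρ
  dvd : ∀ ρ ∈ R, ∃ i, f i ρ ≠ 0
  eq : ∀ i, A i = un (q i) * pe R (f i)

theorem exists_fm [Fintype I] (hA : ∀ i, Cf3 (A i)) : ∃ (q : I → Bool × ZMod 3) (R : Finset Ei)
    (f : I → Ei → ZMod 3), Fm A q R f := by
  have h := fun i => exists_rep (hA i)
  choose q T f h1 h2 h3 using h
  refine ⟨q, univ.biUnion T, f, ?_, ?_, ?_⟩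
  · intro ρ hρ
    obtain ⟨i, -, hi⟩ := mem_biUnion.1 hρ
    exact (h1 i ρ hi).1
  · intro ρ hρ
    obtain ⟨i, -, hi⟩ := mem_biUnion.1 hρ
    exact ⟨i, (h1 i ρ hi).2⟩
  · intro i
    rw [h3 i]
    congr 1
    unfold pe
    refine prod_subset (fun ρ hρ => mem_biUnion.2 ⟨i, mem_univ _, hρ⟩) fun ρ _ hρ => ?_
    rw [h2 i ρ hρ]
    exact pow_zero _

variable (hF : Fm A q R f) {p : Bool × ZMod 3} {n : Ei} (hn : PS n) (hc : cop R n)
include hF hn hc

lemma disj : Disjoint R (PD n) := by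
  rw [disjoint_left]
  intro ρ h1 h2
  exact hc ρ h1 ((mem_PD hn.ne).1 h2).2

lemma pq_union : ∀ ρ ∈ R ∪ PD n, Pq ρ := by
  intro ρ hρ
  rcases mem_union.1 hρ with h | h
  · exact hF.pq ρ h
  · exact ((mem_PD hn.ne).1 h).1

/-- the exponents on the union -/
lemma pe_union (m : Bool) (i : I) :
    pe (R ∪ PD n) (fun ρ => sg m (ee R (fun ρ => sg m (f i ρ)) ρ)) =
      pe R (f i) * (if m then n ^ 2 else n) := by
  unfold pe
  rw [prod_union (disj hF hn hc)]
  congr 1
  · refine prod_congr rfl fun ρ hρ => ?_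
    have h : ee R (fun ρ => sg m (f i ρ)) ρ = sg m (f i ρ) := if_pos hρ
    show ρ ^ (sg m (ee R (fun ρ => sg m (f i ρ)) ρ)).val = _
    rw [h]
    congr 2
    unfold sg
    split_ifs
    · exact neg_neg _
    · rfl
  · have h : ∀ ρ ∈ PD n, ρ ^ (sg m (ee R (fun ρ => sg m (f i ρ)) ρ)).val =
        ρ ^ (if m then 2 else 1) := by
      intro ρ hρ
      have h1 : ρ ∉ R := fun h => (disjoint_left.1 (disj hF hn hc)) h hρ
      have h2 : ee R (fun ρ => sg m (f i ρ)) ρ = 1 := if_neg h1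
      rw [h2]
      cases m
      · rfl
      · rfl
    rw [prod_congr rfl h, prod_pow, hn.prod]
    cases m
    · simp
    · simp

/-- the element of the family, with its exponents -/
lemma tw_eq (m : Bool) (i : I) : tw m (A i) (un p * n) =
    un (xor (q i).1 (if m then false else p.1), (q i).2 + sg m p.2) *
      pe (R ∪ PD n) (fun ρ => sg m (ee R (fun ρ => sg m (f i ρ)) ρ)) := by
  rw [pe_union hF hn hc, hF.eq i]
  unfold tw sg
  cases m
  · simp only [Bool.false_eq_true, if_false]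
    have h := un_mul (q i) p
    rw [← h]
    ring
  · simp only [if_true]
    have h := un_mul (q i) (false, -p.2)
    have h2 : un p ^ 2 = un (false, -p.2) := by
      clear hF hn hc h
      revert p
      decide
    rw [← h, ← h2]
    ring

/-- the coranks in the family -/
theorem cor_fm (m : Bool) (i : I) (r : ℕ) : CorG (tw m (A i) (un p * n)) r ↔
    nJ (sg m (q i).2 + p.2) (ee R (fun ρ => sg m (f i ρ))) (R ∪ PD n) =
      3 ^ r * KK R (fun ρ => sg m (f i ρ)) (sg m (q i).2 + p.2) := by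
  rw [tw_eq hF hn hc, cor_nJ (pq_union hF hn hc)]
  have h1 : nJ ((q i).2 + sg m p.2) (fun ρ => sg m (ee R (fun ρ => sg m (f i ρ)) ρ)) (R ∪ PD n) =
      nJ (sg m (q i).2 + p.2) (ee R (fun ρ => sg m (f i ρ))) (R ∪ PD n) := by
    cases m
    · rfl
    · rw [← nJ_neg]
      congr 1
      · show -((q i).2 + -p.2) = -(q i).2 + p.2
        ring
      · funext ρ
        show - - _ = _
        rw [neg_neg]
  have h2 : kz ((q i).2 + sg m p.2) = if sg m (q i).2 + p.2 = 0 then 1 else 0 := by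
    unfold kz
    have h3 : (q i).2 + sg m p.2 = 0 ↔ sg m (q i).2 + p.2 = 0 := by
      clear h1
      cases m
      · exact Iff.rfl
      · show (q i).2 + -p.2 = 0 ↔ -(q i).2 + p.2 = 0
        constructor
        · intro h
          linear_combination -h
        · intro h
          linear_combination -h
    simp only [h3]
  have h3 : ((R ∪ PD n).filter fun ρ => sg m (ee R (fun ρ => sg m (f i ρ)) ρ) = 0) =
      R.filter fun ρ => sg m (f i ρ) = 0 := by
    ext ρ
    rw [mem_filter, mem_filter, mem_union]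
    constructor
    · rintro ⟨h4, h5⟩
      rw [sg_zero] at h5
      by_cases h6 : ρ ∈ R
      · have h7 : ee R (fun ρ => sg m (f i ρ)) ρ = sg m (f i ρ) := if_pos h6
        exact ⟨h6, by rw [← h7]; exact h5⟩
      · have h7 : ee R (fun ρ => sg m (f i ρ)) ρ = 1 := if_neg h6
        rw [h7] at h5
        exact absurd h5 one_ne_zero
    · rintro ⟨h4, h5⟩
      have h7 : ee R (fun ρ => sg m (f i ρ)) ρ = sg m (f i ρ) := if_pos h4
      refine ⟨Or.inl h4, ?_⟩
      rw [h7, h5, sg_zero]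
  show nJ ((q i).2 + sg m p.2) _ _ = _ ↔ _
  rw [h1]
  have h4 : 3 ^ r * (3 * 3 ^ (kz ((q i).2 + sg m p.2) +
      ((R ∪ PD n).filter fun ρ => sg m (ee R (fun ρ => sg m (f i ρ)) ρ) = 0).card)) =
      3 ^ r * KK R (fun ρ => sg m (f i ρ)) (sg m (q i).2 + p.2) := by
    rw [h2, h3]
    unfold KK
    rfl
  exact ⟨fun h => h.trans h4, fun h => h.trans h4.symm⟩

/-- the class left out -/
theorem bad_fm (m : Bool) (i : I) : bad (tw m (A i) (un p * n)) ↔
    sg m (q i).2 + p.2 = 0 ∧ sg m (nq (pe R (f i))) + nq n = 0 := by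
  have hT := pq_union hF hn hc
  rw [tw_eq hF hn hc, bad_el (prm_pe hT _), pe_union hF hn hc]
  have ha : prm (pe R (f i)) := prm_pe hF.pq _
  cases m
  · simp only [Bool.false_eq_true, if_false]
    rw [nq_mul' ha hn.prm]
    exact Iff.rfl
  · simp only [if_true]
    rw [sq, nq_mul' ha (prm_mul hn.prm hn.prm), nq_mul' hn.prm hn.prm]
    show (q i).2 + -p.2 = 0 ∧ _ ↔ -(q i).2 + p.2 = 0 ∧ -nq (pe R (f i)) + nq n = 0
    generalize nq (pe R (f i)) = x
    generalize nq n = y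
    generalize (q i).2 = a
    generalize p.2 = b
    clear hF hn hc hT ha
    revert x y a b
    decide

end

section
variable {I : Type} [Fintype I] {A : I → Ei} {q : I → Bool × ZMod 3} {R : Finset Ei}
  {f : I → Ei → ZMod 3} (m : I → Bool)

/-- the allowed cells -/
noncomputable def GG (q : I → Bool × ZMod 3) (R : Finset Ei) (f : I → Ei → ZMod 3)
    (m : I → Bool) : Finset (ZMod 3 × ZMod 3) :=
  univ.filter fun g => ∀ i, ¬ (sg (m i) (q i).2 + g.1 = 0 ∧ sg (m i) (nq (pe R (f i))) + g.2 = 0)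

/-- the class of a family -/
def CF (A : I → Ei) (m : I → Bool) (D : Ei) : Prop := ¬ IsUnit D ∧ ∀ i, ¬ bad (tw (m i) (A i) D)

lemma unit_iff {p : Bool × ZMod 3} {n : Ei} (hn : PS n) : IsUnit (un p * n) ↔ n = 1 :=
  Pool.Agent.H462.CTU.Law.Cou.unit_el hn

/-- the number of the allowed cells -/
lemma card_GG : (GG q R f m).card +
    (univ.image fun i => (sg (m i) (q i).2, sg (m i) (nq (pe R (f i))))).card = 9 := by
  have h1 : (univ.image fun i => (sg (m i) (q i).2, sg (m i) (nq (pe R (f i))))).card =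
      (univ.filter fun g : ZMod 3 × ZMod 3 =>
        ¬ ∀ i, ¬ (sg (m i) (q i).2 + g.1 = 0 ∧ sg (m i) (nq (pe R (f i))) + g.2 = 0)).card := by
    rw [← card_image_of_injective _ (neg_injective (G := ZMod 3 × ZMod 3))]
    congr 1
    ext g
    rw [mem_image, mem_filter]
    constructor
    · rintro ⟨x, hx, rfl⟩
      obtain ⟨i, -, rfl⟩ := mem_image.1 hx
      refine ⟨mem_univ _, fun h => h i ⟨?_, ?_⟩⟩
      · exact add_neg_cancel _
      · exact add_neg_cancel _
    · rintro ⟨-, h⟩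
      push Not at h
      obtain ⟨i, h2, h3⟩ := h
      refine ⟨_, mem_image_of_mem _ (mem_univ i), ?_⟩
      refine Prod.ext ?_ ?_
      · exact (eq_neg_of_add_eq_zero_right h2).symm
      · exact (eq_neg_of_add_eq_zero_right h3).symm
  have h2 := card_filter_add_card_filter_not (s := (univ : Finset (ZMod 3 × ZMod 3)))
    (fun g => ∀ i, ¬ (sg (m i) (q i).2 + g.1 = 0 ∧ sg (m i) (nq (pe R (f i))) + g.2 = 0))
  rw [h1]
  unfold GG
  rw [h2]
  rfl

variable (hF : Fm A q R f)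
include hF

/-- the joint law, in the elements -/
theorem joint (hne : ∀ i j, i ≠ j → sg (m i) (q i).2 ≠ sg (m j) (q j).2 ∨
      ∃ u ∈ R, sg (m i) (f i u) ≠ sg (m j) (f j u)) (r : I → ℕ) (p : Bool × ZMod 3) (s : ZMod 3) :
    Tendsto (fun X : ℕ => (ct (SR R X) (fun n => nq n = s ∧
      ∀ i, CorG (tw (m i) (A i) (un p * n)) (r i)) : ℝ) / ((SR R X).card : ℝ)) atTop
      (nhds ((∏ i, cr (r i)) * (1 / 3))) := by
  have h := law_cell (f := fun i ρ => sg (m i) (f i ρ)) (k := fun i => sg (m i) (q i).2 + p.2)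
    hF.pq (fun i j hij => ?_) s r
  · refine h.congr fun X => ?_
    congr 2
    refine ct_congr fun n hn => ?_
    obtain ⟨⟨h1, h2⟩, h3⟩ := mem_SR.1 hn
    refine and_congr_right fun _ => ?_
    unfold Gj
    exact forall_congr' fun i => (cor_fm hF h2 h3 (m i) i (r i)).symm
  · rcases hne i j hij with h | ⟨u, hu, h⟩
    · left
      exact fun h1 => h (add_right_cancel h1)
    · exact Or.inr ⟨u, hu, h⟩

/-- the elements of the class -/
theorem mem_CF {p : Bool × ZMod 3} {n : Ei} (hn : PS n) (hc : cop R n) :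
    CF A m (un p * n) ↔ n ≠ 1 ∧ (p.2, nq n) ∈ GG q R f m := by
  unfold CF GG
  rw [unit_iff hn, mem_filter]
  refine and_congr_right fun _ => ?_
  constructor
  · intro h
    exact ⟨mem_univ _, fun i h1 => h i ((bad_fm hF hn hc (m i) i).2 h1)⟩
  · intro h i h1
    exact h.2 i ((bad_fm hF hn hc (m i) i).1 h1)

/-- the class by the cells -/
def CG (q : I → Bool × ZMod 3) (R : Finset Ei) (f : I → Ei → ZMod 3) (m : I → Bool) (D : Ei) :
    Prop :=
  ∃ (p : Bool × ZMod 3) (n : Ei), PS n ∧ D = un p * n ∧ n ≠ 1 ∧ (p.2, nq n) ∈ GG q R f m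

omit hF in
lemma inG_CG : InG (GG q R f m) (CG q R f m) := by
  intro p n hn
  constructor
  · rintro ⟨p', n', h1, h2, h3, h4⟩
    obtain ⟨rfl, rfl⟩ := el_inj hn.prm h1.prm h2
    exact ⟨h3, h4⟩
  · rintro ⟨h1, h2⟩
    exact ⟨p, n, hn, rfl, h1, h2⟩

lemma CF_iff {D : Ei} (hD : AR R D) : CF A m D ↔ CG q R f m D := by
  obtain ⟨h1, h2⟩ := hD
  obtain ⟨p, n, hn, rfl⟩ := Pool.Agent.H462.CTU.Law.Cou.exists_el h1
  rw [mem_CF m hF hn (cop_un p |>.1 h2), inG_CG m p n hn]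

lemma set_CF (P : Ei → Prop) (X : ℕ) : {D : Ei | nr D ≤ X ∧ AR R D ∧ CF A m D ∧ P D} =
    {D : Ei | nr D ≤ X ∧ AR R D ∧ CG q R f m D ∧ P D} := by
  ext D
  constructor
  · rintro ⟨h1, h2, h3, h4⟩
    exact ⟨h1, h2, (CF_iff m hF h2).1 h3, h4⟩
  · rintro ⟨h1, h2, h3, h4⟩
    exact ⟨h1, h2, (CF_iff m hF h2).2 h3, h4⟩

lemma set_CF' (X : ℕ) : {D : Ei | nr D ≤ X ∧ AR R D ∧ CF A m D} =
    {D : Ei | nr D ≤ X ∧ AR R D ∧ CG q R f m D} := by
  ext D
  constructor
  · rintro ⟨h1, h2, h3⟩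
    exact ⟨h1, h2, (CF_iff m hF h2).1 h3⟩
  · rintro ⟨h1, h2, h3⟩
    exact ⟨h1, h2, (CF_iff m hF h2).2 h3⟩

/-- **the share of the class** -/
theorem share_F : Tendsto (fun X : ℕ => ({D : Ei | nr D ≤ X ∧ AR R D ∧ CF A m D}.ncard : ℝ) /
      ({D : Ei | nr D ≤ X ∧ AR R D}.ncard : ℝ)) atTop (nhds (((GG q R f m).card : ℝ) / 9)) := by
  simp only [set_CF' m hF]
  exact share_G hF.pq (inG_CG m)

/-- **the joint law in the class** -/
theorem law_F (hne : ∀ i j, i ≠ j → sg (m i) (q i).2 ≠ sg (m j) (q j).2 ∨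
      ∃ u ∈ R, sg (m i) (f i u) ≠ sg (m j) (f j u)) (hG : (GG q R f m).Nonempty) (r : I → ℕ) :
    Tendsto (fun X : ℕ => ({D : Ei | nr D ≤ X ∧ AR R D ∧ CF A m D ∧
      ∀ i, CorG (tw (m i) (A i) D) (r i)}.ncard : ℝ) /
      ({D : Ei | nr D ≤ X ∧ AR R D ∧ CF A m D}.ncard : ℝ)) atTop (nhds (∏ i, cr (r i))) := by
  simp only [set_CF' m hF, set_CF m hF]
  exact law_G hF.pq (inG_CG m) hG (P := fun D => ∀ i, CorG (tw (m i) (A i) D) (r i))
    fun p s => joint m hF hne r p s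

/-- **the joint law, relative to all** -/
theorem law_A (hne : ∀ i j, i ≠ j → sg (m i) (q i).2 ≠ sg (m j) (q j).2 ∨
      ∃ u ∈ R, sg (m i) (f i u) ≠ sg (m j) (f j u)) (r : I → ℕ) :
    Tendsto (fun X : ℕ => ({D : Ei | nr D ≤ X ∧ AR R D ∧ CF A m D ∧
      ∀ i, CorG (tw (m i) (A i) D) (r i)}.ncard : ℝ) /
      ({D : Ei | nr D ≤ X ∧ AR R D}.ncard : ℝ)) atTop
        (nhds (((GG q R f m).card : ℝ) / 9 * ∏ i, cr (r i))) := by
  simp only [set_CF m hF]
  exact law_all hF.pq (inG_CG m) (P := fun D => ∀ i, CorG (tw (m i) (A i) D) (r i))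
    fun p s => joint m hF hne r p s

end

/-! ### the residue classes -/

/-- the cell of an element -/
def InC (u : Ei) (t : ℤ) (D : Ei) : Prop := ¬ IsUnit D ∧ (3 : Ei) ∣ D - u ∧ (9 : ℤ) ∣ nr D - 1 - 3 * t

lemma nq_iff {n : Ei} (hn : prm n) (t : ℤ) : (9 : ℤ) ∣ nr n - 1 - 3 * t ↔ nq n = (t : ZMod 3) := by
  obtain ⟨a, ha⟩ := prm_nr hn
  unfold nq
  rw [ha, ZMod.intCast_eq_intCast_iff_dvd_sub]
  push_cast
  omega

end Pool.Agent.H462.JL
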