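import Pool.Agent.H462.JL.Stm

/-!
# The count in a box
-/

set_option autoImplicit false

open scoped Classical

namespace Pool.Agent.H462.JL

open Finset
open Pool.Agent.Y692.QS (Ei)
open Pool.Agent.Y715.T.Rec (cs)
open Pool.Agent.Y715.T.RecG (Pq)
open Pool.Agent.Y703.XK (HB prs S_EQ)
open Pool.Agent.Y703.XL (nA)
open Pool.Agent.Y688.XK (lb cs_symm ez0 ez0_coe ext_sum HB_sub)
open Pool.Agent.Y170.XL (em em_bij sum_em)
open Pool.Agent.H462.CTU.Chr (nq)
open Pool.Agent.H462.CTU.Law

/-- the matrix of the small nodes -/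
noncomputable def AJ (k : ZMod 3) (e : Ei → ZMod 3) (T : Finset Ei) :
    Option T → Option T → ZMod 3
  | none, none => 0
  | none, some v => k * (e v * nq (v : Ei))
  | some u, none => k * (e u * nq (u : Ei))
  | some u, some v => e u * (e v * cs (u : Ei) v)

/-- the labels -/
noncomputable def BJ {ι : Type} (k : ZMod 3) (e : Ei → ZMod 3) (T : Finset Ei) (t : ι → ZMod 3)
    (b : T → ι → ZMod 3) : Option T → ι → ZMod 3
  | none, l => k * t l
  | some u, l => e u * b u l

/-- the live nodes -/
def lvJ (k : ZMod 3) (e : Ei → ZMod 3) (T : Finset Ei) : Option T → Prop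
  | none => k ≠ 0
  | some u => e u ≠ 0

section one
variable {ι : Type} [Fintype ι] [LinearOrder ι] {T : Finset Ei} {p : ι → Ei}

/-- **the numbers of solutions agree** -/
theorem nJ_eq (k : ZMod 3) (e : Ei → ZMod 3) {t : ι → ZMod 3} (ht : ∀ i, nq (p i) = t i)
    (hp : Function.Injective p) (hpr : ∀ i, Pq (p i)) (hT : ∀ u ∈ T, Pq u)
    (hd : ∀ i, p i ∉ T) (he : ∀ i, e (p i) = 1) :
    nJ k e (T ∪ univ.image p) = nA (AJ k e T)
      (BJ k e T t fun (u : T) l => cs u (p l))
      (Pool.Agent.Y703.XK.ext fun e : prs ι => cs (p e.1.1) (p e.1.2)) := by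
  unfold nJ nA
  refine Nat.card_congr (Equiv.subtypeEquiv (fe hp hd) fun v => ?_)
  obtain ⟨a, ha⟩ : ∃ a : Option T → ZMod 3, a = fun o => v (emO T p (Sum.inl o)) := ⟨_, rfl⟩
  obtain ⟨b, hb⟩ : ∃ b : ι → ZMod 3, b = fun l => v (emO T p (Sum.inr l)) := ⟨_, rfl⟩
  have hfe : fe hp hd v = (a, b) := by
    rw [ha, hb]
    rfl
  rw [hfe]
  have hnone : v none = a none := by rw [ha]; rfl
  have hU : ∀ u, v (some (em T p (Sum.inl u))) = a (some u) := fun u => by rw [ha]; rfl
  have hJ : ∀ l, v (some (em T p (Sum.inr l))) = b l := fun l => by rw [hb]; rfl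
  have vU : ∀ u, ((em T p (Sum.inl u) : ↥(T ∪ univ.image p)) : Ei) = u := fun u => rfl
  have vJ : ∀ l, ((em T p (Sum.inr l) : ↥(T ∪ univ.image p)) : Ei) = p l := fun u => rfl
  -- the equations in the coordinates
  have eU : ∀ u : T, e (em T p (Sum.inl u)) *
      (k * nq ((em T p (Sum.inl u) : ↥(T ∪ univ.image p)) : Ei) *
      (v none - v (some (em T p (Sum.inl u)))) +
      ∑ ρ : ↥(T ∪ univ.image p), e ρ * cs (em T p (Sum.inl u)) ρ *
        (v (some ρ) - v (some (em T p (Sum.inl u))))) =
      ∑ o, AJ k e T (some u) o * (a o - a (some u)) +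
        ∑ l, BJ k e T t (fun (u : T) l => cs u (p l)) (some u) l * (b l - a (some u)) := by
    intro u
    rw [sum_em hp hd, Fintype.sum_option, hnone, hU u, vU]
    simp only [hU, hJ, vU, vJ, he, one_mul]
    have e1 : ∀ x, AJ k e T (some u) (some x) = e u * (e x * cs (u : Ei) x) := fun x => rfl
    have e2 : AJ k e T (some u) none = k * (e u * nq (u : Ei)) := rfl
    have e3 : ∀ l, BJ k e T t (fun (u : T) l => cs u (p l)) (some u) l = e u * cs u (p l) :=
      fun l => rfl
    simp only [e1, e2, e3]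
    rw [mul_add, mul_add, Finset.mul_sum, Finset.mul_sum, ← add_assoc]
    congr 1
    · congr 1
      · ring
      · exact Finset.sum_congr rfl fun x _ => by ring
    · exact Finset.sum_congr rfl fun x _ => by ring
  have eJ : ∀ m : ι, e (em T p (Sum.inr m)) *
      (k * nq ((em T p (Sum.inr m) : ↥(T ∪ univ.image p)) : Ei) *
      (v none - v (some (em T p (Sum.inr m)))) +
      ∑ ρ : ↥(T ∪ univ.image p), e ρ * cs (em T p (Sum.inr m)) ρ *
        (v (some ρ) - v (some (em T p (Sum.inr m))))) =
      ∑ o, BJ k e T t (fun (u : T) l => cs u (p l)) o m * (a o - b m) +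
        ∑ l, Pool.Agent.Y703.XK.ext (fun e : prs ι => cs (p e.1.1) (p e.1.2)) m l *
          (b l - b m) := by
    intro m
    rw [sum_em hp hd, Fintype.sum_option, hnone, hJ m, ext_sum hpr m, vJ, he, one_mul, ht m]
    simp only [hU, hJ, vU, vJ, he, one_mul]
    have e2 : BJ k e T t (fun (u : T) l => cs u (p l)) none m = k * t m := rfl
    have e3 : ∀ u, BJ k e T t (fun (u : T) l => cs u (p l)) (some u) m = e u * cs u (p m) :=
      fun l => rfl
    simp only [e2, e3]
    rw [← add_assoc]
    congr 1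
    congr 1
    refine Finset.sum_congr rfl fun u _ => ?_
    rw [cs_symm (hpr m) (hT u u.2)]
  constructor
  · intro h
    have hU' : ∀ u : T, ∑ o, AJ k e T (some u) o * (a o - a (some u)) +
        ∑ l, BJ k e T t (fun (u : T) l => cs u (p l)) (some u) l * (b l - a (some u)) = 0 :=
      fun u => by rw [← eU]; exact h _
    have hJ' : ∀ m : ι, ∑ o, BJ k e T t (fun (u : T) l => cs u (p l)) o m * (a o - b m) +
        ∑ l, Pool.Agent.Y703.XK.ext (fun e : prs ι => cs (p e.1.1) (p e.1.2)) m l *
          (b l - b m) = 0 := fun m => by rw [← eJ]; exact h _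
    refine ⟨fun o => ?_, hJ'⟩
    cases o with
    | some u => exact hU' u
    | none =>
      -- the sum of the other equations
      have hS : ∀ x : ↥(T ∪ univ.image p), Pq (x : Ei) := by
        intro x
        obtain ⟨y, rfl⟩ := (em_bij hp hd).2 x
        rcases y with u | l
        · exact hT u u.2
        · exact hpr l
      have h1 : ∑ x : ↥(T ∪ univ.image p), (e x * (k * nq (x : Ei) * (v none - v (some x)) +
          ∑ ρ : ↥(T ∪ univ.image p), e ρ * cs x ρ * (v (some ρ) - v (some x)))) = 0 :=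
        Finset.sum_eq_zero fun x _ => h x
      have h2 : ∑ x : ↥(T ∪ univ.image p), ∑ ρ : ↥(T ∪ univ.image p),
          e (x : Ei) * (e (ρ : Ei) * cs (x : Ei) ρ * (v (some ρ) - v (some x))) = 0 := by
        have h3 : ∑ x : ↥(T ∪ univ.image p), ∑ ρ : ↥(T ∪ univ.image p),
            e (x : Ei) * (e (ρ : Ei) * cs (x : Ei) ρ * (v (some ρ) - v (some x))) =
            -∑ x : ↥(T ∪ univ.image p), ∑ ρ : ↥(T ∪ univ.image p),
            e (x : Ei) * (e (ρ : Ei) * cs (x : Ei) ρ * (v (some ρ) - v (some x))) := by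
          conv_lhs => rw [Finset.sum_comm]
          rw [← Finset.sum_neg_distrib]
          refine Finset.sum_congr rfl fun x _ => ?_
          rw [← Finset.sum_neg_distrib]
          refine Finset.sum_congr rfl fun y _ => ?_
          rw [cs_symm (hS y) (hS x)]
          ring
        have h4 : ∀ z : ZMod 3, z = -z → z = 0 := by decide
        exact h4 _ h3
      simp only [mul_add, Finset.mul_sum] at h1
      rw [Finset.sum_add_distrib, h2, add_zero, sum_em hp hd] at h1
      have h5 : ∑ u : T, e (em T p (Sum.inl u)) *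
          (k * nq ((em T p (Sum.inl u) : ↥(T ∪ univ.image p)) : Ei) *
          (v none - v (some (em T p (Sum.inl u))))) =
          -∑ u : T, k * (e u * nq (u : Ei)) * (a (some u) - a none) := by
        rw [← Finset.sum_neg_distrib]
        refine Finset.sum_congr rfl fun u _ => ?_
        rw [hnone, hU u]
        show e u * (k * nq (u : Ei) * _) = _
        ring
      have h6 : ∑ l : ι, e (em T p (Sum.inr l)) *
          (k * nq ((em T p (Sum.inr l) : ↥(T ∪ univ.image p)) : Ei) *
          (v none - v (some (em T p (Sum.inr l))))) =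
          -∑ l : ι, k * t l * (b l - a none) := by
        rw [← Finset.sum_neg_distrib]
        refine Finset.sum_congr rfl fun l _ => ?_
        rw [hnone, hJ l, vJ, he, one_mul]
        show k * nq (p l) * _ = _
        rw [ht l]
        ring
      rw [h5, h6, ← neg_add, neg_eq_zero] at h1
      rw [Fintype.sum_option]
      show (0 : ZMod 3) * _ + _ + _ = 0
      rw [zero_mul, zero_add]
      exact h1
  · rintro ⟨h1, h2⟩ x
    obtain ⟨y, rfl⟩ := (em_bij hp hd).2 x
    rcases y with u | l
    · rw [eU]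
      exact h1 (some u)
    · rw [eJ]
      exact h2 l

end one

/-- the order of the space of the trivial solutions -/
lemma card_Kc {U J : Type} [Fintype U] [Nonempty J] (lv : U → Prop) :
    Nat.card (Kc J lv) = 3 * 3 ^ (univ.filter fun u => ¬ lv u).card := by
  have h1 : Nat.card (Kc J lv) = Nat.card (ZMod 3 × ({u // ¬ lv u} → ZMod 3)) := by
    obtain ⟨l₀⟩ := (inferInstance : Nonempty J)
    refine Nat.card_congr
      { toFun := fun x => (x.1.2 l₀, fun u => x.1.1 u)
        invFun := fun y => ⟨(fun u => if h : lv u then y.1 else y.2 ⟨u, h⟩, fun _ => y.1), y.1,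
          fun _ => rfl, fun u hu => dif_pos hu⟩
        left_inv := fun x => ?_
        right_inv := fun y => ?_ }
    · obtain ⟨⟨x1, x2⟩, t, h1, h2⟩ := x
      have h1' : ∀ l, x2 l = t := h1
      have h2' : ∀ u, lv u → x1 u = t := h2
      apply Subtype.ext
      refine Prod.ext ?_ ?_
      · funext u
        by_cases hu : lv u
        · show (if h : lv u then x2 l₀ else x1 u) = x1 u
          rw [dif_pos hu, h1', h2' u hu]
        · show (if h : lv u then x2 l₀ else x1 u) = x1 u
          rw [dif_neg hu]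
      · funext l
        show x2 l₀ = x2 l
        rw [h1', h1']
    · refine Prod.ext rfl ?_
      funext u
      show (if h : lv u then y.1 else y.2 ⟨u, h⟩) = y.2 u
      rw [dif_neg u.2]
  rw [h1, Nat.card_prod, Nat.card_zmod, Nat.card_eq_fintype_card, Fintype.card_fun, ZMod.card,
    Fintype.card_subtype]

section box
variable {I : Type} {R : Finset Ei} {f : I → Ei → ZMod 3} {k : I → ZMod 3}

lemma KK_eq {ι : Type} [Nonempty ι] (i : I) {S₀ : Finset Ei} (hS : Disjoint R S₀) :
    Nat.card (Kc ι (lvJ (k i) (ee R (f i)) (R ∪ S₀))) = KK R (f i) (k i) := by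
  rw [card_Kc]
  unfold KK
  congr 2
  rw [Finset.card_filter, Fintype.sum_option]
  have e1 : (if ¬ lvJ (k i) (ee R (f i)) (R ∪ S₀) none then 1 else 0) =
      (if k i = 0 then 1 else 0) := by
    by_cases h : k i = 0
    · have : ¬ lvJ (k i) (ee R (f i)) (R ∪ S₀) none := fun h' => h' h
      rw [if_pos this, if_pos h]
    · have : ¬ ¬ lvJ (k i) (ee R (f i)) (R ∪ S₀) none := fun h' => h' h
      rw [if_neg this, if_neg h]
  rw [e1]
  congr 1
  have e2 : ∀ u : ↥(R ∪ S₀), (if ¬ lvJ (k i) (ee R (f i)) (R ∪ S₀) (some u) then 1 else 0) =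
      (fun x : Ei => if ee R (f i) x = 0 then 1 else 0) u := by
    intro u
    by_cases h : ee R (f i) u = 0
    · have : ¬ lvJ (k i) (ee R (f i)) (R ∪ S₀) (some u) := fun h' => h' h
      rw [if_pos this]
      exact (if_pos h).symm
    · have : ¬ ¬ lvJ (k i) (ee R (f i)) (R ∪ S₀) (some u) := fun h' => h' h
      rw [if_neg this]
      exact (if_neg h).symm
  rw [Finset.sum_congr rfl fun u _ => e2 u,
    Finset.sum_coe_sort (R ∪ S₀) (fun x : Ei => if ee R (f i) x = 0 then 1 else 0),
    Finset.sum_union hS, Finset.card_filter]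
  have e3 : ∑ x ∈ S₀, (if ee R (f i) x = 0 then 1 else 0) = 0 := by
    refine Finset.sum_eq_zero fun x hx => ?_
    have hx' : x ∉ R := fun h => Finset.disjoint_left.1 hS h hx
    unfold ee
    rw [if_neg hx']
    exact if_neg one_ne_zero
  rw [e3, add_zero]
  refine Finset.sum_congr rfl fun x hx => ?_
  unfold ee
  rw [if_pos hx]

/-- the condition for the labels -/
def LJ {ι : Type} [Fintype ι] (R : Finset Ei) (f : I → Ei → ZMod 3) (k : I → ZMod 3) (V : ℕ)
    (S₀ : Finset Ei) (t : ι → ZMod 3)
    (β : ι → ↥(R ∪ S₀) → ZMod 3) : Prop :=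
  LN (R ∪ S₀) t β ∧ ∀ i j, i ≠ j → 2 * S₀.card + V ≤
    (univ.filter fun l => (k i - k j) * t l +
      ∑ u : ↥(R ∪ S₀), (ee R (f i) u - ee R (f j) u) * β l u ≠ 0).card

lemma sum_ee {S₀ : Finset Ei} (i j : I) (g : Ei → ZMod 3) :
    ∑ u : ↥(R ∪ S₀), (ee R (f i) u - ee R (f j) u) * g u = ∑ u ∈ R, (f i u - f j u) * g u := by
  rw [Finset.sum_coe_sort (R ∪ S₀) (fun x : Ei => (ee R (f i) x - ee R (f j) x) * g x)]
  rw [← Finset.sum_subset (Finset.subset_union_left : R ⊆ R ∪ S₀)]
  · refine Finset.sum_congr rfl fun x hx => ?_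
    unfold ee
    rw [if_pos hx, if_pos hx]
  · intro x _ hx
    unfold ee
    rw [if_neg hx, if_neg hx, sub_self, zero_mul]

/-- **The count in a box.** -/
theorem t_BXJ [Fintype I] (hEQ : S_EQ) {c : ℕ → ℝ} (hc : Lim c) (hR : ∀ u ∈ R, Pq u)
    (r : I → ℕ) (ε : ℝ) (hε : 0 < ε) :
    ∃ V₀ : ℕ, ∀ V, V₀ ≤ V → ∀ s : ZMod 3,
      BXJ R (Wj R f k V s) (Gj R f k r) (∏ i, c (r i)) ε V := by
  obtain ⟨τ, hτ⟩ := t_MAT hc r ε hε
  refine ⟨τ + 2 * R.card + 2, fun V hV s => ?_⟩
  intro ι _ _ C X κ S₀ t hκ hCX hHB hS₀ hC hdis ht hcard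
  obtain ⟨K, hK⟩ : ∃ K : ℝ, K = 3 ^ (prs ι).card * (κ * ∏ j, (X j : ℝ)) := ⟨_, rfl⟩
  have hK0 : 0 ≤ K := by
    rw [hK]
    exact mul_nonneg (by positivity)
      (mul_nonneg hκ (Finset.prod_nonneg fun j _ => by positivity))
  have hX0 : 0 ≤ κ * ∏ j, (X j : ℝ) :=
    mul_nonneg hκ (Finset.prod_nonneg fun j _ => by positivity)
  have hι : Nonempty ι := Fintype.card_pos_iff.1 (by omega)
  obtain ⟨T, hT⟩ : ∃ T, T = R ∪ S₀ := ⟨_, rfl⟩
  have hTc : T.card ≤ R.card + S₀.card := by rw [hT]; exact Finset.card_union_le _ _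
  have hTp : ∀ u ∈ T, Pq u := by
    intro u hu
    rw [hT, Finset.mem_union] at hu
    rcases hu with h | h
    · exact hR u h
    · exact hS₀ u h
  -- facts on tuples
  have hinj : ∀ p ∈ Fintype.piFinset C, Function.Injective p := by
    intro p hp i j hij
    rw [Fintype.mem_piFinset] at hp
    by_contra hne
    have h1 := Finset.disjoint_left.1 (hdis i j hne) (hp i)
    rw [hij] at h1
    exact h1 (hp j)
  have hdR : ∀ p ∈ Fintype.piFinset C, ∀ i, p i ∉ R := by
    intro p hp i
    rw [Fintype.mem_piFinset] at hp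
    exact (hC i _ (hp i)).2.2
  have hdS : ∀ p ∈ Fintype.piFinset C, ∀ i, p i ∉ S₀ := by
    intro p hp i
    rw [Fintype.mem_piFinset] at hp
    exact (hC i _ (hp i)).2.1
  have hd : ∀ p ∈ Fintype.piFinset C, ∀ i, p i ∉ T := by
    intro p hp i h
    rw [hT, Finset.mem_union] at h
    exact h.elim (hdR p hp i) (hdS p hp i)
  have hpr : ∀ p ∈ Fintype.piFinset C, ∀ i, Pq (p i) := by
    intro p hp i
    rw [Fintype.mem_piFinset] at hp
    exact (hC i _ (hp i)).1
  have htp : ∀ p ∈ Fintype.piFinset C, ∀ i, nq (p i) = t i := by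
    intro p hp i
    rw [Fintype.mem_piFinset] at hp
    exact ht i _ (hp i)
  have hone : ∀ (g : Ei → ZMod 3), ∀ p ∈ Fintype.piFinset C, ∀ i, ee R g (p i) = 1 := by
    intro g p hp i
    unfold ee
    exact if_neg (hdR p hp i)
  -- the condition does not depend on the tuple, apart from the labels
  have hW : ∀ p ∈ Fintype.piFinset C, (Wj R f k V s S₀ (univ.image p) ↔
      (Disjoint R S₀ ∧ ∑ π ∈ S₀, nq π + ∑ l, t l = s) ∧
        LJ R f k V S₀ t (fun i => lb (R ∪ S₀) (p i))) := by
    intro p hp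
    unfold Wj LJ
    rw [nd_iff (htp p hp)]
    have e1 : ∑ π ∈ univ.image p, nq π = ∑ l, t l := by
      rw [Finset.sum_image fun a _ b _ h => hinj p hp h]
      exact Finset.sum_congr rfl fun l _ => htp p hp l
    have e2 : ∀ i j, ((univ.image p).filter fun π => dl R f k i j π ≠ 0).card =
        (univ.filter fun l => (k i - k j) * t l +
          ∑ u : ↥(R ∪ S₀), (ee R (f i) u - ee R (f j) u) * lb (R ∪ S₀) (p l) u ≠ 0).card := by
      intro i j
      rw [Finset.filter_image, Finset.card_image_of_injective _ (hinj p hp)]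
      congr 1
      ext l
      rw [Finset.mem_filter, Finset.mem_filter]
      have e3 : ∑ u : ↥(R ∪ S₀), (ee R (f i) u - ee R (f j) u) * lb (R ∪ S₀) (p l) u =
          ∑ u ∈ R, (f i u - f j u) * cs u (p l) := sum_ee i j (fun x => cs x (p l))
      unfold dl
      rw [e3, htp p hp l]
    rw [e1]
    simp only [e2]
    tauto
  by_cases hQ : Disjoint R S₀ ∧ ∑ π ∈ S₀, nq π + ∑ l, t l = s
  swap
  · have z1 : ((Fintype.piFinset C).filter fun p => Wj R f k V s S₀ (univ.image p) ∧
        Gj R f k r (S₀ ∪ univ.image p)) = ∅ := by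
      rw [Finset.filter_eq_empty_iff]
      intro p hp h
      exact hQ ((hW p hp).1 h.1).1
    have z2 : ((Fintype.piFinset C).filter fun p => Wj R f k V s S₀ (univ.image p)) = ∅ := by
      rw [Finset.filter_eq_empty_iff]
      intro p hp h
      exact hQ ((hW p hp).1 h).1
    rw [z1, z2, Finset.card_empty, Nat.cast_zero, mul_zero, sub_zero, abs_zero]
    positivity
  -- the part with given labels
  have h1 : ∀ β : ι → ↥(R ∪ S₀) → ZMod 3, LJ R f k V S₀ t β →
      |(((Fintype.piFinset C).filter fun p => (fun i => lb (R ∪ S₀) (p i)) = β ∧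
          Gj R f k r (S₀ ∪ univ.image p)).card : ℝ) -
        (∏ i, c (r i)) *
          (((Fintype.piFinset C).filter fun p => (fun i => lb (R ∪ S₀) (p i)) = β).card : ℝ)| ≤
      ε * (((Fintype.piFinset C).filter fun p => (fun i => lb (R ∪ S₀) (p i)) = β).card : ℝ) +
        K := by
    intro β hβ
    obtain ⟨C', hC'⟩ : ∃ C' : ι → Finset Ei, C' = fun i => (C i).filter fun q =>
        lb (R ∪ S₀) q = β i := ⟨_, rfl⟩
    have hpi : (Fintype.piFinset C).filter (fun p => (fun i => lb (R ∪ S₀) (p i)) = β) =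
        Fintype.piFinset C' := by
      ext p
      simp only [Finset.mem_filter, Fintype.mem_piFinset, hC']
      constructor
      · rintro ⟨h2, h3⟩ i
        exact ⟨h2 i, congrFun h3 i⟩
      · intro h2
        exact ⟨fun i => (h2 i).1, funext fun i => (h2 i).2⟩
    have hUc : Fintype.card (Option ↥(R ∪ S₀)) = (R ∪ S₀).card + 1 := by
      rw [Fintype.card_option, Fintype.card_coe]
    rw [hT] at hTc
    have h2 := hτ (Option ↥(R ∪ S₀)) ι (fun i => AJ (k i) (ee R (f i)) (R ∪ S₀))
      (fun i => BJ (k i) (ee R (f i)) (R ∪ S₀) t fun u l => β l u)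
      (fun i => lvJ (k i) (ee R (f i)) (R ∪ S₀))
      (fun i u v => by
        cases u with
        | none => cases v <;> rfl
        | some u =>
          cases v with
          | none => rfl
          | some v =>
            show ee R (f i) u * (ee R (f i) v * cs (u : Ei) v) =
              ee R (f i) v * (ee R (f i) u * cs (v : Ei) u)
            rw [hT] at hTp
            rw [cs_symm (hTp u u.2) (hTp v v.2)]
            ring)
      (fun i u v hu => by
        cases u with
        | none =>
          have h0 : k i = 0 := not_not.1 hu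
          cases v with
          | none => rfl
          | some v =>
            show k i * _ = 0
            rw [h0, zero_mul]
        | some u =>
          have h0 : ee R (f i) u = 0 := not_not.1 hu
          cases v with
          | none =>
            show k i * (ee R (f i) u * _) = 0
            rw [h0, zero_mul, mul_zero]
          | some v =>
            show ee R (f i) u * _ = 0
            rw [h0, zero_mul])
      (fun i u l hu => by
        cases u with
        | none =>
          have h0 : k i = 0 := not_not.1 hu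
          show k i * _ = 0
          rw [h0, zero_mul]
        | some u =>
          have h0 : ee R (f i) u = 0 := not_not.1 hu
          show ee R (f i) u * _ = 0
          rw [h0, zero_mul])
      (fun i w hw => by
        obtain ⟨l, hl⟩ := hβ.1 (w none * k i) (fun u => w (some u) * ee R (f i) u) (by
          obtain ⟨o, ho1, ho2⟩ := hw
          cases o with
          | none => exact Or.inl (mul_ne_zero ho2 ho1)
          | some u => exact Or.inr ⟨u, mul_ne_zero ho2 ho1⟩)
        refine ⟨l, ?_⟩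
        rw [Fintype.sum_option]
        show w none * (k i * t l) + ∑ u : ↥(R ∪ S₀), w (some u) * (ee R (f i) u * β l u) ≠ 0
        rw [← mul_assoc]
        simpa only [mul_assoc] using hl)
      (fun i j hij => by
        have h3 := hβ.2 i j hij
        have e1 : (univ.filter fun l => ∑ u, BJ (k i) (ee R (f i)) (R ∪ S₀) t
            (fun u l => β l u) u l ≠ ∑ u, BJ (k j) (ee R (f j)) (R ∪ S₀) t
            (fun u l => β l u) u l) = (univ.filter fun l => (k i - k j) * t l +
              ∑ u : ↥(R ∪ S₀), (ee R (f i) u - ee R (f j) u) * β l u ≠ 0) := by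
          ext l
          rw [Finset.mem_filter, Finset.mem_filter]
          refine and_congr_right fun _ => not_congr ?_
          rw [Fintype.sum_option, Fintype.sum_option]
          have e2 : ∀ i, BJ (k i) (ee R (f i)) (R ∪ S₀) t (fun u l => β l u) none l =
            k i * t l := fun i => rfl
          have e3 : ∀ i (u : ↥(R ∪ S₀)), BJ (k i) (ee R (f i)) (R ∪ S₀) t (fun u l => β l u)
            (some u) l = ee R (f i) u * β l u := fun i u => rfl
          simp only [e2, e3, sub_mul, Finset.sum_sub_distrib]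
          rw [← sub_eq_zero]
          have e4 : ∀ a b c d : ZMod 3, a + b - (c + d) = a - c + (b - d) := fun a b c d => by ring
          rw [e4]
        rw [e1, hUc]
        omega)
      (by
        rw [hUc]
        omega)
    obtain ⟨Q, hQd⟩ : ∃ Q : (prs ι → ZMod 3) → Prop, Q = fun α => ∀ i,
        nA (AJ (k i) (ee R (f i)) (R ∪ S₀)) (BJ (k i) (ee R (f i)) (R ∪ S₀) t fun u l => β l u)
          (Pool.Agent.Y703.XK.ext α) = 3 ^ r i *
            Nat.card (Kc ι (lvJ (k i) (ee R (f i)) (R ∪ S₀))) := ⟨_, rfl⟩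
    have h3 := hEQ ι C' X κ hκ
      (fun i => (Finset.card_le_card (by rw [hC']; exact Finset.filter_subset _ _)).trans (hCX i))
      (by rw [hC']; exact HB_sub hHB fun i q => lb (R ∪ S₀) q = β i) Q
    have h4 : ((Fintype.piFinset C).filter fun p => (fun i => lb (R ∪ S₀) (p i)) = β ∧
        Gj R f k r (S₀ ∪ univ.image p)) = ((Fintype.piFinset C').filter fun p =>
          Q fun e => cs (p e.1.1) (p e.1.2)) := by
      rw [← hpi, Finset.filter_filter]
      refine Finset.filter_congr fun p hp => ?_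
      refine and_congr_right fun hl => ?_
      unfold Gj
      rw [hQd]
      refine forall_congr' fun i => ?_
      have hTp' : ∀ u ∈ R ∪ S₀, Pq u := by rw [← hT]; exact hTp
      have hd' : ∀ i, p i ∉ R ∪ S₀ := fun i => by rw [← hT]; exact hd p hp i
      rw [KK_eq i hQ.1, ← Finset.union_assoc,
        nJ_eq (k i) (ee R (f i)) (htp p hp) (hinj p hp) (hpr p hp) hTp' hd'
          (hone (f i) p hp)]
      subst hl
      exact Iff.rfl
    have h5 : (((Fintype.piFinset C').card : ℕ) : ℝ) = ∏ j, ((C' j).card : ℝ) := by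
      rw [Fintype.card_piFinset]
      push_cast
      rfl
    rw [h4, hpi, h5]
    rw [← hK] at h3
    obtain ⟨n, hn⟩ : ∃ n : ℝ, n = (((Fintype.piFinset C').filter fun p =>
          Q fun e => cs (p e.1.1) (p e.1.2)).card : ℝ) := ⟨_, rfl⟩
    obtain ⟨q, hq⟩ : ∃ q : ℝ, q = ((univ.filter Q).card : ℝ) / 3 ^ (prs ι).card := ⟨_, rfl⟩
    obtain ⟨P, hP⟩ : ∃ P : ℝ, P = ∏ j, ((C' j).card : ℝ) := ⟨_, rfl⟩
    obtain ⟨L, hL⟩ : ∃ L : ℝ, L = ∏ i, c (r i) := ⟨_, rfl⟩
    have hP0 : 0 ≤ P := by
      rw [hP]
      exact Finset.prod_nonneg fun j _ => by positivity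
    have h2' : |q - L| ≤ ε := by
      have e : (univ.filter Q) = (univ.filter fun α : prs ι → ZMod 3 => ∀ i,
        nA (AJ (k i) (ee R (f i)) (R ∪ S₀)) (BJ (k i) (ee R (f i)) (R ∪ S₀) t fun u l => β l u)
          (Pool.Agent.Y703.XK.ext α) = 3 ^ r i *
            Nat.card (Kc ι (lvJ (k i) (ee R (f i)) (R ∪ S₀)))) := by
        ext α
        rw [Finset.mem_filter, Finset.mem_filter, hQd]
      rw [hq, e, hL]
      exact h2
    rw [← hn, ← hq, ← hP] at h3
    rw [← hn, ← hP, ← hL]
    have h6 : |n - L * P| ≤ |n - q * P| + |q - L| * P := by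
      have h7 : n - L * P = (n - q * P) + (q - L) * P := by ring
      have h8 : |(q - L) * P| = |q - L| * P := by rw [abs_mul, abs_of_nonneg hP0]
      rw [h7, ← h8]
      exact abs_add_le _ _
    have h7 : |q - L| * P ≤ ε * P := mul_le_mul_of_nonneg_right h2' hP0
    linarith
  -- sum over the labels
  obtain ⟨LL, hLL⟩ : ∃ LL : Finset (ι → ↥(R ∪ S₀) → ZMod 3),
      LL = univ.filter (fun β => LJ R f k V S₀ t β) := ⟨_, rfl⟩
  have hfib : ∀ T : (ι → Ei) → Prop,
      (((Fintype.piFinset C).filter fun p => Wj R f k V s S₀ (univ.image p) ∧ T p).card : ℝ) =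
      ∑ β ∈ LL, (((Fintype.piFinset C).filter fun p =>
        (fun i => lb (R ∪ S₀) (p i)) = β ∧ T p).card : ℝ) := by
    intro T
    rw [Finset.card_eq_sum_card_fiberwise (f := fun (p : ι → Ei) (i : ι) => lb (R ∪ S₀) (p i))
      (t := LL) (by
        intro p hp
        rw [Finset.mem_coe, Finset.mem_filter] at hp
        rw [Finset.mem_coe, hLL, Finset.mem_filter]
        exact ⟨Finset.mem_univ _, ((hW p hp.1).1 hp.2.1).2⟩)]
    push_cast
    refine Finset.sum_congr rfl fun β hβ => ?_
    rw [hLL, Finset.mem_filter] at hβ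
    congr 2
    ext p
    simp only [Finset.mem_filter]
    constructor
    · rintro ⟨⟨h3, h4, h4'⟩, h5⟩
      exact ⟨h3, h5, h4'⟩
    · rintro ⟨h3, h4, h5⟩
      refine ⟨⟨h3, ?_, h5⟩, h4⟩
      rw [hW p h3, h4]
      exact ⟨hQ, hβ.2⟩
  have hf1 := hfib fun p => Gj R f k r (S₀ ∪ univ.image p)
  have hf2 := hfib fun _ => True
  simp only [and_true] at hf2
  have hle : ∑ β ∈ LL, (((Fintype.piFinset C).filter fun p =>
        (fun i => lb (R ∪ S₀) (p i)) = β).card : ℝ) ≤ ((Fintype.piFinset C).card : ℝ) := by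
    rw [← hf2]
    exact_mod_cast Finset.card_filter_le _ _
  rw [hf1, hf2, Finset.mul_sum, ← Finset.sum_sub_distrib]
  refine (Finset.abs_sum_le_sum_abs _ _).trans ?_
  refine (Finset.sum_le_sum fun β hβ => h1 β (by
    rw [hLL] at hβ
    exact (Finset.mem_filter.1 hβ).2)).trans ?_
  rw [Finset.sum_add_distrib, ← Finset.mul_sum, Finset.sum_const, nsmul_eq_mul]
  have h5 : ((LL.card : ℕ) : ℝ) ≤ 3 ^ ((S₀.card + R.card) * Fintype.card ι) := by
    have h6 : LL.card ≤ Fintype.card (ι → ↥(R ∪ S₀) → ZMod 3) :=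
      Finset.card_le_univ _
    rw [Fintype.card_fun, Fintype.card_fun, ZMod.card, Fintype.card_coe, ← pow_mul] at h6
    have h7 : 3 ^ ((R ∪ S₀).card * Fintype.card ι) ≤
        3 ^ ((S₀.card + R.card) * Fintype.card ι) := by
      apply Nat.pow_le_pow_right (by norm_num)
      apply Nat.mul_le_mul_right
      rw [hT] at hTc
      omega
    exact_mod_cast h6.trans h7
  have h6 := mul_le_mul_of_nonneg_right h5 hK0
  have h8 := mul_le_mul_of_nonneg_left hle hε.le
  rw [pow_add, mul_assoc, ← hK]
  linarith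

end box

end Pool.Agent.H462.JL
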