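import Pool.Agent.H462.JL.Few
import Pool.Agent.H462.JL.Box
import Pool.Agent.H462.CTU.Law.Fin

/-!
# The joint law for the sets of primes
-/

set_option autoImplicit false

open scoped Classical
open Finset Filter

namespace Pool.Agent.H462.JL

open Pool.Agent.Y692.QS (Ei w nr toC)
open Pool.Agent.Y715.T.RecG (Pq)
open Pool.Agent.Y699.E (nrm QB PD)
open Pool.Agent.Y703.CX (jj XX eL zz kk eL_tendsto logX_eq rpow_eL HH NN ev_eL one_le_exp
  HH_ge HH_le HH_pos kk_ge kk_le X_pos one_add_log lin_le zz_ge zz_pos)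
open Pool.Agent.Y703.CQ (Sml sml_of sml_add)
open Pool.Agent.Y703.XK (HB prs ext c9 sm la bl S_BIL S_EQ S_C9 sml_eps kk_pos sml_main kap
  kap_nonneg kap_pow cmp)
open Pool.Agent.Y703.XL (cr cr_pos cr_le t_C9)
open Pool.Agent.H462.CTU.Chr (nq)
open Pool.Agent.H462.CTU.Law

/-- the limits form a law -/
theorem lim_cr : Lim cr := by
  have hc9 := t_C9
  refine ⟨fun k => (cr_pos hc9 k).le, Pool.Agent.Y703.XL.t_SUM', fun k => ?_⟩
  · unfold Pool.Agent.Y703.XL.cr Pi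
    rw [Finset.prod_range_zero, div_one]

section
variable {I : Type} [Fintype I] {R : Finset Ei} {f : I → Ei → ZMod 3} {k : I → ZMod 3}

theorem t_FEWJ (hR : ∀ u ∈ R, Pq u) (hne : ∀ i j, i ≠ j → k i ≠ k j ∨ ∃ u ∈ R, f i u ≠ f j u)
    (V : ℕ) (ε : ℝ) (hε : 0 < ε) : ∃ X₀ : ℕ, ∀ X : ℕ, X₀ ≤ X →
    (((SS X).filter fun S => S.card ≤ kk X ∧ (∀ u ∈ R, nrm u ≤ zz X) ∧
      ∃ i j, i ≠ j ∧ ((la (zz X) S).filter fun π => dl R f k i j π ≠ 0).card <
        2 * (sm (zz X) S).card + V).card : ℝ) ≤ ε * X := by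
  obtain ⟨P, hP⟩ : ∃ P : Finset (I × I), P = univ.filter fun p => p.1 ≠ p.2 := ⟨_, rfl⟩
  have h1 : ∀ p ∈ P, ∃ X₀ : ℕ, ∀ X : ℕ, X₀ ≤ X →
    (((SS X).filter fun S => S.card ≤ kk X ∧ (∀ u ∈ R, nrm u ≤ zz X) ∧
      ((la (zz X) S).filter fun π => dl R f k p.1 p.2 π ≠ 0).card <
        2 * (sm (zz X) S).card + V).card : ℝ) ≤ (ε / (P.card + 1)) * X := by
    intro p hp
    rw [hP, mem_filter] at hp
    refine t_FEW4 (g := fun u => f p.1 u - f p.2 u) (c := k p.1 - k p.2) hR ?_ V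
      (ε / (P.card + 1)) (by positivity)
    rcases hne p.1 p.2 hp.2 with h | ⟨u, hu, h⟩
    · exact Or.inl (sub_ne_zero.2 h)
    · exact Or.inr ⟨u, hu, sub_ne_zero.2 h⟩
  choose! Y hY using h1
  refine ⟨P.sup Y, fun X hX => ?_⟩
  have h2 : ((SS X).filter fun S => S.card ≤ kk X ∧ (∀ u ∈ R, nrm u ≤ zz X) ∧
      ∃ i j, i ≠ j ∧ ((la (zz X) S).filter fun π => dl R f k i j π ≠ 0).card <
        2 * (sm (zz X) S).card + V) ⊆ P.biUnion fun p => (SS X).filter fun S =>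
      S.card ≤ kk X ∧ (∀ u ∈ R, nrm u ≤ zz X) ∧
      ((la (zz X) S).filter fun π => dl R f k p.1 p.2 π ≠ 0).card <
        2 * (sm (zz X) S).card + V := by
    intro S hS
    rw [mem_filter] at hS
    obtain ⟨a1, a2, a3, i, j, hij, a4⟩ := hS
    rw [mem_biUnion]
    refine ⟨(i, j), ?_, ?_⟩
    · rw [hP, mem_filter]
      exact ⟨mem_univ _, hij⟩
    · rw [mem_filter]
      exact ⟨a1, a2, a3, a4⟩
  have h3 : (((SS X).filter fun S => S.card ≤ kk X ∧ (∀ u ∈ R, nrm u ≤ zz X) ∧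
      ∃ i j, i ≠ j ∧ ((la (zz X) S).filter fun π => dl R f k i j π ≠ 0).card <
        2 * (sm (zz X) S).card + V).card : ℝ) ≤ ∑ p ∈ P, (((SS X).filter fun S =>
      S.card ≤ kk X ∧ (∀ u ∈ R, nrm u ≤ zz X) ∧
      ((la (zz X) S).filter fun π => dl R f k p.1 p.2 π ≠ 0).card <
        2 * (sm (zz X) S).card + V).card : ℝ) := by
    exact_mod_cast (card_le_card h2).trans card_biUnion_le
  refine h3.trans ?_
  have h4 : ∀ p ∈ P, (((SS X).filter fun S => S.card ≤ kk X ∧ (∀ u ∈ R, nrm u ≤ zz X) ∧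
      ((la (zz X) S).filter fun π => dl R f k p.1 p.2 π ≠ 0).card <
        2 * (sm (zz X) S).card + V).card : ℝ) ≤ (ε / (P.card + 1)) * X := fun p hp =>
    hY p hp X ((Finset.le_sup hp).trans hX)
  refine (sum_le_sum h4).trans ?_
  rw [sum_const, nsmul_eq_mul, ← mul_assoc]
  refine mul_le_mul_of_nonneg_right ?_ (Nat.cast_nonneg _)
  rw [mul_div_assoc', div_le_iff₀ (by positivity)]
  nlinarith [(Nat.cast_nonneg P.card : (0 : ℝ) ≤ P.card)]

/-- the sets of the class -/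
def Cs (R : Finset Ei) (s : ZMod 3) (S : Finset Ei) : Prop := Disjoint R S ∧ ∑ π ∈ S, nq π = s

lemma ev_R (R : Finset Ei) : ∀ᶠ X : ℕ in atTop, (∀ u ∈ R, nrm u ≤ zz X) ∧ R.card ≤ kk X := by
  obtain ⟨M, hM⟩ : ∃ M : ℕ, M = 2 * (R.sup nrm) + R.card + 1 := ⟨_, rfl⟩
  filter_upwards [ev_eL M, ev_eL 1] with X hX h1
  have h0 : (0 : ℝ) ≤ eL X := by linarith
  have h2 := zz_ge h1
  have h3 := kk_ge X
  have h4 : eL X ≤ (eL X) ^ 3 := by
    have h8 : (eL X) ^ 3 = eL X * (eL X * eL X) := by ring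
    rw [h8]
    nlinarith
  have h5 : eL X ≤ Real.exp ((eL X) ^ 3) := by
    have := Real.add_one_le_exp ((eL X) ^ 3)
    linarith
  rw [hM] at hX
  push_cast at hX
  have hc : (0 : ℝ) ≤ (R.card : ℝ) := Nat.cast_nonneg _
  refine ⟨fun u hu => ?_, ?_⟩
  · have h6 : nrm u ≤ R.sup nrm := Finset.le_sup hu
    have h7 : (nrm u : ℝ) ≤ ((R.sup nrm : ℕ) : ℝ) := by exact_mod_cast h6
    have h8 : (nrm u : ℝ) ≤ zz X := by linarith
    exact_mod_cast h8
  · have hs : (0 : ℝ) ≤ ((R.sup nrm : ℕ) : ℝ) := Nat.cast_nonneg _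
    have h8 : (R.card : ℝ) ≤ kk X := by linarith
    exact_mod_cast h8

/-- **The joint law for the sets.** -/
theorem t_AS (hR : ∀ u ∈ R, Pq u) (hne : ∀ i j, i ≠ j → k i ≠ k j ∨ ∃ u ∈ R, f i u ≠ f j u)
    (s : ZMod 3) (r : I → ℕ) (ε : ℝ) (hε : 0 < ε) : ∃ X₀ : ℕ, ∀ X : ℕ, X₀ ≤ X →
    |(((SS X).filter fun S => Cs R s S ∧ Gj R f k r S).card : ℝ) -
      (∏ i, cr (r i)) * (((SS X).filter fun S => Cs R s S).card : ℝ)| ≤ ε * X := by
  have hc9 := t_C9
  have hC : S_CNT := Pool.Agent.H462.CTU.Law.Cnt.t_CNT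
  obtain ⟨D, hD⟩ := hC
  have hD1 := hD.one
  obtain ⟨η, hη⟩ : ∃ η : ℝ, η = ε / (2 * D) := ⟨_, rfl⟩
  have hη0 : 0 < η := by rw [hη]; positivity
  obtain ⟨V, hV⟩ := t_BXJ (R := R) (f := f) (k := k) Pool.Agent.Y710.XK.t_EQ lim_cr hR r η hη0
  obtain ⟨C, hC1, hkey⟩ := t_KEJ Pool.Agent.Y363.XK.t_BIL (hV V le_rfl s)
  have s1 := sml_many hD
  have s2 := sml_cut hD
  have s3 := sml_coll hD
  have s4 := sml_eps (t_FEW V)
  have s5 := sml_eps (t_BAD4 hR)
  have s7 := sml_eps (t_FEWJ hR hne V)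
  have s6 := sml_main hC1
  have sA := sml_add (sml_add (sml_add (sml_add (sml_add (sml_add s1 s2) s3) s4) s5) s7) s6
  have hev := sA (ε / 2) (by positivity)
  obtain ⟨X₀, hX₀⟩ := eventually_atTop.1 ((hev.and (ev_eL 1)).and (ev_R R))
  refine ⟨X₀, fun X hXX => ?_⟩
  obtain ⟨⟨hX, hl⟩, hRz, hRk⟩ := hX₀ X hXX
  rw [neg_zero, zero_mul, Real.exp_zero, mul_one] at hX
  have hl0 : 0 < eL X := by linarith
  have hXp := X_pos hl0
  have hXp' : (0 : ℝ) < X := by exact_mod_cast hXp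
  have hN : (HH X : ℝ) * Real.log X < NN X := by
    unfold NN
    push_cast
    exact Nat.lt_floor_add_one _
  have hmain := hkey X (zz X) (HH X) (kk X) (NN X) (kap C X) hXp (HH_pos hl0) (zz_pos hl) hRz hRk
    (kap_nonneg hC1 X) (kap_pow hC1 hl) hN
  obtain ⟨L, hL⟩ : ∃ L : ℝ, L = ∏ i, cr (r i) := ⟨_, rfl⟩
  have hL0 : 0 ≤ L := by
    rw [hL]
    exact prod_nonneg fun i _ => (cr_pos hc9 _).le
  have hL1 : L ≤ 1 := by
    rw [hL]
    exact prod_le_one (fun i _ => (cr_pos hc9 _).le) fun i _ => cr_le hc9 _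
  rw [← hL] at hmain ⊢
  obtain ⟨T, hT⟩ : ∃ T, T = (RR X (zz X) (HH X) (kk X) V).filter
    fun S => Wj R f k V s (sm (zz X) S) (la (zz X) S) := ⟨_, rfl⟩
  have hTG : (RR X (zz X) (HH X) (kk X) V).filter
      (fun S => Wj R f k V s (sm (zz X) S) (la (zz X) S) ∧ Gj R f k r S) =
        T.filter (Gj R f k r) := by
    rw [hT, filter_filter]
  rw [hTG, ← hT] at hmain
  have hsum : ∀ S : Finset Ei, ∑ π ∈ S, nq π = ∑ π ∈ sm (zz X) S, nq π + ∑ π ∈ la (zz X) S, nq π :=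
    fun S => (sum_filter_add_sum_filter_not S (fun π => nrm π ≤ zz X) nq).symm
  have hdis : ∀ S : Finset Ei, Disjoint R S ↔ Disjoint R (sm (zz X) S) := by
    intro S
    constructor
    · exact fun h => h.mono_right (filter_subset _ _)
    · intro h
      rw [disjoint_left] at h ⊢
      intro u hu hS
      exact h hu (mem_filter.2 ⟨hS, hRz u hu⟩)
  have hCs : ∀ S : Finset Ei, Cs R s S ↔ (Disjoint R (sm (zz X) S) ∧
      ∑ π ∈ sm (zz X) S, nq π + ∑ π ∈ la (zz X) S, nq π = s) := by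
    intro S
    unfold Cs
    rw [hdis, hsum]
  have hTS : T ⊆ (SS X).filter fun S => Cs R s S := by
    intro S hS
    rw [hT, mem_filter] at hS
    rw [mem_filter, hCs]
    refine ⟨?_, hS.2.2.2⟩
    unfold RR at hS
    exact (mem_filter.1 hS.1).1
  have hRS : ((RR X (zz X) (HH X) (kk X) V).card : ℝ) ≤ D * X := by
    refine le_trans ?_ (hD.all X hXp)
    exact_mod_cast card_le_card (filter_subset _ _)
  have hcmp := cmp (Gj R f k r) T ((SS X).filter fun S => Cs R s S) hTS L hL0 hL1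
  rw [filter_filter] at hcmp
  have hout : (((SS X).filter (fun S => Cs R s S) \ T).card : ℝ) ≤
      (((((SS X).filter fun S => kk X < S.card).card : ℝ) +
      (((SS X).filter fun S => S.card ≤ kk X ∧
        X < (∏ π ∈ sm (zz X) S, nrm π) * ∏ π ∈ la (zz X) S, XX (HH X) (bl (HH X) π)).card : ℝ) +
      (((SS X).filter fun S => ¬ Set.InjOn (bl (HH X)) (la (zz X) S : Set Ei)).card : ℝ) +
      (((SS X).filter fun S => S.card ≤ kk X ∧
        (la (zz X) S).card ≤ (sm (zz X) S).card + V).card : ℝ)) +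
      (((SS X).filter fun S => S.card ≤ kk X ∧ (∀ u ∈ R, nrm u ≤ zz X) ∧
        ¬ Nd (R ∪ sm (zz X) S) (la (zz X) S)).card : ℝ)) +
      (((SS X).filter fun S => S.card ≤ kk X ∧ (∀ u ∈ R, nrm u ≤ zz X) ∧
      ∃ i j, i ≠ j ∧ ((la (zz X) S).filter fun π => dl R f k i j π ≠ 0).card <
        2 * (sm (zz X) S).card + V).card : ℝ) := by
    have g : (SS X).filter (fun S => Cs R s S) \ T ⊆
        (((((((SS X).filter fun S => kk X < S.card) ∪
        ((SS X).filter fun S => S.card ≤ kk X ∧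
          X < (∏ π ∈ sm (zz X) S, nrm π) * ∏ π ∈ la (zz X) S, XX (HH X) (bl (HH X) π)))) ∪
        ((SS X).filter fun S => ¬ Set.InjOn (bl (HH X)) (la (zz X) S : Set Ei))) ∪
        ((SS X).filter fun S => S.card ≤ kk X ∧ (la (zz X) S).card ≤ (sm (zz X) S).card + V)) ∪
        ((SS X).filter fun S => S.card ≤ kk X ∧ (∀ u ∈ R, nrm u ≤ zz X) ∧
          ¬ Nd (R ∪ sm (zz X) S) (la (zz X) S))) ∪
        ((SS X).filter fun S => S.card ≤ kk X ∧ (∀ u ∈ R, nrm u ≤ zz X) ∧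
          ∃ i j, i ≠ j ∧ ((la (zz X) S).filter fun π => dl R f k i j π ≠ 0).card <
            2 * (sm (zz X) S).card + V) := by
      intro S hS
      rw [Finset.mem_sdiff, mem_filter] at hS
      obtain ⟨⟨h1, h1'⟩, h2⟩ := hS
      simp only [mem_union, mem_filter]
      by_contra hc
      push Not at hc
      obtain ⟨⟨⟨⟨⟨c1, c2⟩, c3⟩, c4⟩, c5⟩, c6⟩ := hc
      have d1 : S.card ≤ kk X := c1 h1
      have d2 := c2 h1 d1
      have d3 := c3 h1
      have d4 := c4 h1 d1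
      have d5 := c5 h1 d1 hRz
      have d6 := c6 h1 d1 hRz
      apply h2
      rw [hT, mem_filter]
      refine ⟨?_, d5, d6, ((hCs S).1 h1').1, ((hCs S).1 h1').2⟩
      unfold RR
      rw [mem_filter]
      exact ⟨h1, d3, d1, d2, d4⟩
    have g1 := card_le_card g
    have g2 := g1.trans ((card_union_le _ _).trans (Nat.add_le_add_right ((card_union_le _ _).trans
      (Nat.add_le_add_right ((card_union_le _ _).trans
      (Nat.add_le_add_right ((card_union_le _ _).trans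
      (Nat.add_le_add_right (card_union_le _ _) _)) _)) _)) _))
    exact_mod_cast g2
  have g1 : η * ((RR X (zz X) (HH X) (kk X) V).card : ℝ) ≤ η * (D * X) :=
    mul_le_mul_of_nonneg_left hRS hη0.le
  have g2 : η * (D * X) = ε / 2 * X := by
    rw [hη]
    field_simp
  linarith

end

end Pool.Agent.H462.JL
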