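import Pool.Agent.H462.JL.Ari

/-!
# The joint law for the elements
-/

set_option autoImplicit false
set_option linter.unusedSectionVars false
set_option linter.unusedVariables false

open scoped Classical
open Finset Filter

namespace Pool.Agent.H462.JL

open Pool.Agent.Y692.QS (Ei w nr nr_mul)
open Pool.Agent.Y703.CT
open Pool.Agent.Y703.XL (cr)
open Pool.Agent.Y715.T.RecG (Pq)
open Pool.Agent.Y699.E
open Pool.Agent.H462.CTU.Chr (nq)
open Pool.Agent.H462.CTU.Law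
open Pool.Agent.H462.CTU.Law.Cou (un un_nr un_inj un_isUnit un_ne exists_un el_inj A0 cnt ct
  ct_congr ct_true ct_le ct_insert)

/-- the filter -/
noncomputable def ctf (s : Finset Ei) (Q : Ei → Prop) : Finset Ei := s.filter Q

lemma mem_ctf {s : Finset Ei} {Q : Ei → Prop} {n : Ei} : n ∈ ctf s Q ↔ n ∈ s ∧ Q n := by
  unfold ctf
  rw [mem_filter]

lemma ct_ctf (s : Finset Ei) (Q : Ei → Prop) : ct s Q = (ctf s Q).card := rfl

lemma ct_eq (s : Finset Ei) (Q : Ei → Prop) [h : DecidablePred Q] : (s.filter Q).card = ct s Q := by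
  unfold ct
  congr!

/-- a ratio with a small difference -/
lemma ratioR {R : Finset Ei} (hR : ∀ π ∈ R, Pq π) {f : ℕ → ℝ} (L : ℝ)
    (h : ∀ ε : ℝ, 0 < ε → ∃ X₀ : ℕ, ∀ X : ℕ, X₀ ≤ X →
    |f X - L * ((SR R X).card : ℝ)| ≤ ε * X) :
    Tendsto (fun X : ℕ => f X / ((SR R X).card : ℝ)) atTop (nhds L) := by
  obtain ⟨c, X₁, hc, hlow⟩ := sr_low R hR
  rw [Metric.tendsto_nhds]
  intro ε hε
  obtain ⟨X₂, h2⟩ := h (c * ε / 2) (by positivity)
  filter_upwards [eventually_ge_atTop X₁, eventually_ge_atTop X₂, eventually_ge_atTop 1]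
    with X hX1 hX2 hX3
  have hXp : (0 : ℝ) < X := by exact_mod_cast hX3
  have h3 := hlow X hX1
  have hN : (0 : ℝ) < ((SR R X).card : ℝ) := lt_of_lt_of_le (by positivity) h3
  have h4 := h2 X hX2
  rw [Real.dist_eq]
  have e : f X / ((SR R X).card : ℝ) - L = (f X - L * ((SR R X).card : ℝ)) / ((SR R X).card : ℝ) := by
    field_simp
  rw [e, abs_div, abs_of_pos hN, div_lt_iff₀ hN]
  refine lt_of_le_of_lt h4 ?_
  have h5 : c * ε / 2 * X = ε / 2 * (c * X) := by ring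
  have h6 : ε / 2 * (c * X) ≤ ε / 2 * ((SR R X).card : ℝ) :=
    mul_le_mul_of_nonneg_left h3 (by linarith)
  have h7 : 0 < ε * ((SR R X).card : ℝ) := by positivity
  linarith

lemma sr_pos {R : Finset Ei} (hR : ∀ π ∈ R, Pq π) :
    ∀ᶠ X : ℕ in atTop, (0 : ℝ) < ((SR R X).card : ℝ) := by
  obtain ⟨c, X₁, hc, hlow⟩ := sr_low R hR
  filter_upwards [eventually_ge_atTop X₁, eventually_ge_atTop 1] with X hX1 hX3
  have hXp : (0 : ℝ) < X := by exact_mod_cast hX3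
  exact lt_of_lt_of_le (by positivity) (hlow X hX1)

/-- a bounded function is small -/
lemma ratio_one {R : Finset Ei} (hR : ∀ π ∈ R, Pq π) {f : ℕ → ℝ} (h0 : ∀ X, 0 ≤ f X)
    (h1 : ∀ X, f X ≤ 1) : Tendsto (fun X : ℕ => f X / ((SR R X).card : ℝ)) atTop (nhds 0) := by
  refine ratioR hR 0 fun ε hε => ?_
  obtain ⟨X₀, hX₀⟩ := exists_nat_gt (1 / ε)
  refine ⟨X₀, fun X hX => ?_⟩
  rw [zero_mul, sub_zero, abs_of_nonneg (h0 X)]
  have h2 : (1 / ε : ℝ) ≤ X := hX₀.le.trans (by exact_mod_cast hX)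
  rw [div_le_iff₀ hε] at h2
  have := h1 X
  linarith

/-- the cells have density one third -/
lemma cell {R : Finset Ei} (hR : ∀ π ∈ R, Pq π) (s : ZMod 3) :
    Tendsto (fun X : ℕ => (ct (SR R X) (fun n => nq n = s) : ℝ) / ((SR R X).card : ℝ))
      atTop (nhds (1 / 3)) := by
  refine ratioR hR _ fun ε hε => ?_
  obtain ⟨X₀, h⟩ := equR hR s ε hε
  refine ⟨X₀, fun X hX => ?_⟩
  have h1 := h X hX
  rw [ct_eq] at h1
  have h5 : |(ct (SR R X) (fun n => nq n = s) : ℝ) - 1 / 3 * ((SR R X).card : ℝ)| =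
      1 / 3 * |3 * (ct (SR R X) (fun n => nq n = s) : ℝ) - ((SR R X).card : ℝ)| := by
    rw [← abs_of_pos (show (0 : ℝ) < 1 / 3 by norm_num), ← abs_mul,
      abs_of_pos (show (0 : ℝ) < 1 / 3 by norm_num)]
    congr 1
    ring
  rw [h5]
  have h6 := abs_nonneg (3 * (ct (SR R X) (fun n => nq n = s) : ℝ) - ((SR R X).card : ℝ))
  linarith

/-- **the joint law in a cell** -/
theorem law_cell {I : Type} [Fintype I] {R : Finset Ei} {f : I → Ei → ZMod 3} {k : I → ZMod 3}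
    (hR : ∀ u ∈ R, Pq u) (hne : ∀ i j, i ≠ j → k i ≠ k j ∨ ∃ u ∈ R, f i u ≠ f j u)
    (s : ZMod 3) (r : I → ℕ) :
    Tendsto (fun X : ℕ => (ct (SR R X) (fun n => nq n = s ∧ Gj R f k r (PD n)) : ℝ) /
      ((SR R X).card : ℝ)) atTop (nhds ((∏ i, cr (r i)) * (1 / 3))) := by
  have hL := cell hR s
  have hdiff : Tendsto (fun X : ℕ => ((ct (SR R X) (fun n => nq n = s ∧
      Gj R f k r (PD n)) : ℝ) - (∏ i, cr (r i)) *
      (ct (SR R X) (fun n => nq n = s) : ℝ)) / ((SR R X).card : ℝ)) atTop (nhds 0) := by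
    refine ratioR hR 0 fun ε hε => ?_
    obtain ⟨X₀, h⟩ := t_AS hR hne s r ε hε
    refine ⟨X₀, fun X hX => ?_⟩
    have h1 := h X hX
    have e0 : ∀ Q : Finset Ei → Prop, ((SS X).filter fun S => Cs R s S ∧ Q S).card =
        ct (SR R X) (fun n => nq n = s ∧ Q (PD n)) := by
      intro Q
      rw [card_Cs hR s X Q, ct_eq]
    have e1 := e0 (Gj R f k r)
    have e3 : ((SS X).filter fun S => Cs R s S).card = ct (SR R X) (fun n => nq n = s) := by
      have e4 : ∀ Q : Finset Ei → Prop, (∀ S, Q S) → ((SS X).filter fun S => Cs R s S).card =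
          ct (SR R X) (fun n => nq n = s) := by
        intro Q hQ
        have e5 : ((SS X).filter fun S => Cs R s S) = ((SS X).filter fun S => Cs R s S ∧ Q S) :=
          filter_congr fun S _ => ⟨fun h => ⟨h, hQ S⟩, fun h => h.1⟩
        rw [e5, e0 Q]
        exact ct_congr fun n _ => ⟨fun h => h.1, fun h => ⟨h, hQ _⟩⟩
      exact e4 (fun _ => True) fun _ => trivial
    rw [e1, e3] at h1
    rwa [zero_mul, sub_zero]
  have h := hdiff.add (hL.const_mul (∏ i, cr (r i)))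
  rw [zero_add] at h
  refine h.congr fun X => ?_
  rw [sub_div, mul_div_assoc]
  ring

/-! ### the elements -/

/-- squarefree, prime to three and to `R` -/
def AR (R : Finset Ei) (D : Ei) : Prop := A0 D ∧ cop R D

lemma cop_un {R : Finset Ei} (p : Bool × ZMod 3) {n : Ei} : cop R (un p * n) ↔ cop R n := by
  unfold cop
  refine forall₂_congr fun π _ => not_congr ?_
  exact (un_isUnit p).dvd_mul_left

/-- counting -/
theorem cntR (R : Finset Ei) (P : Ei → Prop) (X : ℕ) : {D : Ei | nr D ≤ X ∧ AR R D ∧ P D}.ncard =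
    ∑ p : Bool × ZMod 3, ct (SR R X) (fun n => P (un p * n)) := by
  have h := cnt (fun D => cop R D ∧ P D) X
  have e : {D : Ei | nr D ≤ X ∧ AR R D ∧ P D} = {D : Ei | nr D ≤ X ∧ A0 D ∧ cop R D ∧ P D} := by
    ext D
    exact ⟨fun h => ⟨h.1, h.2.1.1, h.2.1.2, h.2.2⟩, fun h => ⟨h.1, ⟨h.2.1, h.2.2.1⟩, h.2.2.2⟩⟩
  rw [e, h]
  refine sum_congr rfl fun p _ => ?_
  refine Pool.Agent.H462.CTU.Law.Cou.ct_sub fun n => ?_
  unfold SR
  rw [mem_filter, cop_un]
  exact and_assoc.symm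

/-- a condition on the cells -/
def InG (G : Finset (ZMod 3 × ZMod 3)) (C : Ei → Prop) : Prop :=
  ∀ (p : Bool × ZMod 3) (n : Ei), PS n → (C (un p * n) ↔ n ≠ 1 ∧ (p.2, nq n) ∈ G)

/-- the count in the cells -/
theorem cntG {R : Finset Ei} {G : Finset (ZMod 3 × ZMod 3)} {C : Ei → Prop} (hC : InG G C)
    (P : Ei → Prop) (X : ℕ) : {D : Ei | nr D ≤ X ∧ AR R D ∧ C D ∧ P D}.ncard =
    ∑ b : Bool, ∑ g ∈ G, ct (SR R X) (fun n => nq n = g.2 ∧ n ≠ 1 ∧ P (un (b, g.1) * n)) := by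
  rw [cntR R (fun D => C D ∧ P D), Fintype.sum_prod_type]
  refine sum_congr rfl fun b _ => ?_
  have h1 : ∀ c : ZMod 3, ct (SR R X) (fun n => C (un (b, c) * n) ∧ P (un (b, c) * n)) =
      ∑ g ∈ G.filter (fun g => g.1 = c),
        ct (SR R X) (fun n => nq n = g.2 ∧ n ≠ 1 ∧ P (un (b, c) * n)) := by
    intro c
    simp only [ct_ctf]
    rw [← card_biUnion]
    · congr 1
      ext n
      rw [mem_ctf, mem_biUnion]
      constructor
      · rintro ⟨h1, h2, h3⟩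
        obtain ⟨h4, h5⟩ := (hC (b, c) n (mem_SR.1 h1).1.2).1 h2
        exact ⟨(c, nq n), mem_filter.2 ⟨h5, rfl⟩, mem_ctf.2 ⟨h1, rfl, h4, h3⟩⟩
      · rintro ⟨g, h1, h2⟩
        rw [mem_filter] at h1
        rw [mem_ctf] at h2
        refine ⟨h2.1, (hC (b, c) n (mem_SR.1 h2.1).1.2).2 ⟨h2.2.2.1, ?_⟩, h2.2.2.2⟩
        have e : ((b, c).2, nq n) = g := Prod.ext h1.2.symm h2.2.1
        rw [e]
        exact h1.1
    · intro g hg g' hg' hne
      rw [Function.onFun, disjoint_left]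
      intro n h1 h2
      rw [mem_ctf] at h1 h2
      have h3 := (mem_filter.1 hg).2
      have h4 := (mem_filter.1 hg').2
      exact hne (Prod.ext (h3.trans h4.symm) (h1.2.1.symm.trans h2.2.1))
  rw [sum_congr rfl fun c _ => h1 c]
  rw [← sum_fiberwise G (fun g => g.1)]
  refine sum_congr rfl fun c _ => sum_congr rfl fun g hg => ?_
  rw [(mem_filter.1 hg).2]

/-- the elements of the cells with a property of constant density -/
theorem dens {R : Finset Ei} (hR : ∀ π ∈ R, Pq π) {G : Finset (ZMod 3 × ZMod 3)} {C : Ei → Prop}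
    (hC : InG G C) {P : Ei → Prop} {L : ℝ}
    (hP : ∀ (p : Bool × ZMod 3) (s : ZMod 3), Tendsto (fun X : ℕ =>
      (ct (SR R X) (fun n => nq n = s ∧ P (un p * n)) : ℝ) / ((SR R X).card : ℝ)) atTop
        (nhds (L * (1 / 3)))) :
    Tendsto (fun X : ℕ => ({D : Ei | nr D ≤ X ∧ AR R D ∧ C D ∧ P D}.ncard : ℝ) /
      ((SR R X).card : ℝ)) atTop (nhds (2 * (G.card * (L * (1 / 3))))) := by
  have h1 : ∀ (b : Bool) (g : ZMod 3 × ZMod 3), Tendsto (fun X : ℕ =>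
      (ct (SR R X) (fun n => nq n = g.2 ∧ n ≠ 1 ∧ P (un (b, g.1) * n)) : ℝ) /
        ((SR R X).card : ℝ)) atTop (nhds (L * (1 / 3))) := by
    intro b g
    have h2 : Tendsto (fun X : ℕ => ((ct (SR R X) (fun n => nq n = g.2 ∧
        P (un (b, g.1) * n)) : ℝ) - (ct (SR R X) (fun n => nq n = g.2 ∧ n ≠ 1 ∧
        P (un (b, g.1) * n)) : ℝ)) / ((SR R X).card : ℝ)) atTop (nhds 0) := by
      refine ratio_one hR (fun X => ?_) fun X => ?_
      · rw [sub_nonneg]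
        exact Nat.cast_le.2 (ct_le fun n _ hn => ⟨hn.1, hn.2.2⟩)
      · rw [sub_le_iff_le_add]
        have h3 : ct (SR R X) (fun n => nq n = g.2 ∧ P (un (b, g.1) * n)) ≤
            ct (SR R X) (fun n => nq n = g.2 ∧ n ≠ 1 ∧ P (un (b, g.1) * n)) + 1 := by
          refine ct_insert (a := 1) fun n _ hn => ?_
          by_cases h4 : n = 1
          · exact Or.inl h4
          · exact Or.inr ⟨hn.1, h4, hn.2⟩
        have h4 : (ct (SR R X) (fun n => nq n = g.2 ∧ P (un (b, g.1) * n)) : ℝ) ≤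
            ((ct (SR R X) (fun n => nq n = g.2 ∧ n ≠ 1 ∧ P (un (b, g.1) * n)) + 1 : ℕ) : ℝ) :=
          Nat.cast_le.2 h3
        rw [Nat.cast_add, Nat.cast_one] at h4
        linarith
    have h3 := (hP (b, g.1) g.2).sub h2
    rw [sub_zero] at h3
    refine h3.congr fun X => ?_
    rw [← sub_div]
    congr 1
    ring
  have h2 := tendsto_finsetSum (univ : Finset Bool) fun b _ =>
    tendsto_finsetSum G fun g _ => h1 b g
  rw [sum_const, sum_const, card_univ, Fintype.card_bool, nsmul_eq_mul, nsmul_eq_mul] at h2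
  refine h2.congr fun X => ?_
  rw [cntG hC P X]
  push_cast
  rw [sum_div]
  refine sum_congr rfl fun b _ => ?_
  rw [sum_div]

/-- all the elements -/
theorem cnt_AR {R : Finset Ei} (X : ℕ) : {D : Ei | nr D ≤ X ∧ AR R D}.ncard = 6 * (SR R X).card := by
  have h := cntR R (fun _ => True) X
  have e : {D : Ei | nr D ≤ X ∧ AR R D} = {D : Ei | nr D ≤ X ∧ AR R D ∧ True} := by
    ext D
    exact ⟨fun h => ⟨h.1, h.2, trivial⟩, fun h => ⟨h.1, h.2.1⟩⟩
  rw [e, h]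
  rw [ct_true, sum_const, smul_eq_mul]
  rfl

lemma dens_true {R : Finset Ei} (hR : ∀ π ∈ R, Pq π) (p : Bool × ZMod 3) (s : ZMod 3) :
    Tendsto (fun X : ℕ =>
      (ct (SR R X) (fun n => nq n = s ∧ (fun _ : Ei => True) (un p * n)) : ℝ) /
        ((SR R X).card : ℝ)) atTop (nhds (1 * (1 / 3))) := by
  rw [one_mul]
  refine (cell hR s).congr fun X => ?_
  rw [ct_congr (Q := fun n => nq n = s)
    (Q' := fun n => nq n = s ∧ (fun _ : Ei => True) (un p * n)) fun n _ =>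
      ⟨fun h => ⟨h, trivial⟩, fun h => h.1⟩]

/-- **the share of the cells** -/
theorem share_G {R : Finset Ei} (hR : ∀ π ∈ R, Pq π) {G : Finset (ZMod 3 × ZMod 3)} {C : Ei → Prop}
    (hC : InG G C) : Tendsto (fun X : ℕ => ({D : Ei | nr D ≤ X ∧ AR R D ∧ C D}.ncard : ℝ) /
      ({D : Ei | nr D ≤ X ∧ AR R D}.ncard : ℝ)) atTop (nhds ((G.card : ℝ) / 9)) := by
  have h := (dens hR hC (P := fun _ => True) (L := 1) (dens_true hR)).div_const 6
  have e : (2 * ((G.card : ℝ) * (1 * (1 / 3)))) / 6 = (G.card : ℝ) / 9 := by ring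
  rw [e] at h
  refine h.congr fun X => ?_
  have e2 : {D : Ei | nr D ≤ X ∧ AR R D ∧ C D ∧ True} = {D : Ei | nr D ≤ X ∧ AR R D ∧ C D} := by
    ext D
    exact ⟨fun h => ⟨h.1, h.2.1, h.2.2.1⟩, fun h => ⟨h.1, h.2.1, h.2.2, trivial⟩⟩
  rw [cnt_AR, e2]
  push_cast
  rw [div_div, mul_comm ((SR R X).card : ℝ)]

/-- **the law in the cells** -/
theorem law_G {R : Finset Ei} (hR : ∀ π ∈ R, Pq π) {G : Finset (ZMod 3 × ZMod 3)} {C : Ei → Prop}
    (hC : InG G C) (hG : G.Nonempty) {P : Ei → Prop} {L : ℝ}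
    (hP : ∀ (p : Bool × ZMod 3) (s : ZMod 3), Tendsto (fun X : ℕ =>
      (ct (SR R X) (fun n => nq n = s ∧ P (un p * n)) : ℝ) / ((SR R X).card : ℝ)) atTop
        (nhds (L * (1 / 3)))) :
    Tendsto (fun X : ℕ => ({D : Ei | nr D ≤ X ∧ AR R D ∧ C D ∧ P D}.ncard : ℝ) /
      ({D : Ei | nr D ≤ X ∧ AR R D ∧ C D}.ncard : ℝ)) atTop (nhds L) := by
  have hG0 : (0 : ℝ) < (G.card : ℝ) := by exact_mod_cast hG.card_pos
  have h1 : Tendsto (fun X : ℕ => ({D : Ei | nr D ≤ X ∧ AR R D ∧ C D}.ncard : ℝ) /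
      ((SR R X).card : ℝ)) atTop (nhds (2 * (G.card * (1 * (1 / 3))))) := by
    refine (dens hR hC (P := fun _ => True) (L := 1) (dens_true hR)).congr fun X => ?_
    have e2 : {D : Ei | nr D ≤ X ∧ AR R D ∧ C D ∧ True} = {D : Ei | nr D ≤ X ∧ AR R D ∧ C D} := by
      ext D
      exact ⟨fun h => ⟨h.1, h.2.1, h.2.2.1⟩, fun h => ⟨h.1, h.2.1, h.2.2, trivial⟩⟩
    rw [e2]
  have h := (dens hR hC hP).div h1 (by positivity)
  have e : 2 * ((G.card : ℝ) * (L * (1 / 3))) / (2 * ((G.card : ℝ) * (1 * (1 / 3)))) = L := by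
    field_simp
  rw [e] at h
  refine h.congr' ?_
  filter_upwards [sr_pos hR] with X hN
  exact div_div_div_cancel_right₀ hN.ne' _ _

/-- in all -/
theorem law_all {R : Finset Ei} (hR : ∀ π ∈ R, Pq π) {G : Finset (ZMod 3 × ZMod 3)} {C : Ei → Prop}
    (hC : InG G C) {P : Ei → Prop} {L : ℝ}
    (hP : ∀ (p : Bool × ZMod 3) (s : ZMod 3), Tendsto (fun X : ℕ =>
      (ct (SR R X) (fun n => nq n = s ∧ P (un p * n)) : ℝ) / ((SR R X).card : ℝ)) atTop
        (nhds (L * (1 / 3)))) :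
    Tendsto (fun X : ℕ => ({D : Ei | nr D ≤ X ∧ AR R D ∧ C D ∧ P D}.ncard : ℝ) /
      ({D : Ei | nr D ≤ X ∧ AR R D}.ncard : ℝ)) atTop (nhds ((G.card : ℝ) / 9 * L)) := by
  have h := (dens hR hC hP).div_const 6
  have e : (2 * ((G.card : ℝ) * (L * (1 / 3)))) / 6 = (G.card : ℝ) / 9 * L := by ring
  rw [e] at h
  refine h.congr fun X => ?_
  rw [cnt_AR]
  push_cast
  rw [div_div, mul_comm ((SR R X).card : ℝ)]

/-- positive density -/
theorem ar_low {R : Finset Ei} (hR : ∀ π ∈ R, Pq π) : ∃ c : ℝ, 0 < c ∧ ∃ X₀ : ℕ, ∀ X : ℕ, X₀ ≤ X →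
    c * X ≤ ({D : Ei | nr D ≤ X ∧ AR R D}.ncard : ℝ) := by
  obtain ⟨c, X₀, h1, h2⟩ := sr_low R hR
  refine ⟨c, h1, X₀, fun X hX => ?_⟩
  rw [cnt_AR]
  push_cast
  have h3 := h2 X hX
  have h4 : (0 : ℝ) ≤ ((SR R X).card : ℝ) := Nat.cast_nonneg _
  linarith

end Pool.Agent.H462.JL
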