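import Pool.Agent.H462.JL.Asy
import Pool.Agent.H462.CTU.Law.Cou

/-!
# The squarefree primary elements prime to a finite set of primes are equidistributed modulo nine
-/

set_option autoImplicit false

open scoped Classical
open Finset Filter

namespace Pool.Agent.H462.JL

open Pool.Agent.Y692.QS (Ei w nr nr_nonneg)
open Pool.Agent.Y715.T.RecG (Pq)
open Pool.Agent.Y699.E
open Pool.Agent.H462.CTU.Chr (nq)
open Pool.Agent.H462.CTU.Law
open Pool.Agent.H462.CTU.Law.Equ

/-- not divisible by the elements of `P` -/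
def cop (P : Finset Ei) (n : Ei) : Prop := ∀ π ∈ P, ¬ π ∣ n

lemma mul_mem1 {ρ : Ei} (hρ : Pq ρ) {v : ℕ} {m : Ei} :
    ρ * m ∈ PB v ↔ m ∈ PB (v / nrm ρ) := by
  rw [mem_PB, mem_PB, nrm_mul, Nat.le_div_iff_mul_le (nrm_pos' (pq_ne hρ)),
    mul_comm (nrm m)]
  exact and_congr_right fun _ => ⟨fun h => prm_cancel hρ.three h, fun h => prm_mul hρ.three h⟩

lemma cop_mul {P : Finset Ei} (hP : ∀ π ∈ P, Pq π) {ρ : Ei} (hρ : Pq ρ) (hn : ρ ∉ P) {m : Ei} :
    cop P (ρ * m) ↔ cop P m := by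
  unfold cop
  refine forall₂_congr fun π hπ => not_congr ?_
  have hne : π ≠ ρ := fun h => hn (h ▸ hπ)
  have hc : IsCoprime π ρ := pq_cop (hP π hπ) hρ hne
  exact ⟨fun h => hc.dvd_of_dvd_mul_left h, fun h => h.mul_left _⟩

/-- the multiples of a prime -/
lemma sum_mult1 {P : Finset Ei} (hP : ∀ π ∈ P, Pq π) {ρ : Ei} (hρ : Pq ρ) (hn : ρ ∉ P)
    {M : Type*} [AddCommMonoid M] (f : Ei → M) (v : ℕ) :
    ∑ d ∈ ((PB v).filter (cop P)).filter (fun d => ρ ∣ d), f d =
      ∑ m ∈ (PB (v / nrm ρ)).filter (cop P), f (ρ * m) := by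
  symm
  refine sum_bij (fun m _ => ρ * m) ?_ ?_ ?_ ?_
  · intro m hm
    rw [mem_filter] at hm
    rw [mem_filter, mem_filter]
    exact ⟨⟨(mul_mem1 hρ).2 hm.1, (cop_mul hP hρ hn).2 hm.2⟩, dvd_mul_right _ _⟩
  · intro a _ b _ h
    exact mul_left_cancel₀ (pq_ne hρ) h
  · intro d hd
    rw [mem_filter, mem_filter] at hd
    obtain ⟨⟨h1, h2⟩, m, rfl⟩ := hd
    exact ⟨m, by
      rw [mem_filter]
      exact ⟨(mul_mem1 hρ).1 h1, (cop_mul hP hρ hn).1 h2⟩, rfl⟩
  · intro a _
    rfl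

/-- the sieve by finitely many primes -/
theorem sieve1 {χ : Ei → ℂ} (hmul : ∀ a b, χ (a * b) = χ a * χ b) (hχ : ∀ a, ‖χ a‖ ≤ 1) {C : ℝ}
    (hC : 0 ≤ C) (h : ∀ v : ℕ, ‖∑ d ∈ PB v, χ d‖ ≤ C * Real.sqrt v) (P : Finset Ei)
    (hP : ∀ π ∈ P, Pq π) :
    ∀ v : ℕ, ‖∑ d ∈ (PB v).filter (cop P), χ d‖ ≤ 2 ^ P.card * C * Real.sqrt v := by
  induction P using Finset.induction_on with
  | empty =>
    intro v
    have e : (PB v).filter (cop ∅) = PB v := by
      rw [filter_eq_self]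
      intro d _ π hπ
      exact absurd hπ (notMem_empty _)
    rw [e, card_empty, pow_zero, one_mul]
    exact h v
  | insert ρ P hρP ih =>
    intro v
    have hP' : ∀ π ∈ P, Pq π := fun π hπ => hP π (mem_insert_of_mem hπ)
    have hρ : Pq ρ := hP ρ (mem_insert_self _ _)
    have ih' := ih hP'
    have e1 : (PB v).filter (cop (insert ρ P)) =
        ((PB v).filter (cop P)).filter (fun d => ¬ ρ ∣ d) := by
      rw [filter_filter]
      refine filter_congr fun d _ => ?_
      unfold cop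
      simp only [mem_insert, forall_eq_or_imp]
      exact and_comm
    have e2 := sum_filter_add_sum_filter_not ((PB v).filter (cop P)) (fun d => ρ ∣ d) χ
    rw [sum_mult1 hP' hρ hρP] at e2
    have e3 : ∑ m ∈ (PB (v / nrm ρ)).filter (cop P), χ (ρ * m) =
        χ ρ * ∑ m ∈ (PB (v / nrm ρ)).filter (cop P), χ m := by
      rw [mul_sum]
      exact sum_congr rfl fun m _ => hmul _ _
    rw [e3] at e2
    rw [e1]
    have e4 : ∑ d ∈ ((PB v).filter (cop P)).filter (fun d => ¬ ρ ∣ d), χ d =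
        ∑ d ∈ (PB v).filter (cop P), χ d -
          χ ρ * ∑ m ∈ (PB (v / nrm ρ)).filter (cop P), χ m := by
      rw [← e2]; ring
    rw [e4, card_insert_of_notMem hρP]
    refine (norm_sub_le _ _).trans ?_
    rw [norm_mul]
    have h1 := ih' v
    have h2 := ih' (v / nrm ρ)
    have h3 : Real.sqrt ((v / nrm ρ : ℕ) : ℝ) ≤ Real.sqrt v :=
      Real.sqrt_le_sqrt (by exact_mod_cast Nat.div_le_self _ _)
    have h4 : ‖χ ρ‖ * ‖∑ m ∈ (PB (v / nrm ρ)).filter (cop P), χ m‖ ≤
        1 * (2 ^ P.card * C * Real.sqrt v) :=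
      mul_le_mul (hχ _) (h2.trans (mul_le_mul_of_nonneg_left h3 (by positivity)))
        (norm_nonneg _) (by norm_num)
    have h5 : (2 : ℝ) ^ (P.card + 1) * C * Real.sqrt v = 2 ^ P.card * C * Real.sqrt v +
        2 ^ P.card * C * Real.sqrt v := by ring
    linarith

/-- the squarefree primary elements prime to `R` -/
noncomputable def SR (R : Finset Ei) (X : ℕ) : Finset Ei := (SB X).filter (cop R)

lemma mem_SR {R : Finset Ei} {X : ℕ} {n : Ei} : n ∈ SR R X ↔ (nrm n ≤ X ∧ PS n) ∧ cop R n := by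
  unfold SR
  rw [mem_filter, mem_SB]

/-- the character restricted to the elements prime to `R` -/
noncomputable def chR (R : Finset Ei) (χ : Ei → ℂ) (n : Ei) : ℂ := if cop R n then χ n else 0

lemma cop_prod {R : Finset Ei} (hR : ∀ π ∈ R, Pq π) {a b : Ei} :
    cop R (a * b) ↔ cop R a ∧ cop R b := by
  unfold cop
  constructor
  · intro h
    exact ⟨fun π hπ hd => h π hπ (hd.mul_right _), fun π hπ hd => h π hπ (hd.mul_left _)⟩
  · rintro ⟨h1, h2⟩ π hπ hd
    rcases (hR π hπ).prime.dvd_or_dvd hd with h | h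
    · exact h1 π hπ h
    · exact h2 π hπ h

lemma chR_mul {R : Finset Ei} (hR : ∀ π ∈ R, Pq π) {χ : Ei → ℂ}
    (hmul : ∀ a b, χ (a * b) = χ a * χ b) (a b : Ei) :
    chR R χ (a * b) = chR R χ a * chR R χ b := by
  unfold chR
  by_cases h1 : cop R a
  · by_cases h2 : cop R b
    · rw [if_pos ((cop_prod hR).2 ⟨h1, h2⟩), if_pos h1, if_pos h2, hmul]
    · rw [if_neg fun h => h2 ((cop_prod hR).1 h).2, if_neg h2, mul_zero]
  · rw [if_neg fun h => h1 ((cop_prod hR).1 h).1, if_neg h1, zero_mul]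

lemma mean9R {R : Finset Ei} (hR : ∀ π ∈ R, Pq π) {c : ZMod 3} (hc : c ≠ 0) (ε : ℝ) (hε : 0 < ε) :
    ∃ X₀ : ℕ, ∀ X : ℕ, X₀ ≤ X → ‖∑ n ∈ SR R X, ez (c * nq n)‖ ≤ ε * X := by
  have hch := yab_ch c PS_one PS_one
  have hn1 : ∀ a, ‖chR R (yab c 1 1) a‖ ≤ 1 := by
    intro a
    unfold chR
    by_cases h : cop R a
    · rw [if_pos h]
      exact Equ.CH.norm_le hch a
    · rw [if_neg h, norm_zero]
      norm_num
  have hs : ∀ v : ℕ, ‖∑ d ∈ PB v, yab c 1 1 d‖ ≤ 972 * Real.sqrt v := by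
    intro v
    rcases Nat.eq_zero_or_pos v with h0 | h0
    · rw [h0, PB_zero, sum_empty, norm_zero]
      positivity
    · refine (chs_le_c hc PS_one PS_one h0).trans (le_of_eq ?_)
      rw [nrm_one]
      push_cast
      ring
  have h2 := sieve1 hch.mul (Equ.CH.norm_le hch) (by norm_num) hs R hR
  have h := mean (χ := chR R (yab c 1 1)) (chR_mul hR hch.mul) hn1 (C := 2 ^ R.card * 972)
    (by positivity) ?_ ε hε
  · obtain ⟨X₀, h⟩ := h
    refine ⟨X₀, fun X hX => ?_⟩
    have h3 := h X hX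
    unfold SR
    rw [sum_filter]
    rwa [sum_congr rfl fun n hn => ?_] at h3
    unfold chR
    rw [yab_one c (mem_SB.1 hn).2.prm]
  · intro v
    have h3 := h2 v
    rwa [sum_filter] at h3

lemma ez_sum3 (d : ZMod 3) : 1 + ez (1 * d) + ez (2 * d) = if d = 0 then 3 else 0 := by
  rw [add_assoc, Equ.ez_sum]
  by_cases h : d = 0
  · rw [if_pos h, if_pos h]
    norm_num
  · rw [if_neg h, if_neg h]
    norm_num

/-- **equidistribution** -/
theorem equR {R : Finset Ei} (hR : ∀ π ∈ R, Pq π) (s : ZMod 3) (ε : ℝ) (hε : 0 < ε) :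
    ∃ X₀ : ℕ, ∀ X : ℕ, X₀ ≤ X →
    |3 * (((SR R X).filter fun n => nq n = s).card : ℝ) - ((SR R X).card : ℝ)| ≤ ε * X := by
  obtain ⟨X₁, h1⟩ := mean9R hR (c := 1) (by decide) (ε / 2) (by positivity)
  obtain ⟨X₂, h2⟩ := mean9R hR (c := 2) (by decide) (ε / 2) (by positivity)
  refine ⟨max X₁ X₂, fun X hX => ?_⟩
  have h3 := h1 X ((le_max_left _ _).trans hX)
  have h4 := h2 X ((le_max_right _ _).trans hX)
  have hc : ∀ c : ZMod 3, ∑ n ∈ SR R X, ez (c * (nq n - s)) =
      ez (-(c * s)) * ∑ n ∈ SR R X, ez (c * nq n) := by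
    intro c
    rw [mul_sum]
    refine sum_congr rfl fun n _ => ?_
    rw [← ez_add]
    congr 1
    ring
  have e : ((3 * (((SR R X).filter fun n => nq n = s).card : ℝ) - ((SR R X).card : ℝ) : ℝ) : ℂ) =
      ∑ n ∈ SR R X, ez (1 * (nq n - s)) + ∑ n ∈ SR R X, ez (2 * (nq n - s)) := by
    have h5 : ∑ n ∈ SR R X, (1 + ez (1 * (nq n - s)) + ez (2 * (nq n - s))) =
        3 * (((SR R X).filter fun n => nq n = s).card : ℂ) := by
      rw [sum_congr rfl fun n _ => ez_sum3 (nq n - s), ← sum_filter, sum_const, nsmul_eq_mul]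
      rw [mul_comm]
      congr 3
      refine filter_congr fun n _ => ?_
      exact sub_eq_zero
    rw [sum_add_distrib, sum_add_distrib, sum_const, nsmul_eq_mul, mul_one] at h5
    push_cast
    linear_combination -h5
  have e2 : |3 * (((SR R X).filter fun n => nq n = s).card : ℝ) - ((SR R X).card : ℝ)| =
      ‖∑ n ∈ SR R X, ez (1 * (nq n - s)) + ∑ n ∈ SR R X, ez (2 * (nq n - s))‖ := by
    rw [← e, Complex.norm_real, Real.norm_eq_abs]
  rw [e2, hc, hc]
  refine (norm_add_le _ _).trans ?_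
  rw [norm_mul, norm_mul, ez_norm, ez_norm, one_mul, one_mul]
  linarith

/-- the squarefree primary elements prime to `R` have positive density -/
theorem sr_low (R : Finset Ei) (hR : ∀ π ∈ R, Pq π) :
    ∃ (c : ℝ) (X₀ : ℕ), 0 < c ∧ ∀ X : ℕ, X₀ ≤ X → c * X ≤ ((SR R X).card : ℝ) := by
  have key : ∀ X, (SB X).card ≤ 2 ^ R.card * (SR R X).card := by
    intro X
    induction R using Finset.induction_on with
    | empty =>
      have e : SR ∅ X = SB X := by
        unfold SR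
        rw [filter_eq_self]
        intro d _ π hπ
        exact absurd hπ (notMem_empty _)
      rw [e, card_empty, pow_zero, one_mul]
    | insert ρ P hρP ih =>
      have hP' : ∀ π ∈ P, Pq π := fun π hπ => hR π (mem_insert_of_mem hπ)
      have hρ : Pq ρ := hR ρ (mem_insert_self _ _)
      refine (ih hP').trans ?_
      rw [card_insert_of_notMem hρP, pow_succ, mul_assoc]
      refine Nat.mul_le_mul_left _ ?_
      have h1 : SR P X ⊆ SR (insert ρ P) X ∪ (SR (insert ρ P) X).image (fun m => ρ * m) := by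
        intro n hn
        rw [mem_SR] at hn
        obtain ⟨⟨h1, h2⟩, h3⟩ := hn
        rw [mem_union]
        by_cases hd : ρ ∣ n
        · right
          obtain ⟨m, rfl⟩ := hd
          rw [mem_image]
          refine ⟨m, ?_, rfl⟩
          rw [mem_SR]
          have h4 : cop P m := (cop_mul hP' hρ hρP).1 h3
          refine ⟨⟨?_, prm_cancel hρ.three h2.prm, h2.sqf.squarefree_of_dvd (dvd_mul_left _ _)⟩, ?_⟩
          · rw [nrm_mul] at h1
            exact (Nat.le_mul_of_pos_left _ (nrm_pos' (pq_ne hρ))).trans h1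
          · intro π hπ
            rw [mem_insert] at hπ
            rcases hπ with rfl | hπ
            · intro h5
              exact hρ.prime.not_isUnit (h2.sqf _ (mul_dvd_mul_left _ h5))
            · exact h4 π hπ
        · left
          rw [mem_SR]
          refine ⟨⟨h1, h2⟩, fun π hπ => ?_⟩
          rw [mem_insert] at hπ
          rcases hπ with rfl | hπ
          · exact hd
          · exact h3 π hπ
      have h2 := card_le_card h1
      have h3 := h2.trans (card_union_le _ _)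
      have h4 := card_image_le (s := SR (insert ρ P) X) (f := fun m => ρ * m)
      omega
  obtain ⟨c, X₀, hc, h⟩ := Pool.Agent.H462.CTU.Law.Cou.sb_low
  refine ⟨c / 2 ^ R.card, X₀, by positivity, fun X hX => ?_⟩
  have h1 := h X hX
  have h2 : ((SB X).card : ℝ) ≤ 2 ^ R.card * ((SR R X).card : ℝ) := by exact_mod_cast key X
  rw [div_mul_eq_mul_div, div_le_iff₀ (by positivity)]
  linarith

/-! ### the sets -/

/-- the sum of the `nq` -/
lemma nq_PD {n : Ei} (hn : PS n) : ∑ π ∈ PD n, nq π = nq n := by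
  have h : ∀ S : Finset Ei, (∀ π ∈ S, Pq π) → (3 : ℤ) ∣ nr (∏ π ∈ S, π) - 1 ∧
      ∑ π ∈ S, nq π = nq (∏ π ∈ S, π) := by
    intro S
    induction S using Finset.induction_on with
    | empty =>
      intro _
      rw [prod_empty, sum_empty]
      exact ⟨by decide, by decide⟩
    | insert a S ha ih =>
      intro hS
      obtain ⟨h1, h2⟩ := ih fun π hπ => hS π (mem_insert_of_mem hπ)
      have h4 : (3 : ℤ) ∣ nr a - 1 :=
        Pool.Agent.H462.CTU.LK.pq_nr (hS a (mem_insert_self _ _))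
      rw [prod_insert ha, sum_insert ha, h2, Pool.Agent.H462.CTU.Chr.nq_mul h4 h1]
      refine ⟨?_, rfl⟩
      rw [Pool.Agent.Y692.QS.nr_mul]
      obtain ⟨x, hx⟩ := h4
      obtain ⟨y, hy⟩ := h1
      refine ⟨x * nr (∏ π ∈ S, π) + y, ?_⟩
      linear_combination (nr (∏ π ∈ S, π)) * hx + hy
  have h1 := (h (PD n) fun π hπ => ((mem_PD hn.ne).1 hπ).1).2
  rwa [hn.prod] at h1

lemma Cs_PD {R : Finset Ei} (hR : ∀ π ∈ R, Pq π) {s : ZMod 3} {n : Ei} (hn : PS n) :
    Cs R s (PD n) ↔ cop R n ∧ nq n = s := by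
  unfold Cs
  rw [nq_PD hn]
  refine and_congr_left fun _ => ?_
  rw [disjoint_left]
  constructor
  · intro h π hπ hd
    exact h hπ ((mem_PD hn.ne).2 ⟨hR π hπ, hd⟩)
  · intro h π hπ hd
    exact h π hπ ((mem_PD hn.ne).1 hd).2

/-- the sets and the elements -/
lemma card_Cs {R : Finset Ei} (hR : ∀ π ∈ R, Pq π) (s : ZMod 3) (X : ℕ) (Q : Finset Ei → Prop) :
    ((SS X).filter fun S => Cs R s S ∧ Q S).card =
      ((SR R X).filter fun n => nq n = s ∧ Q (PD n)).card := by
  have h := Pool.Agent.H462.CTU.Law.Cou.card_sets X (fun S => Cs R s S ∧ Q S)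
  unfold Pool.Agent.H462.CTU.Law.Cou.ct at h
  have h2 : ((SR R X).filter fun n => nq n = s ∧ Q (PD n)).card =
      ((SB X).filter fun n => Cs R s (PD n) ∧ Q (PD n)).card := by
    unfold SR
    rw [filter_filter]
    congr 1
    refine filter_congr fun n hn => ?_
    rw [Cs_PD hR (mem_SB.1 hn).2, and_assoc]
  rw [h2]
  convert h.symm

end Pool.Agent.H462.JL
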