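import Pool.Agent.H462.JL.Mat
import Pool.Agent.H462.JL.Key
import Pool.Agent.H462.CTU.Law.Box

/-!
# The joint law of the coranks of `A_1 D, …, A_m D`: definitions
-/

set_option autoImplicit false

open scoped Classical

namespace Pool.Agent.H462.JL

open Finset
open Pool.Agent.Y692.QS (Ei w nr toC)
open Pool.Agent.Y715.T.Rec (cs)
open Pool.Agent.Y715.T.RecG (Pq)
open Pool.Agent.Y699.E (nrm)
open Pool.Agent.H462.CTU.Chr (nq)
open Pool.Agent.H462.CTU.Law

/-- the exponent of a prime in `A D` -/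
noncomputable def ee (R : Finset Ei) (f : Ei → ZMod 3) (ρ : Ei) : ZMod 3 := if ρ ∈ R then f ρ else 1

/-- the number of the solutions of the weighted Laplacian system of a set -/
noncomputable def nJ (k : ZMod 3) (e : Ei → ZMod 3) (T : Finset Ei) : ℕ :=
  Nat.card {v : Option T → ZMod 3 // ∀ π : T, e π * (k * nq (π : Ei) * (v none - v (some π)) +
    ∑ ρ : T, e ρ * cs π ρ * (v (some ρ) - v (some π))) = 0}

/-- the order of the space of the trivial solutions -/
noncomputable def KK (R : Finset Ei) (f : Ei → ZMod 3) (k : ZMod 3) : ℕ :=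
  3 * 3 ^ ((if k = 0 then 1 else 0) + (R.filter fun ρ => f ρ = 0).card)

section
variable {I : Type} (R : Finset Ei) (f : I → Ei → ZMod 3) (k : I → ZMod 3)

/-- the coranks are given -/
def Gj (r : I → ℕ) (S : Finset Ei) : Prop :=
  ∀ i, nJ (k i) (ee R (f i)) (R ∪ S) = 3 ^ r i * KK R (f i) (k i)

/-- the symbol of the quotient of two of the `A_i` -/
noncomputable def dl (i j : I) (π : Ei) : ZMod 3 :=
  (k i - k j) * nq π + ∑ u ∈ R, (f i u - f j u) * cs u π

/-- the condition for a set -/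
def Wj (V : ℕ) (s : ZMod 3) (S₀ S₁ : Finset Ei) : Prop :=
  Nd (R ∪ S₀) S₁ ∧ (∀ i j, i ≠ j → 2 * S₀.card + V ≤ (S₁.filter fun π => dl R f k i j π ≠ 0).card) ∧
  Disjoint R S₀ ∧ ∑ π ∈ S₀, nq π + ∑ π ∈ S₁, nq π = s

end

end Pool.Agent.H462.JL
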