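import Pool.Agent.H462.JL.Gen
import Pool.Agent.H462.JL.Stm

/-!
# Few sets have few primes with a nontrivial symbol
-/

set_option autoImplicit false

open scoped Classical

namespace Pool.Agent.H462.JL

open Finset Filter
open Pool.Agent.Y692.QS (Ei nr)
open Pool.Agent.Y715.T.Rec (cs)
open Pool.Agent.Y715.T.RecG (Pq)
open Pool.Agent.Y699.E
open Pool.Agent.Y703.CX (eL zz kk)
open Pool.Agent.Y703.XK (sm la bl)
open Pool.Agent.Y433.XK (pN pN_pos M_le small_sum)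
open Pool.Agent.H462.CTU.Chr (nq)
open Pool.Agent.H462.CTU.Law

/-! ### mean values -/

/-- the logarithmic mean of a power of `1 / 24` -/
theorem s1_const : ∃ C : ℝ, 0 < C ∧ ∀ T : ℕ, 3 ≤ T →
    ∑ n ∈ SB T, mf (fun _ => 1 / 24) n / nrm n ≤ C * (lg T) ^ (1 / 12 : ℝ) := by
  obtain ⟨C, hC0, hC⟩ := M_le
  refine ⟨Real.exp (C / 24), Real.exp_pos _, fun T hT => ?_⟩
  have h1 : ∑ n ∈ SB T, mf (fun _ => 1 / 24) n / nrm n ≤
      ∑ S ∈ (QB T).powerset, (1 / 24 : ℝ) ^ S.card * (1 / (pN S : ℝ)) := by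
    refine sum_le_inj (fun n => PD n) ?_ ?_ ?_ ?_
    · intro n hn
      rw [mem_SB] at hn
      rw [mem_powerset]
      intro π hπ
      obtain ⟨h2, h3⟩ := (mem_PD hn.2.ne).1 hπ
      rw [mem_QB]
      exact ⟨(norm_le_of_dvd hn.2.ne h3).trans hn.1, h2⟩
    · intro n hn m hm h
      rw [mem_SB] at hn hm
      rw [← hn.2.prod, ← hm.2.prod]
      exact congrArg (fun S : Finset Ei => ∏ π ∈ S, π) h
    · intro n hn
      rw [mem_SB] at hn
      refine le_of_eq ?_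
      unfold mf pN
      rw [prod_const, ← nrm_prod, hn.2.prod, mul_one_div]
    · intro S _
      positivity
  refine h1.trans ((small_sum (1 / 24) (by norm_num) T).trans ?_)
  have hT0 : (0 : ℝ) < T := by exact_mod_cast (by omega : 0 < T)
  have hlog : 1 < Real.log T := by
    rw [Real.lt_log_iff_exp_lt hT0]
    have h3 : (3 : ℝ) ≤ T := by exact_mod_cast hT
    have := Real.exp_one_lt_d9
    linarith
  have hlg : Real.log T ≤ lg T := log_le_lg (by omega)
  have h2 : Real.exp (1 / 24 * ∑ π ∈ QB T, (1 : ℝ) / nrm π) ≤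
      Real.exp (C / 24) * (Real.log T) ^ (1 / 12 : ℝ) := by
    rw [Real.rpow_def_of_pos (by linarith), ← Real.exp_add]
    apply Real.exp_le_exp.2
    have := hC T hT
    linarith
  refine h2.trans (mul_le_mul_of_nonneg_left ?_ (Real.exp_pos _).le)
  exact Real.rpow_le_rpow (by linarith) hlg (by norm_num)

/-- the logarithmic mean of a sum -/
theorem s1_mul {a b : Ei → ℝ} (ha : ∀ π, 0 ≤ a π) (hb : ∀ π, 0 ≤ b π) (T : ℕ) :
    ∑ n ∈ SB T, mf (fun π => a π + b π) n / nrm n ≤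
      (∑ n ∈ SB T, mf a n / nrm n) * ∑ n ∈ SB T, mf b n / nrm n := by
  rw [sum_mul_sum, ← sum_product']
  have e1 : ∑ n ∈ SB T, mf (fun π => a π + b π) n / nrm n =
      ∑ x ∈ (SB T).sigma (fun n => (PD n).powerset),
        ((∏ π ∈ x.2, a π) * ∏ π ∈ PD x.1 \ x.2, b π) / nrm x.1 := by
    rw [sum_sigma]
    refine sum_congr rfl fun n _ => ?_
    unfold mf
    rw [prod_add, sum_div]
  have key : ∀ x ∈ (SB T).sigma (fun n => (PD n).powerset),
      PS (∏ π ∈ x.2, π) ∧ PD (∏ π ∈ x.2, π) = x.2 ∧ PS (∏ π ∈ PD x.1 \ x.2, π) ∧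
      PD (∏ π ∈ PD x.1 \ x.2, π) = PD x.1 \ x.2 ∧
      (∏ π ∈ x.2, π) * (∏ π ∈ PD x.1 \ x.2, π) = x.1 := by
    rintro ⟨n, D⟩ hx
    rw [mem_sigma, mem_SB, mem_powerset] at hx
    obtain ⟨⟨h1, h2⟩, h3⟩ := hx
    have h4 : ∀ π ∈ PD n, Pq π := fun π hπ => ((mem_PD h2.ne).1 hπ).1
    have h5 := PS_prod (S := D) fun π hπ => h4 π (h3 hπ)
    have h6 := PS_prod (S := PD n \ D) fun π hπ => h4 π (mem_sdiff.1 hπ).1
    refine ⟨h5.1, h5.2, h6.1, h6.2, ?_⟩
    show (∏ π ∈ D, π) * (∏ π ∈ PD n \ D, π) = n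
    rw [mul_comm, prod_sdiff h3, h2.prod]
  rw [e1]
  refine sum_le_inj (fun x => (∏ π ∈ x.2, π, ∏ π ∈ PD x.1 \ x.2, π)) ?_ ?_ ?_ ?_
  · intro x hx
    obtain ⟨k1, k2, k3, k4, k5⟩ := key x hx
    have hT : nrm x.1 ≤ T := (mem_SB.1 (mem_sigma.1 hx).1).1
    rw [mem_product, mem_SB, mem_SB]
    have h1 : nrm (∏ π ∈ x.2, π) * nrm (∏ π ∈ PD x.1 \ x.2, π) ≤ T := by
      rw [← nrm_mul, k5]
      exact hT
    have p1 := nrm_pos' k1.ne
    have p2 := nrm_pos' k3.ne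
    exact ⟨⟨(Nat.le_mul_of_pos_right _ p2).trans h1, k1⟩,
      ⟨(Nat.le_mul_of_pos_left _ p1).trans h1, k3⟩⟩
  · intro x hx y hy h
    obtain ⟨k1, k2, k3, k4, k5⟩ := key x hx
    obtain ⟨l1, l2, l3, l4, l5⟩ := key y hy
    obtain ⟨h1, h2⟩ := Prod.mk.inj h
    obtain ⟨n, D⟩ := x
    obtain ⟨m, E⟩ := y
    have e2 : n = m := by
      have k5' : (∏ π ∈ D, π) * (∏ π ∈ PD n \ D, π) = n := k5
      have l5' : (∏ π ∈ E, π) * (∏ π ∈ PD m \ E, π) = m := l5
      rw [← k5', ← l5']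
      exact congrArg₂ (· * ·) h1 h2
    have e3 : D = E := by
      have k2' : PD (∏ π ∈ D, π) = D := k2
      have l2' : PD (∏ π ∈ E, π) = E := l2
      rw [← k2', ← l2']
      exact congrArg PD h1
    rw [e2, e3]
  · intro x hx
    obtain ⟨k1, k2, k3, k4, k5⟩ := key x hx
    refine le_of_eq ?_
    show _ = mf a (∏ π ∈ x.2, π) / nrm (∏ π ∈ x.2, π) *
      (mf b (∏ π ∈ PD x.1 \ x.2, π) / nrm (∏ π ∈ PD x.1 \ x.2, π))
    have e2 : (nrm x.1 : ℝ) = nrm (∏ π ∈ x.2, π) * nrm (∏ π ∈ PD x.1 \ x.2, π) := by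
      conv_lhs => rw [← k5, nrm_mul]
      push_cast
      rfl
    rw [e2]
    unfold mf
    rw [k2, k4, div_mul_div_comm]
  · intro x _
    have h1 := mf_nonneg ha x.1
    have h2 := mf_nonneg hb x.2
    positivity

/-- the logarithmic mean for a character -/
theorem s1_char {χ : Ei → ℂ} (hch : CH χ) {N : ℕ} (hN1 : 1 ≤ N)
    (hle : ∀ v : ℕ, 1 ≤ v → ‖∑ d ∈ PB v, χ d‖ ≤ 108 * N * Real.sqrt v) {T : ℕ} :
    ∑ n ∈ SB T, mf (fun π => (1 + 2 * (χ π).re) / 3) n / nrm n ≤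
      135 * (lg N) ^ (1 / 3 : ℝ) * (lg T) ^ (2 / 3 : ℝ) := by
  have hl := one_le_lg N
  have hlT := lg_pos T
  have hAA : ∑ n ∈ PB (T ^ 3), mf (fun π => 3 * ((1 + 2 * (χ π).re) / 3)) n / nrm n ≤
      (2460375 * lg N) * lg T ^ 2 := by
    have e1 : (fun π : Ei => 3 * ((1 + 2 * (χ π).re) / 3)) = fun π => 1 + 2 * (χ π).re := by
      funext π; ring
    rw [e1]
    refine (conv_bound hch (chs_logX hch hN1 hle) (T ^ 3)).trans ?_
    have e5 := lg_cube T
    have e6 := lg_pos (T ^ 3)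
    have e7 : (32 * lg (T ^ 3)) ^ 2 ≤ (96 * lg T) ^ 2 := by
      apply pow_le_pow_left₀ (by positivity)
      linarith
    calc (32 * lg (T ^ 3)) ^ 2 * (264 * lg N) ≤ (96 * lg T) ^ 2 * (264 * lg N) := by
          apply mul_le_mul_of_nonneg_right e7 (by positivity)
      _ = 2433024 * (lg N * lg T ^ 2) := by ring
      _ ≤ 2460375 * (lg N * lg T ^ 2) := by
          have : 0 ≤ lg N * lg T ^ 2 := by positivity
          linarith
      _ = _ := by ring
  have hv := fun π => hch.val π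
  have h0 : ∀ π, 0 ≤ (1 + 2 * (χ π).re) / 3 := fun π => by
    have := re_nonneg (hv π)
    linarith
  have h1 : ∀ π, (1 + 2 * (χ π).re) / 3 ≤ 1 := fun π => by
    have := re_le (hv π)
    linarith
  have h3 := (hall3 h0 h1 T).trans hAA
  have A0 : (0 : ℝ) < 2460375 * lg N := by linarith
  have h4 : ∑ n ∈ SB T, mf (fun π => (1 + 2 * (χ π).re) / 3) n / nrm n ≤
      (2460375 * lg N) ^ (1 / 3 : ℝ) * (lg T) ^ (2 / 3 : ℝ) := by
    apply le_of_pow_le_pow_left₀ (n := 3) (by norm_num) (by positivity)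
    refine h3.trans (le_of_eq ?_)
    rw [mul_pow, ← Real.rpow_natCast, ← Real.rpow_natCast, ← Real.rpow_natCast,
      ← Real.rpow_mul A0.le, ← Real.rpow_mul hlT.le]
    norm_num
  refine h4.trans (le_of_eq ?_)
  congr 1
  rw [Real.mul_rpow (by norm_num) (by linarith)]
  congr 1
  rw [show (2460375 : ℝ) = 135 ^ (3 : ℝ) by norm_num, ← Real.rpow_mul (by norm_num)]
  norm_num

/-- the weight -/
noncomputable def gw (χ : Ei → ℂ) (π : Ei) : ℝ :=
  (1 + 2 * (χ π).re) / 3 + 1 / 24 * (1 - (1 + 2 * (χ π).re) / 3)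

/-- **the mean value of the weight** -/
theorem hallZ {χ : Ei → ℂ} (hch : CH χ) {N : ℕ} (hN1 : 1 ≤ N)
    (hle : ∀ v : ℕ, 1 ≤ v → ‖∑ d ∈ PB v, χ d‖ ≤ 108 * N * Real.sqrt v) :
    ∃ C : ℝ, 0 < C ∧ ∀ T : ℕ, ∑ n ∈ SB T, mf (gw χ) n ≤ C * (T * (lg T) ^ (-(1 / 4) : ℝ)) := by
  obtain ⟨C, hC0, hC⟩ := s1_const
  have hl := one_le_lg N
  have hv := fun π => hch.val π
  have h0 : ∀ π, 0 ≤ (1 + 2 * (χ π).re) / 3 := fun π => by
    have := re_nonneg (hv π)
    linarith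
  have h1 : ∀ π, (1 + 2 * (χ π).re) / 3 ≤ 1 := fun π => by
    have := re_le (hv π)
    linarith
  have g0 : ∀ π, 0 ≤ gw χ π := fun π => by
    have := h0 π
    have := h1 π
    unfold gw
    linarith
  have g1 : ∀ π, gw χ π ≤ 1 := fun π => by
    have := h0 π
    have := h1 π
    unfold gw
    linarith
  obtain ⟨B, hB⟩ : ∃ B : ℝ, B = 21 * (135 * (lg N) ^ (1 / 3 : ℝ) * C) := ⟨_, rfl⟩
  have hB0 : 0 < B := by rw [hB]; positivity
  refine ⟨max B 32, lt_max_of_lt_left hB0, fun T => ?_⟩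
  have hlT := lg_pos T
  have hTT : 0 ≤ (T : ℝ) * (lg T) ^ (-(1 / 4) : ℝ) := by positivity
  rcases Nat.lt_or_ge T 3 with hT | hT
  · refine le_trans ?_ (mul_le_mul_of_nonneg_right (le_max_right B 32) hTT)
    rcases Nat.eq_zero_or_pos T with h2 | h2
    · rw [SB_empty h2, sum_empty]
      positivity
    · have h3 : ∑ n ∈ SB T, mf (gw χ) n ≤ 16 * T := by
        refine (sum_le_sum fun n _ => mf_le_one g0 g1 n).trans ?_
        rw [sum_const, nsmul_eq_mul, mul_one]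
        exact card_SB_le h2
      have h4 : (1 : ℝ) / 2 ≤ (lg T) ^ (-(1 / 4) : ℝ) := by
        have h5 : lg T ≤ 2 := by
          unfold lg
          have h6 : Nat.log 2 T ≤ 1 := by
            have := Nat.log_mono_right (b := 2) (show T ≤ 2 by omega)
            have e : Nat.log 2 2 = 1 := by norm_num
            omega
          have h7 : (Nat.log 2 T : ℝ) ≤ 1 := by exact_mod_cast h6
          linarith
        have h6 : (2 : ℝ) ^ (-(1 / 4) : ℝ) ≤ (lg T) ^ (-(1 / 4) : ℝ) :=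
          Real.rpow_le_rpow_of_nonpos hlT h5 (by norm_num)
        have h7 : (2 : ℝ) ^ (-1 : ℝ) ≤ (2 : ℝ) ^ (-(1 / 4) : ℝ) :=
          Real.rpow_le_rpow_of_exponent_le (by norm_num) (by norm_num)
        rw [Real.rpow_neg_one] at h7
        linarith
      have hT0 : (0 : ℝ) ≤ T := Nat.cast_nonneg _
      nlinarith
  · refine le_trans ?_ (mul_le_mul_of_nonneg_right (le_max_left B 32) hTT)
    have hT0 : (0 : ℝ) < T := by exact_mod_cast (by omega : 0 < T)
    obtain ⟨S, hS⟩ : ∃ S, S = ∑ n ∈ SB T, mf (gw χ) n := ⟨_, rfl⟩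
    obtain ⟨S1, hS1⟩ : ∃ S1, S1 = ∑ n ∈ SB T, mf (gw χ) n / nrm n := ⟨_, rfl⟩
    have h2 := hall1 g0 g1 (T := T) (by omega)
    rw [← hS, ← hS1] at h2
    rw [← hS]
    have hS0 : 0 ≤ S := by
      rw [hS]
      exact sum_nonneg fun n _ => mf_nonneg g0 n
    have h3 : S1 ≤ (135 * (lg N) ^ (1 / 3 : ℝ) * (lg T) ^ (2 / 3 : ℝ)) *
        (C * (lg T) ^ (1 / 12 : ℝ)) := by
      have h4 : S1 ≤ ∑ n ∈ SB T, mf (fun π => (1 + 2 * (χ π).re) / 3 + 1 / 24) n / nrm n := by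
        rw [hS1]
        refine sum_le_sum fun n _ => ?_
        refine div_le_div_of_nonneg_right ?_ (Nat.cast_nonneg _)
        unfold mf
        refine prod_le_prod (fun π _ => g0 π) fun π _ => ?_
        have := h0 π
        unfold gw
        linarith
      refine h4.trans ((s1_mul h0 (fun _ => by norm_num) T).trans ?_)
      refine mul_le_mul (s1_char hch hN1 hle) (hC T hT) ?_ (by positivity)
      exact sum_nonneg fun n _ => div_nonneg (mf_nonneg (fun _ => by norm_num) n)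
        (Nat.cast_nonneg _)
    have h4 : (lg T) ^ (2 / 3 : ℝ) * (lg T) ^ (1 / 12 : ℝ) = (lg T) ^ (-(1 / 4) : ℝ) * lg T := by
      rw [← Real.rpow_add hlT]
      conv_rhs => rw [← Real.rpow_one (lg T), ← Real.rpow_mul hlT.le, one_mul]
      rw [← Real.rpow_add hlT]
      norm_num
    have h5 := lg_le_log (T := T) (by omega)
    have h7 : S * lg T ≤ (B * (T * (lg T) ^ (-(1 / 4) : ℝ))) * lg T := by
      calc S * lg T ≤ S * (3 * Real.log T) := mul_le_mul_of_nonneg_left h5 hS0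
        _ = 3 * (S * Real.log T) := by ring
        _ ≤ 3 * (7 * T * S1) := by linarith
        _ ≤ 3 * (7 * T * ((135 * (lg N) ^ (1 / 3 : ℝ) * (lg T) ^ (2 / 3 : ℝ)) *
            (C * (lg T) ^ (1 / 12 : ℝ)))) := by
            have := mul_le_mul_of_nonneg_left h3 (show (0 : ℝ) ≤ 7 * T by positivity)
            linarith
        _ = (21 * (135 * (lg N) ^ (1 / 3 : ℝ) * C)) * T *
            ((lg T) ^ (2 / 3 : ℝ) * (lg T) ^ (1 / 12 : ℝ)) := by ring
        _ = _ := by rw [h4, hB]; ring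
    exact le_of_mul_le_mul_right h7 hlT

/-! ### few sets have few primes with a nontrivial symbol -/

section
variable {R : Finset Ei} {g : Ei → ZMod 3} {c : ZMod 3}

/-- the symbol -/
noncomputable def dg (R : Finset Ei) (c : ZMod 3) (g : Ei → ZMod 3) (π : Ei) : ZMod 3 :=
  c * nq π + ∑ u ∈ R, g u * cs u π

/-- the two products -/
noncomputable def pA (R : Finset Ei) (g : Ei → ZMod 3) (a : ZMod 3) : Ei := ∏ u ∈ R.filter fun u => g u = a, u

lemma chi_dg (hR : ∀ u ∈ R, Pq u) {π : Ei} (hπ : Pq π) (hπR : π ∉ R) :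
    yab c (pA R g 1) (pA R g 2) π = ez (dg R c g π) := by
  obtain ⟨-, a2⟩ := PS_prod (S := R.filter fun u => g u = 1)
    fun u hu => hR u (mem_filter.1 hu).1
  obtain ⟨-, b2⟩ := PS_prod (S := R.filter fun u => g u = 2)
    fun u hu => hR u (mem_filter.1 hu).1
  have hchi : ∀ u ∈ R, chi u π = ez (cs u π) := by
    intro u hu
    refine chi_of fun hdv => ?_
    have := eq_of_dvd (hR u hu) hπ hdv
    subst this
    exact hπR hu
  have h4 : ¬ (3 : ℤ) ∣ Pool.Agent.Y692.QS.nr π := by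
    intro h
    obtain ⟨u1, u2, h1, -⟩ := Pool.Agent.Y703.CT.ex_q hπ.three
    rw [h1, Pool.Agent.Y703.CT.nr_form] at h
    omega
  have e : dg R c g π = (∑ u ∈ R.filter (fun u => g u = 1), cs u π -
      ∑ u ∈ R.filter (fun u => g u = 2), cs u π) + c * nq π := by
    unfold dg
    rw [add_comm, sum_filter, sum_filter, ← sum_sub_distrib]
    congr 1
    refine sum_congr rfl fun u _ => ?_
    have key : ∀ a b : ZMod 3, a * b = (if a = 1 then b else 0) - (if a = 2 then b else 0) := by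
      decide
    exact key (g u) (cs u π)
  unfold yab xab jac ch9 pA
  rw [if_neg h4, a2, b2, prod_congr rfl fun u hu => hchi u (mem_filter.1 hu).1,
    prod_congr rfl fun u hu => hchi u (mem_filter.1 hu).1,
    ← ez_sum, ← ez_sum, conj_ez, ← ez_add, ← ez_add, ← sub_eq_add_neg, e]

lemma gw_zero {χ : Ei → ℂ} {π : Ei} (h : χ π = ez 0) : gw χ π = 1 := by
  unfold gw
  rw [h, ez_zero]
  norm_num

lemma gw_ne {χ : Ei → ℂ} {π : Ei} {d : ZMod 3} (h : χ π = ez d) (hd : d ≠ 0) :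
    gw χ π = 1 / 24 := by
  unfold gw
  rw [h, CH.root_re (ez_root hd)]
  norm_num

theorem t_FEW4 (hR : ∀ u ∈ R, Pq u) (hcg : c ≠ 0 ∨ ∃ u ∈ R, g u ≠ 0) (V : ℕ) (ε : ℝ)
    (hε : 0 < ε) : ∃ X₀ : ℕ, ∀ X : ℕ, X₀ ≤ X →
    (((SS X).filter fun S => S.card ≤ kk X ∧ (∀ u ∈ R, nrm u ≤ zz X) ∧
      ((la (zz X) S).filter fun π => dg R c g π ≠ 0).card < 2 * (sm (zz X) S).card + V).card : ℝ) ≤
        ε * X := by
  -- the character
  obtain ⟨a1, a2⟩ := PS_prod (S := R.filter fun u => g u = 1)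
    fun u hu => hR u (mem_filter.1 hu).1
  obtain ⟨b1, b2⟩ := PS_prod (S := R.filter fun u => g u = 2)
    fun u hu => hR u (mem_filter.1 hu).1
  obtain ⟨χ, hχ⟩ : ∃ χ, χ = yab c (pA R g 1) (pA R g 2) := ⟨_, rfl⟩
  have hch : CH χ := by
    rw [hχ]
    exact yab_ch c a1 b1
  have hmean : ∃ C : ℝ, 0 < C ∧ ∀ T : ℕ, ∑ n ∈ SB T, mf (gw χ) n ≤
      C * (T * (lg T) ^ (-(1 / 4) : ℝ)) := by
    by_cases hc : c = 0
    · -- the character without the factor modulo nine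
      have hne : pA R g 1 ≠ pA R g 2 := by
        intro h
        have h1 : R.filter (fun u => g u = 1) = R.filter (fun u => g u = 2) := by
          rw [← a2, ← b2]
          exact congrArg PD h
        obtain ⟨u, hu, hgu⟩ := hcg.resolve_left (fun h => h hc)
        have key : ∀ c : ZMod 3, c ≠ 0 → c = 1 ∨ c = 2 := by decide
        rcases key (g u) hgu with h2 | h2
        · have h3 : u ∈ R.filter fun u => g u = 2 := by
            rw [← h1, mem_filter]
            exact ⟨hu, h2⟩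
          rw [mem_filter, h2] at h3
          exact absurd h3.2 (by decide)
        · have h3 : u ∈ R.filter fun u => g u = 1 := by
            rw [h1, mem_filter]
            exact ⟨hu, h2⟩
          rw [mem_filter, h2] at h3
          exact absurd h3.2 (by decide)
      have hx := xab_ch a1 b1
      have hN1 : 1 ≤ nrm (pA R g 1) * nrm (pA R g 2) :=
        Nat.mul_pos (nrm_pos' a1.ne) (nrm_pos' b1.ne)
      obtain ⟨C, hC0, hC⟩ := hallZ hx hN1 (fun v hv => chs_le a1 b1 hne hv)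
      refine ⟨C, hC0, fun T => le_trans (le_of_eq ?_) (hC T)⟩
      refine sum_congr rfl fun n hn => ?_
      unfold mf
      refine prod_congr rfl fun π hπ => ?_
      have hπq : Pq π := ((mem_PD (mem_SB.1 hn).2.ne).1 hπ).1
      have h3 : ¬ (3 : ℤ) ∣ nr π := by
        intro h
        obtain ⟨u1, u2, h1, -⟩ := Pool.Agent.Y703.CT.ex_q hπq.three
        rw [h1, Pool.Agent.Y703.CT.nr_form] at h
        omega
      have e2 : χ π = xab (pA R g 1) (pA R g 2) π := by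
        rw [hχ]
        unfold yab ch9
        rw [if_neg h3, hc, zero_mul, ez_zero, mul_one]
      unfold gw
      rw [e2]
      rfl
    · have hN1 : 1 ≤ 9 * (nrm (pA R g 1) * nrm (pA R g 2)) := by
        have : 0 < nrm (pA R g 1) * nrm (pA R g 2) :=
          Nat.mul_pos (nrm_pos' a1.ne) (nrm_pos' b1.ne)
        omega
      rw [hχ]
      exact hallZ (yab_ch c a1 b1) hN1 (fun v hv => chs_le_c hc a1 b1 hv)
  obtain ⟨C, hC0, hC⟩ := hmean
  have hg0 : ∀ π, 0 ≤ gw χ π := fun π => by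
    have := re_nonneg (hch.val π)
    have := re_le (hch.val π)
    unfold gw
    linarith
  refine Exists.imp (fun X₀ hX₀ X hX => hX₀ X hX _ fun S hS => by
    rw [mem_filter] at hS
    exact hS) (gen4 576 (24 ^ V * C) (by norm_num) (by positivity)
    (fun X S => (∀ u ∈ R, nrm u ≤ zz X) ∧
      ((la (zz X) S).filter fun π => dg R c g π ≠ 0).card < 2 * (sm (zz X) S).card + V)
    ?_ ε hε)
  intro X S₀ hS₀ _ F hF
  · have h := fiber_le X (zz X) S₀ (fun u hu => (hS₀ u hu).1)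
      F (fun S hS => ⟨(hF S hS).1, (hF S hS).2.2⟩) (gw χ) hg0
      ((1 / 24) ^ (2 * S₀.card + V)) (fun S hS => by
          obtain ⟨hS1, ⟨hS2, hS3, hS4⟩, hS5⟩ := hF S hS
          rw [hS5] at hS4
          have hval : ∀ π ∈ la (zz X) S, χ π = ez (dg R c g π) := by
            intro π hπ
            have hπq : Pq π ∧ ¬ nrm π ≤ zz X := by
              unfold la at hπ
              rw [mem_filter] at hπ
              unfold SS at hS1
              rw [mem_filter] at hS1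
              exact ⟨hS1.2.1.1 π hπ.1, hπ.2⟩
            rw [hχ]
            exact chi_dg hR hπq.1 fun h => hπq.2 (hS3 π h)
          rw [← prod_filter_mul_prod_filter_not (la (zz X) S) (fun π => dg R c g π ≠ 0)]
          have e1 : ∏ π ∈ (la (zz X) S).filter (fun π => dg R c g π ≠ 0), gw χ π =
              (1 / 24) ^ ((la (zz X) S).filter fun π => dg R c g π ≠ 0).card := by
            rw [← prod_const]
            refine prod_congr rfl fun π hπ => ?_
            rw [mem_filter] at hπ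
            exact gw_ne (hval π hπ.1) hπ.2
          have e2 : ∏ π ∈ (la (zz X) S).filter (fun π => ¬ dg R c g π ≠ 0), gw χ π = 1 := by
            refine prod_eq_one fun π hπ => ?_
            rw [mem_filter, not_not] at hπ
            apply gw_zero
            rw [hval π hπ.1, hπ.2]
          rw [e1, e2, mul_one]
          exact pow_le_pow_of_le_one (by norm_num) (by norm_num) hS4.le)
    have h2 := h.trans (hC (X / pN S₀))
    have hlg := one_le_lg (pN S₀)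
    obtain ⟨n, hn⟩ : ∃ n : ℝ, n = (F.card : ℝ) := ⟨_, rfl⟩
    obtain ⟨Tl, hTl⟩ : ∃ Tl : ℝ, Tl = ((X / pN S₀ : ℕ) : ℝ) *
      (lg (X / pN S₀)) ^ (-(1 / 4) : ℝ) := ⟨_, rfl⟩
    have hTl0 : 0 ≤ Tl := by
      rw [hTl]
      exact mul_nonneg (Nat.cast_nonneg _) (Real.rpow_nonneg (zero_le_one.trans (one_le_lg _)) _)
    rw [← hn, ← hTl] at h2
    rw [← hn, ← hTl]
    have h3 : (24 : ℝ) ^ (2 * S₀.card + V) * (1 / 24) ^ (2 * S₀.card + V) = 1 := by
      rw [← mul_pow]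
      norm_num
    calc n = 24 ^ (2 * S₀.card + V) * (n * (1 / 24) ^ (2 * S₀.card + V)) := by
          linear_combination (-n) * h3
      _ ≤ 24 ^ (2 * S₀.card + V) * (C * Tl) := mul_le_mul_of_nonneg_left h2 (by positivity)
      _ = (24 ^ V * C * 576 ^ S₀.card) * 1 * Tl := by
          rw [pow_add, pow_mul]
          norm_num
          ring
      _ ≤ (24 ^ V * C * 576 ^ S₀.card) * lg (pN S₀) * Tl := by gcongr

/-! ### degenerate labels -/

lemma lg_mul_le {m n : ℕ} (hm : 1 ≤ m) (hn : 1 ≤ n) : lg (m * n) ≤ lg m + lg n := by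
  unfold lg
  have h1 : m < 2 ^ (Nat.log 2 m + 1) := Nat.lt_pow_succ_log_self (by norm_num) _
  have h2 : n < 2 ^ (Nat.log 2 n + 1) := Nat.lt_pow_succ_log_self (by norm_num) _
  have h3 : m * n < 2 ^ (Nat.log 2 m + 1 + (Nat.log 2 n + 1)) := by
    rw [pow_add]
    exact Nat.mul_lt_mul_of_lt_of_lt h1 h2
  have h4 : Nat.log 2 (m * n) < Nat.log 2 m + 1 + (Nat.log 2 n + 1) :=
    Nat.log_lt_of_lt_pow (Nat.mul_pos hm hn).ne' h3
  have h5 : ((Nat.log 2 (m * n) : ℕ) : ℝ) ≤ ((Nat.log 2 m + Nat.log 2 n + 1 : ℕ) : ℝ) := by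
    exact_mod_cast (by omega)
  push_cast at h5
  linarith

theorem pair_count4 (hR : ∀ u ∈ R, Pq u) (X z : ℕ) (S₀ : Finset Ei) (hRz : ∀ u ∈ R, nrm u ≤ z)
    (hS₀ : ∀ u ∈ S₀, Pq u ∧ nrm u ≤ z)
    (c : ZMod 3) (A B : Finset Ei) (hA : A ⊆ R ∪ S₀) (hB : B ⊆ R ∪ S₀) (hd : Disjoint A B)
    (hAB : A ≠ B ∨ c ≠ 0)
    (F : Finset (Finset Ei)) (hF : ∀ S ∈ F, (S ∈ SS X ∧ sm z S = S₀) ∧ Dg c A B (la z S)) :
    (F.card : ℝ) ≤ (2835 * (lg (9 * pN R) + 1)) * lg (pN S₀) * (((X / pN S₀ : ℕ) : ℝ) *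
          (lg (X / pN S₀)) ^ (-(1 / 3) : ℝ)) := by
  have hT : ∀ u ∈ R ∪ S₀, Pq u ∧ nrm u ≤ z := by
    intro u hu
    rcases mem_union.1 hu with h | h
    · exact ⟨hR u h, hRz u h⟩
    · exact hS₀ u h
  obtain ⟨a1, a2⟩ := PS_prod (S := A) fun π hπ => (hT π (hA hπ)).1
  obtain ⟨b1, b2⟩ := PS_prod (S := B) fun π hπ => (hT π (hB hπ)).1
  set a := ∏ π ∈ A, π with ha
  set b := ∏ π ∈ B, π with hb
  have hab : a ≠ b ∨ c ≠ 0 := by
    rcases hAB with hAB | hc
    · left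
      intro h
      apply hAB
      rw [← a2, ← b2, h]
    · exact Or.inr hc
  have hval : ∀ S ∈ F, ∀ π ∈ la z S, yab c a b π = 1 := by
    intro S hS π hπ
    obtain ⟨⟨h1, h2⟩, h3⟩ := hF S hS
    have hπq : Pq π ∧ ¬ nrm π ≤ z := by
      unfold la at hπ
      rw [mem_filter] at hπ
      unfold SS at h1
      rw [mem_filter] at h1
      exact ⟨h1.2.1.1 π hπ.1, hπ.2⟩
    have hchi : ∀ u ∈ R ∪ S₀, chi u π = ez (cs u π) := by
      intro u hu
      refine chi_of fun hdv => ?_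
      have := eq_of_dvd (hT u hu).1 hπq.1 hdv
      subst this
      exact hπq.2 (hT u hu).2
    have h4 : ¬ (3 : ℤ) ∣ Pool.Agent.Y692.QS.nr π := by
      intro h
      obtain ⟨u1, u2, h1, -⟩ := Pool.Agent.Y703.CT.ex_q hπq.1.three
      rw [h1, Pool.Agent.Y703.CT.nr_form] at h
      omega
    unfold yab xab jac ch9
    rw [if_neg h4, a2, b2, prod_congr rfl fun u hu => hchi u (hA hu),
      prod_congr rfl fun u hu => hchi u (hB hu),
      ← ez_sum, ← ez_sum, conj_ez, ← ez_add, ← ez_add, ← sub_eq_add_neg, add_comm, h3 π hπ,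
      ez_zero]
  have h := fiber_le X z S₀ (fun u hu => (hS₀ u hu).1) F (fun S hS => (hF S hS).1)
    (fun π => (1 + 2 * (yab c a b π).re) / 3) (fun π => by
      have := re_nonneg ((yab_ch c a1 b1).val π)
      positivity) 1 (fun S hS => by
      refine le_of_eq (prod_eq_one fun π hπ => ?_).symm
      rw [hval S hS π hπ]
      norm_num)
  rw [mul_one] at h
  refine h.trans ((hallY a1 b1 hab _).trans ?_)
  have hpR : 1 ≤ pN R := pN_pos hR
  have hpS : 1 ≤ pN S₀ := pN_pos fun u hu => (hS₀ u hu).1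
  have hnn : nrm a * nrm b ≤ pN R * pN S₀ := by
    have h1 : nrm a * nrm b ≤ pN (R ∪ S₀) := by
      rw [ha, hb, nrm_prod, nrm_prod, ← prod_union hd]
      unfold pN
      refine prod_le_prod_of_subset_of_one_le' (union_subset hA hB) fun u hu _ => ?_
      exact nrm_pos' (pq_ne (hT u hu).1)
    refine h1.trans ?_
    have h2 : pN (R ∪ S₀) * pN (R ∩ S₀) = pN R * pN S₀ := by
      unfold pN
      exact prod_union_inter
    rw [← h2]
    refine Nat.le_mul_of_pos_right _ (pN_pos fun u hu => hR u (mem_inter.1 hu).1)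
  have h9 : lg (9 * (nrm a * nrm b)) ≤ (lg (9 * pN R) + 1) * lg (pN S₀) := by
    have k1 : 9 * (nrm a * nrm b) ≤ (9 * pN R) * pN S₀ := by
      have := Nat.mul_le_mul_left 9 hnn
      rw [mul_assoc]
      exact this
    have k2 := lg_mono k1
    have k3 := lg_mul_le (m := 9 * pN R) (n := pN S₀) (by omega) hpS
    have k4 := one_le_lg (pN S₀)
    have k5 := one_le_lg (9 * pN R)
    nlinarith
  have h4 : (lg (9 * (nrm a * nrm b))) ^ (1 / 3 : ℝ) ≤ (lg (9 * pN R) + 1) * lg (pN S₀) := by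
    calc (lg (9 * (nrm a * nrm b))) ^ (1 / 3 : ℝ) ≤ (lg (9 * (nrm a * nrm b))) ^ (1 : ℝ) :=
          Real.rpow_le_rpow_of_exponent_le (one_le_lg _) (by norm_num)
      _ = lg (9 * (nrm a * nrm b)) := Real.rpow_one _
      _ ≤ _ := h9
  have hTl : 0 ≤ ((X / pN S₀ : ℕ) : ℝ) * (lg (X / pN S₀)) ^ (-(1 / 3) : ℝ) :=
    mul_nonneg (Nat.cast_nonneg _) (Real.rpow_nonneg (zero_le_one.trans (one_le_lg _)) _)
  calc 2835 * (lg (9 * (nrm a * nrm b))) ^ (1 / 3 : ℝ) * (((X / pN S₀ : ℕ) : ℝ) *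
          (lg (X / pN S₀)) ^ (-(1 / 3) : ℝ)) ≤
        2835 * ((lg (9 * pN R) + 1) * lg (pN S₀)) * (((X / pN S₀ : ℕ) : ℝ) *
          (lg (X / pN S₀)) ^ (-(1 / 3) : ℝ)) := by gcongr
    _ = _ := by ring

theorem t_BAD4 (hR : ∀ u ∈ R, Pq u) (ε : ℝ) (hε : 0 < ε) : ∃ X₀ : ℕ, ∀ X : ℕ, X₀ ≤ X →
    (((SS X).filter fun S => S.card ≤ kk X ∧ (∀ u ∈ R, nrm u ≤ zz X) ∧
      ¬ Nd (R ∪ sm (zz X) S) (la (zz X) S)).card : ℝ) ≤ ε * X := by
  have hlR := one_le_lg (9 * pN R)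
  refine Exists.imp (fun X₀ hX₀ X hX => hX₀ X hX _ fun S hS => by
    rw [mem_filter] at hS
    exact hS) (gen 4 (3 * 4 ^ R.card * (2835 * (lg (9 * pN R) + 1))) (by norm_num)
    (by positivity)
    (fun X S => (∀ u ∈ R, nrm u ≤ zz X) ∧ ¬ Nd (R ∪ sm (zz X) S) (la (zz X) S))
    ?_ ε hε)
  intro X S₀ hS₀ _ G hG
  · by_cases hRz : ∀ u ∈ R, nrm u ≤ zz X
    swap
    · have hG0 : G = ∅ := by
        rw [eq_empty_iff_forall_notMem]
        intro S hS
        exact hRz (hG S hS).2.1.2.1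
      rw [hG0, card_empty, Nat.cast_zero]
      have h2 := lg_pos (pN S₀)
      have h3 := lg_pos (X / pN S₀)
      positivity
    set P := ((univ : Finset (ZMod 3)) ×ˢ ((R ∪ S₀).powerset ×ˢ (R ∪ S₀).powerset)).filter
      fun p => Disjoint p.2.1 p.2.2 ∧ (p.2.1 ≠ p.2.2 ∨ p.1 ≠ 0) with hP
    have hsub : G ⊆ P.biUnion fun p => G.filter fun S => Dg p.1 p.2.1 p.2.2 (la (zz X) S) := by
      intro S hS
      obtain ⟨h1, ⟨h2, -, h3⟩, h4⟩ := hG S hS
      rw [h4] at h3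
      obtain ⟨c, A, B, hA, hB, hd, hAB, hDg⟩ := notNd h3
      rw [mem_biUnion]
      refine ⟨(c, A, B), ?_, ?_⟩
      · rw [hP, mem_filter, mem_product, mem_product, mem_powerset, mem_powerset]
        exact ⟨⟨mem_univ _, hA, hB⟩, hd, hAB⟩
      · rw [mem_filter]
        exact ⟨hS, hDg⟩
    have h1 : (G.card : ℝ) ≤
        ∑ p ∈ P, ((G.filter fun S => Dg p.1 p.2.1 p.2.2 (la (zz X) S)).card : ℝ) := by
      exact_mod_cast (card_le_card hsub).trans card_biUnion_le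
    have h2 : ∀ p ∈ P, ((G.filter fun S => Dg p.1 p.2.1 p.2.2 (la (zz X) S)).card : ℝ) ≤
        (2835 * (lg (9 * pN R) + 1)) * lg (pN S₀) * (((X / pN S₀ : ℕ) : ℝ) *
          (lg (X / pN S₀)) ^ (-(1 / 3) : ℝ)) := by
      intro p hp
      rw [hP, mem_filter, mem_product, mem_product, mem_powerset, mem_powerset] at hp
      refine pair_count4 hR X (zz X) S₀ hRz hS₀ p.1 p.2.1 p.2.2 hp.1.2.1 hp.1.2.2 hp.2.1 hp.2.2
        _ ?_
      intro S hS
      rw [mem_filter] at hS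
      have h := hG S hS.1
      exact ⟨⟨h.1, h.2.2⟩, hS.2⟩
    have h3 : (P.card : ℝ) ≤ 3 * 4 ^ R.card * 4 ^ S₀.card := by
      have h4 : P.card ≤ 3 * 4 ^ (R ∪ S₀).card := by
        refine (card_filter_le _ _).trans (le_of_eq ?_)
        rw [card_product, card_product, card_powerset, ← mul_pow, card_univ, ZMod.card]
        norm_num
      have h5 : 4 ^ (R ∪ S₀).card ≤ 4 ^ R.card * 4 ^ S₀.card := by
        rw [← pow_add]
        exact Nat.pow_le_pow_right (by norm_num) (card_union_le _ _)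
      have h6 : P.card ≤ 3 * 4 ^ R.card * 4 ^ S₀.card := by
        refine h4.trans ?_
        rw [mul_assoc]
        exact Nat.mul_le_mul_left 3 h5
      exact_mod_cast h6
    obtain ⟨Tl, hTl⟩ : ∃ Tl : ℝ, Tl = ((X / pN S₀ : ℕ) : ℝ) *
      (lg (X / pN S₀)) ^ (-(1 / 3) : ℝ) := ⟨_, rfl⟩
    have hTl0 : 0 ≤ Tl := by
      rw [hTl]
      exact mul_nonneg (Nat.cast_nonneg _) (Real.rpow_nonneg (zero_le_one.trans (one_le_lg _)) _)
    rw [← hTl] at h2 ⊢
    have hlg := lg_pos (pN S₀)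
    calc (G.card : ℝ) ≤ ∑ p ∈ P, (2835 * (lg (9 * pN R) + 1)) * lg (pN S₀) * Tl :=
          h1.trans (sum_le_sum h2)
      _ = P.card * ((2835 * (lg (9 * pN R) + 1)) * lg (pN S₀) * Tl) := by
          rw [sum_const, nsmul_eq_mul]
      _ ≤ (3 * 4 ^ R.card * 4 ^ S₀.card) * ((2835 * (lg (9 * pN R) + 1)) * lg (pN S₀) * Tl) :=
          mul_le_mul_of_nonneg_right h3 (by positivity)
      _ = _ := by ring

end

end Pool.Agent.H462.JL
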