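import Pool.Agent.H462.JL.Fam

/-!
# The families over `K`
-/

set_option autoImplicit false
set_option linter.unusedSectionVars false
set_option linter.unusedVariables false

open scoped Classical

namespace Pool.Agent.H462.JL

open NumberField IsDedekindDomain WeierstrassCurve
open Pool.Agent.Y692.QS (Ei w nr nr_mul)
open Pool.Agent.Y703.CT
open Pool.Agent.Y703.XL (cr)
open Pool.Agent.Y715.T.Rec (cs nn)
open Pool.Agent.Y715.T.RecG (Pq)
open Pool.Agent.Y696.CTK
open Pool.Agent.Y699.E (PD mem_PD PS PS_prod eq_of_dvd pq_ne nrm prm prm_one prm_mul prm_ne_zero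
  prm_cancel eq_one_of_prm)
open Pool.Agent.TH841.NF.D (Sha)
open Pool.Agent.H462.CTU.Chr (nq)
open Pool.Agent.H462.CTU.LK (Dk)
open Pool.Agent.H462.CTU.Sel (KW KerC)
open Pool.Agent.H462.CTU.Law.Cou (un un_nr un_inj un_isUnit un_ne exists_un el_inj A0)
open Pool.Agent.H462.CTU.K (AK AK_iff)

section
variable {K : Type} [Field K] [NumberField K]

/-- the class modulo nine which is left out -/
def badK (B : 𝓞 K) : Prop := (3 : 𝓞 K) ∣ B ^ 2 - 1 ∧ (9 : ℤ) ∣ Algebra.norm ℤ B - 1

/-- cube-free and prime to three -/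
def CfK (B : 𝓞 K) : Prop := (∀ π : 𝓞 K, Prime π → ¬ π ^ 3 ∣ B) ∧ ¬ (3 : ℤ) ∣ Algebra.norm ℤ B

/-- `B` is `± ω ^ k ∏ π_i ^ e_i` with different primary primes -/
def FacG (ω B : 𝓞 K) (k : ZMod 3) (n : ℕ) (π : Fin n → 𝓞 K) (e : Fin n → ZMod 3)
    (χ : Fin n → Fin n → ZMod 3) : Prop :=
  (∀ i, Prime (π i) ∧ (3 : 𝓞 K) ∣ π i - 1 ∧ e i ≠ 0) ∧ Function.Injective π ∧
  (B = ω ^ k.val * ∏ i, π i ^ (e i).val ∨ B = -(ω ^ k.val * ∏ i, π i ^ (e i).val)) ∧
  ∀ i j, i ≠ j →
    π j ∣ π i ^ (((Algebra.norm ℤ (π j)).natAbs - 1) / 3) - ω ^ (χ j i).val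

/-- the number of the solutions of the system -/
noncomputable def solG (k : ZMod 3) {n : ℕ} (π : Fin n → 𝓞 K) (e : Fin n → ZMod 3)
    (χ : Fin n → Fin n → ZMod 3) : ℕ :=
  Nat.card {v : Fin n → ZMod 3 // ∀ j, ∑ i, e i * χ j i * (v i - v j) =
    k * (((Algebra.norm ℤ (π j) - 1) / 3 : ℤ) : ZMod 3) * v j}

/-- the corank -/
def CorKG (B : 𝓞 K) (r : ℕ) : Prop :=
  ∃ (ω : 𝓞 K) (k : ZMod 3) (n : ℕ) (π : Fin n → 𝓞 K) (e : Fin n → ZMod 3)
    (χ : Fin n → Fin n → ZMod 3),
    ω ^ 2 + ω + 1 = 0 ∧ FacG ω B k n π e χ ∧ solG k π e χ = if k = 0 then 3 ^ (r + 1) else 3 ^ r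

end

section
variable {J : Type} [Fintype J] {π : J → Ei} {e : J → ZMod 3} {k : ZMod 3}

/-- the solutions of the grounded system -/
def GWe (k : ZMod 3) (π : J → Ei) (e : J → ZMod 3) : Set (J → ZMod 3) :=
  {v | ∀ j, ∑ i, e i * cs (π j) (π i) * (v i - v j) = k * nq (π j) * v j}

lemma KW_GWe : (KW k π e).ncard = 3 * (GWe k π e).ncard := by
  rw [← Nat.card_coe_set_eq, ← Nat.card_coe_set_eq]
  have h : Nat.card (ZMod 3 × GWe k π e) = 3 * Nat.card (GWe k π e) := by
    rw [Nat.card_prod, Nat.card_zmod]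
  rw [← h]
  refine Nat.card_congr
    { toFun := fun v => (v.1 none, ⟨fun j => v.1 (some j) - v.1 none, fun j => ?_⟩)
      invFun := fun p => ⟨fun o => Option.elim o p.1 (fun j => p.2.1 j + p.1), fun j => ?_⟩
      left_inv := fun v => ?_
      right_inv := fun p => ?_ }
  · have h1 := v.2 j
    show ∑ i, e i * cs (π j) (π i) * ((v.1 (some i) - v.1 none) - (v.1 (some j) - v.1 none)) =
      k * nq (π j) * (v.1 (some j) - v.1 none)
    have e1 : ∀ i, e i * cs (π j) (π i) * ((v.1 (some i) - v.1 none) - (v.1 (some j) - v.1 none)) =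
        e i * cs (π j) (π i) * (v.1 (some i) - v.1 (some j)) := fun i => by ring
    simp only [e1]
    linear_combination h1
  · have h1 := p.2.2 j
    show k * nq (π j) * (p.1 - (p.2.1 j + p.1)) +
      ∑ i, e i * cs (π j) (π i) * ((p.2.1 i + p.1) - (p.2.1 j + p.1)) = 0
    have e1 : ∀ i, e i * cs (π j) (π i) * ((p.2.1 i + p.1) - (p.2.1 j + p.1)) =
        e i * cs (π j) (π i) * (p.2.1 i - p.2.1 j) := fun i => by ring
    simp only [e1]
    linear_combination h1
  · apply Subtype.ext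
    funext o
    cases o with
    | none => rfl
    | some j => exact sub_add_cancel _ _
  · refine Prod.ext rfl (Subtype.ext ?_)
    funext j
    exact add_sub_cancel_right _ _

lemma cor_count (r : ℕ) : (KW k π e).ncard = 3 ^ (r + 1 + kz k) ↔
    (GWe k π e).ncard = if k = 0 then 3 ^ (r + 1) else 3 ^ r := by
  rw [KW_GWe]
  by_cases hk : k = 0
  · have h1 : kz k = 1 := if_pos hk
    rw [h1, if_pos hk, pow_succ 3 (r + 1)]
    omega
  · have h1 : kz k = 0 := if_neg hk
    rw [h1, if_neg hk, add_zero, pow_succ 3 r]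
    omega

end

section
variable {K : Type} [Field K] [NumberField K] (j : Ei ≃+* 𝓞 K)
  (hj : ∀ z : Ei, Algebra.norm ℤ (j z) = nr z)

include hj in
lemma badK_iff (z : Ei) : badK (j z) ↔ bad z := by
  unfold badK bad
  rw [hj]
  have e1 : (3 : 𝓞 K) ∣ (j z) ^ 2 - 1 ↔ (3 : Ei) ∣ z ^ 2 - 1 := by
    have : (j z) ^ 2 - 1 = j (z ^ 2 - 1) := by rw [map_sub, map_one, map_pow]
    rw [this, ← map_ofNat j 3, map_dvd_iff j]
  rw [e1]

include hj in
lemma CfK_iff (z : Ei) : CfK (j z) ↔ Cf3 z := by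
  unfold CfK Cf3
  rw [hj]
  refine and_congr_left fun _ => ?_
  constructor
  · intro h π hπ hd
    apply h (j π) ((MulEquiv.prime_iff (j : Ei ≃* 𝓞 K)).2 hπ)
    rw [← map_pow]
    exact map_dvd j hd
  · intro h π hπ hd
    obtain ⟨y, rfl⟩ := j.surjective π
    rw [← map_pow, map_dvd_iff j] at hd
    exact h y ((MulEquiv.prime_iff (j : Ei ≃* 𝓞 K)).1 hπ) hd

include hj in
/-- the data of a factorization, over the Eisenstein integers -/
lemma facG_data {z : Ei} {ω : 𝓞 K} {k : ZMod 3} {n : ℕ} {π : Fin n → 𝓞 K} {e : Fin n → ZMod 3}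
    {χ : Fin n → Fin n → ZMod 3} (hω : ω ^ 2 + ω + 1 = 0) (h : FacG ω (j z) k n π e χ) :
    ∃ ε : ZMod 3, ε ≠ 0 ∧ Dk (ε * k) (fun i => j.symm (π i)) e z ∧
      ∀ i l, i ≠ l → cs (j.symm (π l)) (j.symm (π i)) = ε * χ l i := by
  obtain ⟨h1, -, h2, h3⟩ := h
  have hnn : ∀ k, nn (j.symm (π k)) = ((Algebra.norm ℤ (π k)).natAbs - 1) / 3 := by
    intro k
    unfold nn
    rw [← hj, RingEquiv.apply_symm_apply]
  have hww : (w : Ei) ^ 2 + w + 1 = 0 := by decide
  have hfac : (ω - j w) * (ω - j (w ^ 2)) = 0 := by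
    have e1 : (w : Ei) ^ 2 = -w - 1 := by linear_combination hww
    rw [e1, map_sub, map_neg, map_one]
    have e2 : (j w) ^ 2 + j w + 1 = 0 := by
      rw [← map_pow, ← map_one j, ← map_add, ← map_add, hww, map_zero]
    linear_combination hω - e2
  have hz : ∀ u : Ei, ω = j u → z = u ^ k.val * ∏ i, j.symm (π i) ^ (e i).val ∨
      z = -(u ^ k.val * ∏ i, j.symm (π i) ^ (e i).val) := by
    intro u hu
    rcases h2 with h4 | h4
    · left
      apply j.injective
      rw [h4, hu, map_mul, map_pow, map_prod]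
      simp only [map_pow, RingEquiv.apply_symm_apply]
    · right
      apply j.injective
      rw [h4, hu, map_neg, map_mul, map_pow, map_prod]
      simp only [map_pow, RingEquiv.apply_symm_apply]
  rcases mul_eq_zero.1 hfac with h4 | h4
  · refine ⟨1, one_ne_zero, ?_, fun i l hil => ?_⟩
    · unfold Dk
      rw [one_mul]
      exact hz w (sub_eq_zero.1 h4)
    · rw [one_mul]
      have hpq := pq_symm j (h1 l).1 (h1 l).2.1
      apply Pool.Agent.Y715.T.RecG.cs_of hpq.prime hpq.norm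
      have h5 := map_dvd j.symm (h3 i l hil)
      rw [sub_eq_zero.1 h4, map_sub, map_pow, map_pow, RingEquiv.symm_apply_apply, ← hnn l] at h5
      exact h5
  · refine ⟨-1, by decide, ?_, fun i l hil => ?_⟩
    · unfold Dk
      rw [neg_one_mul, ← Pool.Agent.H462.CTU.K.two_k]
      exact hz _ (sub_eq_zero.1 h4)
    · rw [neg_one_mul]
      have hpq := pq_symm j (h1 l).1 (h1 l).2.1
      apply Pool.Agent.Y715.T.RecG.cs_of hpq.prime hpq.norm
      have h5 := map_dvd j.symm (h3 i l hil)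
      rw [sub_eq_zero.1 h4, map_sub, map_pow, map_pow, RingEquiv.symm_apply_apply, ← hnn l,
        w_two] at h5
      exact h5

include hj in
lemma solG_eq {n : ℕ} {π : Fin n → 𝓞 K} {e : Fin n → ZMod 3} {χ : Fin n → Fin n → ZMod 3}
    {k ε : ZMod 3}
    (hε : ε ≠ 0) (h : ∀ i l, i ≠ l → cs (j.symm (π l)) (j.symm (π i)) = ε * χ l i) :
    (GWe (ε * k) (fun i => j.symm (π i)) e).ncard = solG k π e χ := by
  rw [← Nat.card_coe_set_eq]
  unfold solG
  refine Nat.card_congr (Equiv.subtypeEquivRight fun v => ?_)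
  refine forall_congr' fun l => ?_
  have h1 : ∑ i, e i * cs (j.symm (π l)) (j.symm (π i)) * (v i - v l) =
      ε * ∑ i, e i * χ l i * (v i - v l) := by
    rw [Finset.mul_sum]
    refine Finset.sum_congr rfl fun i _ => ?_
    by_cases hil : i = l
    · rw [hil, sub_self, mul_zero, mul_zero, mul_zero]
    · rw [h i l hil]
      ring
  have h2 : nq (j.symm (π l)) = (((Algebra.norm ℤ (π l) - 1) / 3 : ℤ) : ZMod 3) := by
    unfold nq
    rw [← hj, RingEquiv.apply_symm_apply]
  rw [h1, h2]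
  constructor
  · intro h3
    apply mul_left_cancel₀ hε
    rw [h3]
    ring
  · intro h3
    rw [h3]
    ring

include hj in
/-- **the coranks** -/
theorem corG_iff (z : Ei) (r : ℕ) : CorKG (j z) r ↔ CorG z r := by
  constructor
  · rintro ⟨ω, k, n, π, e, χ, hω, hF, hs⟩
    obtain ⟨ε, hε, hDk, hcs⟩ := facG_data j hj hω hF
    have hpp : ∀ i, Pq (j.symm (π i)) := fun i => pq_symm j (hF.1 i).1 (hF.1 i).2.1
    refine ⟨ε * k, n, fun i => j.symm (π i), e, ⟨hpp, fun i l hil hd => hil ?_,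
      fun i => (hF.1 i).2.2⟩, hDk, ?_⟩
    · exact hF.2.1 (j.symm.injective (eq_of_dvd (hpp l) (hpp i) hd).symm)
    · rw [cor_count, solG_eq j hj hε hcs, hs]
      by_cases hk : k = 0
      · rw [hk, mul_zero]
      · rw [if_neg hk, if_neg (mul_ne_zero hε hk)]
  · rintro ⟨k, n, π, e, hdt, hDk, hc⟩
    have hww : (w : Ei) ^ 2 + w + 1 = 0 := by decide
    have hcs : ∀ i l, i ≠ l → cs (j.symm (j (π l))) (j.symm (j (π i))) =
        1 * cs (π l) (π i) := by
      intro i l _
      rw [one_mul, RingEquiv.symm_apply_apply, RingEquiv.symm_apply_apply]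
    refine ⟨j w, k, n, fun i => j (π i), e, fun l i => cs (π l) (π i), ?_,
      ⟨fun i => ⟨?_, ?_, hdt.e0 i⟩, ?_, ?_, fun i l hil => ?_⟩, ?_⟩
    · rw [← map_pow, ← map_one j, ← map_add, ← map_add, hww, map_zero]
    · exact (MulEquiv.prime_iff (j : Ei ≃* 𝓞 K)).2 (hdt.pq i).prime
    · have h3 := map_dvd j (hdt.pq i).three
      rwa [map_sub, map_one, map_ofNat] at h3
    · intro a b hab
      by_contra hne
      exact hdt.nd a b hne (by rw [j.injective hab])
    · rcases hDk with h | h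
      · left
        rw [h, map_mul, map_pow]
        unfold pD
        rw [map_prod]
        simp only [map_pow]
      · right
        rw [h, map_neg, map_mul, map_pow]
        unfold pD
        rw [map_prod]
        simp only [map_pow]
    · have h3 := map_dvd j (Pool.Agent.Y715.T.RecG.cs_spec (hdt.pq l).prime (hdt.pq l).norm
        (hdt.nd i l hil))
      rw [map_sub, map_pow, map_pow] at h3
      rw [hj]
      exact h3
    · rw [← solG_eq j hj one_ne_zero hcs, one_mul]
      have h3 : (fun i => j.symm (j (π i))) = π :=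
        funext fun i => RingEquiv.symm_apply_apply j _
      rw [h3]
      exact (cor_count r).1 hc

end

/-! ### the families -/

section
variable {K : Type} [Field K] [NumberField K] {I : Type} [Fintype I]

/-- squarefree, prime to three and to the `A i` -/
def AKm (A : I → 𝓞 K) (D : 𝓞 K) : Prop := AK D ∧ ∀ i, IsCoprime (A i) D

/-- the element of the family -/
def twK (m : Bool) (A D : 𝓞 K) : 𝓞 K := if m then A * D ^ 2 else A * D

/-- the class -/
def CKm (A : I → 𝓞 K) (m : I → Bool) (D : 𝓞 K) : Prop :=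
  ¬ IsUnit D ∧ ∀ i, ¬ badK (twK (m i) (A i) D)

/-- the elements are different modulo cubes -/
def NeK (A : I → 𝓞 K) (m : I → Bool) : Prop :=
  ∀ i j, i ≠ j → ∀ u : K, if m i = m j then (A i : K) ≠ u ^ 3 * A j else (A i : K) * A j ≠ u ^ 3

/-- the elements which describe the classes modulo nine -/
def bsK (m : Bool) (A : 𝓞 K) : 𝓞 K := if m then A ^ 2 else A

/-- the number of the classes modulo nine which are left out -/
noncomputable def cellsK (A : I → 𝓞 K) (m : I → Bool) : ℕ :=
  (Set.range fun i => (Ideal.Quotient.mk (Ideal.span {(3 : 𝓞 K)}) (bsK (m i) (A i) ^ 2),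
    ((Algebra.norm ℤ (bsK (m i) (A i)) : ℤ) : ZMod 9))).ncard

end

section
variable {K : Type} [Field K] [NumberField K] (j : Ei ≃+* 𝓞 K)
  (hj : ∀ z : Ei, Algebra.norm ℤ (j z) = nr z) {I : Type} [Fintype I] {A : I → Ei}
  {q : I → Bool × ZMod 3} {R : Finset Ei} {f : I → Ei → ZMod 3} {m : I → Bool}

lemma tw_K (b : Bool) (x D : Ei) : twK b (j x) (j D) = j (tw b x D) := by
  unfold twK tw
  cases b
  · simp
  · simp

include hj in
lemma CKm_iff (D : Ei) : CKm (fun i => j (A i)) m (j D) ↔ CF A m D := by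
  unfold CKm CF
  rw [MulEquiv.isUnit_map j]
  refine and_congr_right fun _ => forall_congr' fun i => not_congr ?_
  rw [tw_K, badK_iff j hj]

include hj in
lemma AKm_iff (hF : Fm A q R f) (D : Ei) : AKm (fun i => j (A i)) (j D) ↔ AR R D := by
  unfold AKm AR
  rw [AK_iff j hj]
  refine and_congr_right fun _ => ?_
  have hco : ∀ i, IsCoprime (j (A i)) (j D) ↔ IsCoprime (A i) D := by
    intro i
    constructor
    · intro h
      have h1 := h.map (j.symm : 𝓞 K →+* Ei)
      simpa using h1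
    · intro h
      exact h.map (j : Ei →+* 𝓞 K)
  constructor
  · intro h ρ hρ hd
    obtain ⟨i, hi⟩ := hF.dvd ρ hρ
    have h1 : ρ ∣ A i := by
      rw [hF.eq i]
      refine Dvd.dvd.mul_left ?_ _
      unfold pe
      refine (dvd_pow_self ρ ?_).trans (Finset.dvd_prod_of_mem (fun ρ => ρ ^ (f i ρ).val) hρ)
      rw [ZMod.val_ne_zero]
      exact hi
    have h2 := ((hco i).1 (h i)).isUnit_of_dvd' h1 hd
    exact (hF.pq ρ hρ).prime.not_isUnit h2
  · intro h i
    rw [hco]
    rw [hF.eq i, isCoprime_mul_unit_left_left (un_isUnit _)]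
    unfold pe
    refine IsCoprime.prod_left fun ρ hρ => IsCoprime.pow_left ?_
    exact ((hF.pq ρ hρ).prime.irreducible.coprime_iff_not_dvd).2 (h ρ hρ)

/-- the elements are different -/
lemma ne_of (hF : Fm A q R f) (hne : NeK (fun i => j (A i)) m) (i l : I) (hil : i ≠ l) :
    sg (m i) (q i).2 ≠ sg (m l) (q l).2 ∨ ∃ u ∈ R, sg (m i) (f i u) ≠ sg (m l) (f l u) := by
  by_contra hcon
  push Not at hcon
  obtain ⟨h1, h2⟩ := hcon
  have hsgn : ∀ (p p' : Bool × ZMod 3), p.2 = p'.2 → un p = un p' ∨ un p = -un p' := by decide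
  have hsgn2 : ∀ (p p' : Bool × ZMod 3), p.2 = -p'.2 → un p * un p' = 1 ∨ un p * un p' = -1 := by
    decide
  by_cases hm : m i = m l
  · rw [hm] at h1 h2
    have h3 : (q i).2 = (q l).2 := sg_inj h1
    have h4 : pe R (f i) = pe R (f l) := by
      unfold pe
      exact Finset.prod_congr rfl fun u hu => by rw [sg_inj (h2 u hu)]
    rcases hsgn _ _ h3 with h5 | h5
    · have h6 := hne i l hil 1
      rw [if_pos hm] at h6
      apply h6
      dsimp only
      rw [one_pow, one_mul, hF.eq i, hF.eq l, h4, h5]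
    · have h6 := hne i l hil (-1)
      rw [if_pos hm] at h6
      apply h6
      dsimp only
      rw [hF.eq i, hF.eq l, h4, h5, neg_mul, map_neg]
      push_cast
      ring
  · have h3 : (q i).2 = -(q l).2 := by
      revert h1
      generalize (q i).2 = a
      generalize (q l).2 = b
      revert hm
      generalize m i = x
      generalize m l = y
      clear h2 hne
      revert x y a b
      decide
    have h4 : ∀ u ∈ R, f i u = -f l u := by
      intro u hu
      have h5 := h2 u hu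
      revert h5
      generalize f i u = a
      generalize f l u = b
      revert hm
      generalize m i = x
      generalize m l = y
      clear h2 hne h1 h3 hu
      revert x y a b
      decide
    have h5 : pe R (f i) * pe R (f l) = (∏ ρ ∈ R, if f l ρ = 0 then 1 else ρ) ^ 3 := by
      unfold pe
      rw [← Finset.prod_mul_distrib, ← Finset.prod_pow]
      refine Finset.prod_congr rfl fun ρ hρ => ?_
      rw [h4 ρ hρ, ← pow_add]
      have h6 : ∀ x : ZMod 3, (-x).val + x.val = if x = 0 then 0 else 3 := by decide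
      rw [h6]
      split_ifs
      · rw [pow_zero, one_pow]
      · rfl
    have h7 : ∀ e : Ei, e ^ 3 = un (q i) * un (q l) → False := by
      intro e he
      have h6 := hne i l hil ((j (e * ∏ ρ ∈ R, if f l ρ = 0 then 1 else ρ) : 𝓞 K) : K)
      rw [if_neg hm] at h6
      apply h6
      have h8 : A i * A l = (e * ∏ ρ ∈ R, if f l ρ = 0 then 1 else ρ) ^ 3 := by
        rw [mul_pow, ← h5, he, hF.eq i, hF.eq l]
        ring
      have h9 := congrArg (fun x : Ei => ((j x : 𝓞 K) : K)) h8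
      simp only [map_mul, map_pow] at h9
      push_cast
      push_cast at h9
      rw [map_mul]
      push_cast
      rw [← h9]
    rcases hsgn2 _ _ h3 with h8 | h8
    · exact h7 1 (by rw [h8, one_pow])
    · exact h7 (-1) (by rw [h8]; ring)

include hj in
/-- the number of the cells -/
lemma cells_eq (hF : Fm A q R f) : cellsK (fun i => j (A i)) m =
    (Finset.univ.image fun i => (sg (m i) (q i).2, sg (m i) (nq (pe R (f i))))).card := by
  have ha : ∀ i, prm (pe R (f i)) := fun i => prm_pe hF.pq _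
  -- the elements of the classes
  have hbs : ∀ i, ∃ (b : Bool) (n : Ei), prm n ∧ bsK (m i) (j (A i)) = j (un (b, sg (m i) (q i).2) * n) ∧
      nq n = sg (m i) (nq (pe R (f i))) := by
    intro i
    unfold bsK
    rw [hF.eq i]
    cases hm : m i
    · refine ⟨(q i).1, pe R (f i), ha i, ?_, rfl⟩
      simp only [Bool.false_eq_true, if_false]
      rfl
    · refine ⟨false, pe R (f i) ^ 2, prm_pow (ha i) 2, ?_, ?_⟩
      · simp only [if_true]
        rw [← map_pow, mul_pow]
        congr 2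
        have h2 : ∀ p : Bool × ZMod 3, un p ^ 2 = un (false, -p.2) := by decide
        exact h2 _
      · rw [sq, nq_mul' (ha i) (ha i)]
        show _ = -nq (pe R (f i))
        generalize nq (pe R (f i)) = x
        revert x
        decide
  choose b n hn1 hn2 hn3 using hbs
  unfold cellsK
  simp only [hn2, hj]
  have hkey : ∀ i l, ((Ideal.Quotient.mk (Ideal.span {(3 : 𝓞 K)})
      ((j (un (b i, sg (m i) (q i).2) * n i)) ^ 2),
      ((nr (un (b i, sg (m i) (q i).2) * n i) : ℤ) : ZMod 9)) =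
      (Ideal.Quotient.mk (Ideal.span {(3 : 𝓞 K)})
      ((j (un (b l, sg (m l) (q l).2) * n l)) ^ 2),
      ((nr (un (b l, sg (m l) (q l).2) * n l) : ℤ) : ZMod 9))) ↔
      (sg (m i) (q i).2, sg (m i) (nq (pe R (f i)))) =
        (sg (m l) (q l).2, sg (m l) (nq (pe R (f l)))) := by
    intro i l
    rw [Prod.mk.injEq, Prod.mk.injEq]
    refine and_congr ?_ ?_
    · rw [Ideal.Quotient.eq, Ideal.mem_span_singleton, ← map_pow, ← map_pow, ← map_sub,
        ← map_ofNat j 3, map_dvd_iff j]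
      have h1 : ∀ i, (3 : Ei) ∣ (un (b i, sg (m i) (q i).2) * n i) ^ 2 -
          un (b i, sg (m i) (q i).2) ^ 2 := by
        intro i
        obtain ⟨c, hc⟩ := hn1 i
        exact ⟨un (b i, sg (m i) (q i).2) ^ 2 * (c * (n i + 1)), by
          linear_combination (un (b i, sg (m i) (q i).2) ^ 2 * (n i + 1)) * hc⟩
      have h2 : (un (b i, sg (m i) (q i).2) * n i) ^ 2 - (un (b l, sg (m l) (q l).2) * n l) ^ 2 =
          ((un (b i, sg (m i) (q i).2) * n i) ^ 2 - un (b i, sg (m i) (q i).2) ^ 2) +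
          ((un (b i, sg (m i) (q i).2) ^ 2 - un (b l, sg (m l) (q l).2) ^ 2) -
          ((un (b l, sg (m l) (q l).2) * n l) ^ 2 - un (b l, sg (m l) (q l).2) ^ 2)) := by ring
      rw [h2, dvd_add_right (h1 i), dvd_sub_left (h1 l)]
      generalize sg (m i) (q i).2 = x
      generalize sg (m l) (q l).2 = y
      generalize b i = s
      generalize b l = t
      have h3 : (3 : Ei) = ((3 : ℤ) : Ei) := by norm_num
      rw [h3, Pool.Agent.Y692.QS.int_dvd]
      clear hn1 hn2 hn3 h1 h2 h3 ha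
      revert x y s t
      decide
    · rw [← hn3 i, ← hn3 l, nr_mul, nr_mul, un_nr, un_nr, one_mul, one_mul]
      obtain ⟨x, hx⟩ := Pool.Agent.Y699.E.prm_nr (hn1 i)
      obtain ⟨y, hy⟩ := Pool.Agent.Y699.E.prm_nr (hn1 l)
      unfold nq
      rw [hx, hy, ZMod.intCast_eq_intCast_iff_dvd_sub, ZMod.intCast_eq_intCast_iff_dvd_sub]
      push_cast
      omega
  rw [← Set.ncard_coe_finset, Finset.coe_image, Finset.coe_univ, Set.image_univ]
  -- a bijection of the ranges
  obtain ⟨F, hFF⟩ : ∃ F, F = fun i => ((Ideal.Quotient.mk (Ideal.span {(3 : 𝓞 K)})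
      ((j (un (b i, sg (m i) (q i).2) * n i)) ^ 2),
      ((nr (un (b i, sg (m i) (q i).2) * n i) : ℤ) : ZMod 9))) := ⟨_, rfl⟩
  obtain ⟨G, hGG⟩ : ∃ G, G = fun i => (sg (m i) (q i).2, sg (m i) (nq (pe R (f i)))) := ⟨_, rfl⟩
  rw [← hFF, ← hGG]
  have hk : ∀ i l, F i = F l ↔ G i = G l := by
    rw [hFF, hGG]
    exact hkey
  clear hkey hFF hGG
  rw [← Nat.card_coe_set_eq, ← Nat.card_coe_set_eq]
  refine Nat.card_congr (Equiv.ofBijective
    (fun x : Set.range F => (⟨G x.2.choose, ⟨_, rfl⟩⟩ : Set.range G)) ⟨?_, ?_⟩)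
  · intro x y hxy
    have h1 : G x.2.choose = G y.2.choose := congrArg Subtype.val hxy
    rw [← hk, x.2.choose_spec, y.2.choose_spec] at h1
    exact Subtype.ext h1
  · rintro ⟨_, i, rfl⟩
    refine ⟨⟨F i, i, rfl⟩, Subtype.ext ?_⟩
    rw [← hk]
    exact (⟨F i, i, rfl⟩ : Set.range F).2.choose_spec

end

end Pool.Agent.H462.JL
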