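import Mathlib

/-!
# Radicals of several symmetric forms with a common random part

`X → V` is a surjective map of vector spaces over the field with three elements, `C i` are symmetric
forms on `X`, and `S` is a random symmetric form on `V` which vanishes on the subspace `Z`.
-/

set_option autoImplicit false

open scoped Classical

namespace Pool.Agent.H462.JL

open Module

attribute [-instance] AddSubgroupClass.instZModModule

section card
variable {M N : Type} [AddCommGroup M] [Module (ZMod 3) M] [AddCommGroup N]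
  [Module (ZMod 3) N]

lemma card_ker [Finite M] [Finite N] (f : M →ₗ[ZMod 3] N) :
    Nat.card M = Nat.card (LinearMap.ker f) * Nat.card (LinearMap.range f) := by
  have h1 := Submodule.card_eq_card_quotient_mul_card (LinearMap.ker f)
  rw [h1, Nat.card_congr f.quotKerEquivRange.toEquiv, mul_comm]

lemma card_le_ker [Finite M] [Finite N] (f : M →ₗ[ZMod 3] N) :
    Nat.card M ≤ Nat.card (LinearMap.ker f) * Nat.card N := by
  rw [card_ker f]
  exact Nat.mul_le_mul_left _ (Nat.card_le_card_of_injective _ Subtype.val_injective)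

lemma card_pow (M : Type) [AddCommGroup M] [Module (ZMod 3) M] [Finite M] :
    Nat.card M = 3 ^ finrank (ZMod 3) M := by
  rw [Module.natCard_eq_pow_finrank (K := ZMod 3), Nat.card_zmod]

lemma card_pos (M : Type) [AddCommGroup M] [Finite M] : 0 < Nat.card M := Nat.card_pos

/-- the ranks of a pairing -/
lemma flip_card [Finite M] [Finite N] (b : M →ₗ[ZMod 3] N →ₗ[ZMod 3] ZMod 3) :
    Nat.card M * Nat.card (LinearMap.ker b.flip) = Nat.card N * Nat.card (LinearMap.ker b) := by
  have h1 : finrank (ZMod 3) (LinearMap.range b.flip) = finrank (ZMod 3) (LinearMap.range b) := by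
    rw [← LinearMap.finrank_range_dualMap_eq_finrank_range b]
    have h2 : b.flip = b.dualMap ∘ₗ (Module.evalEquiv (ZMod 3) N).toLinearMap := by
      ext y x
      rfl
    have h3 : LinearMap.range b.flip = LinearMap.range b.dualMap := by
      rw [h2]
      exact LinearMap.range_comp_of_range_eq_top _ (LinearEquiv.range _)
    rw [h3]
  have h4 := LinearMap.finrank_range_add_finrank_ker b
  have h5 := LinearMap.finrank_range_add_finrank_ker b.flip
  rw [card_pow M, card_pow N, card_pow (LinearMap.ker b.flip), card_pow (LinearMap.ker b),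
    ← pow_add, ← pow_add]
  congr 1
  omega

/-- the linear forms which vanish on a subspace -/
def An (Z : Submodule (ZMod 3) M) : AddSubgroup (M →ₗ[ZMod 3] ZMod 3) where
  carrier := {l | ∀ z ∈ Z, l z = 0}
  add_mem' := fun {a b} ha hb z hz => by
    rw [LinearMap.add_apply, ha z hz, hb z hz, add_zero]
  zero_mem' := fun z _ => rfl
  neg_mem' := fun {a} ha z hz => by
    rw [LinearMap.neg_apply, ha z hz, neg_zero]

lemma card_An [Finite M] (Z : Submodule (ZMod 3) M) :
    Nat.card (An Z) * Nat.card Z = Nat.card M := by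
  have h1 : Nat.card (An Z) = Nat.card Z.dualAnnihilator := by
    refine Nat.card_congr (Equiv.subtypeEquivRight fun l => ?_)
    rw [Submodule.mem_dualAnnihilator]
    rfl
  have h2 := Subspace.finrank_add_finrank_dualAnnihilator_eq Z
  rw [h1, card_pow Z, card_pow M]
  have hfin : Finite (Module.Dual (ZMod 3) M) := DFunLike.finite _
  have h3 : Nat.card Z.dualAnnihilator = 3 ^ finrank (ZMod 3) Z.dualAnnihilator := by
    have := @card_pow Z.dualAnnihilator inferInstance inferInstance inferInstance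
    exact this
  rw [h3, ← pow_add, ← h2]
  congr 1
  omega

/-- a linear form which separates -/
lemma exists_mu [Finite M] {Z : Submodule (ZMod 3) M} {v : M} (hv : v ∉ Z) :
    ∃ μ : M →ₗ[ZMod 3] ZMod 3, μ v = 1 ∧ ∀ z ∈ Z, μ z = 0 := by
  obtain ⟨f, hf, hZ⟩ := Submodule.exists_le_ker_of_notMem hv
  refine ⟨(f v)⁻¹ • f, ?_, fun z hz => ?_⟩
  · rw [LinearMap.smul_apply, smul_eq_mul, inv_mul_cancel₀ hf]
  · rw [LinearMap.smul_apply, LinearMap.mem_ker.1 (hZ hz), smul_zero]

lemma card_sup [Finite M] {Z : Submodule (ZMod 3) M} {v : M} (hv : v ∉ Z) :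
    Nat.card (Z ⊔ Submodule.span (ZMod 3) {v} : Submodule (ZMod 3) M) = 3 * Nat.card Z := by
  have h1 : Nat.card (ZMod 3 × Z) = 3 * Nat.card Z := by
    rw [Nat.card_prod, Nat.card_zmod]
  rw [← h1]
  symm
  refine Nat.card_congr (Equiv.ofBijective
    (fun p => ⟨p.2 + p.1 • v, Submodule.add_mem_sup p.2.2
      (Submodule.smul_mem _ _ (Submodule.mem_span_singleton_self v))⟩) ⟨?_, ?_⟩)
  · rintro ⟨c, z⟩ ⟨c', z'⟩ h
    have h2 : (z : M) + c • v = z' + c' • v := congrArg Subtype.val h
    have h3 : (c - c') • v = z' - z := by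
      rw [sub_smul]
      have : c • v = z' + c' • v - z := by rw [← h2]; abel
      rw [this]
      abel
    have h4 : c = c' := by
      by_contra hc
      apply hv
      have h5 : v = (c - c')⁻¹ • ((z' : M) - z) := by
        rw [← h3, smul_smul, inv_mul_cancel₀ (sub_ne_zero.2 hc), one_smul]
      rw [h5]
      exact Z.smul_mem _ (Z.sub_mem z'.2 z.2)
    subst h4
    rw [add_left_inj] at h2
    rw [Subtype.ext h2]
  · rintro ⟨y, hy⟩
    obtain ⟨z, hz, u, hu, rfl⟩ := Submodule.mem_sup.1 hy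
    obtain ⟨c, rfl⟩ := Submodule.mem_span_singleton.1 hu
    exact ⟨(c, ⟨z, hz⟩), rfl⟩

end card

variable {X V I : Type} [AddCommGroup X] [Module (ZMod 3) X] [AddCommGroup V]
  [Module (ZMod 3) V]

/-- bilinear forms -/
abbrev Bf (V : Type) [AddCommGroup V] [Module (ZMod 3) V] : Type :=
  V →ₗ[ZMod 3] V →ₗ[ZMod 3] ZMod 3

instance [Finite V] : Finite (Bf V) := by
  have h1 : Finite (V →ₗ[ZMod 3] ZMod 3) := DFunLike.finite _
  exact DFunLike.finite _

/-- the symmetric forms which vanish on `Z` -/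
def Sg (Z : Submodule (ZMod 3) V) : AddSubgroup (Bf V) where
  carrier := {S | (∀ u v, S u v = S v u) ∧ ∀ z ∈ Z, S z = 0}
  add_mem' := fun {a b} ha hb => ⟨fun u v => by
    rw [LinearMap.add_apply, LinearMap.add_apply, LinearMap.add_apply, LinearMap.add_apply,
      ha.1 u v, hb.1 u v], fun z hz => by
    rw [LinearMap.add_apply, ha.2 z hz, hb.2 z hz, add_zero]⟩
  zero_mem' := ⟨fun _ _ => rfl, fun _ _ => rfl⟩
  neg_mem' := fun {a} ha => ⟨fun u v => by
    rw [LinearMap.neg_apply, LinearMap.neg_apply, LinearMap.neg_apply, LinearMap.neg_apply,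
      ha.1 u v], fun z hz => by
    rw [LinearMap.neg_apply, ha.2 z hz, neg_zero]⟩

lemma mem_Sg {Z : Submodule (ZMod 3) V} {S : Bf V} :
    S ∈ Sg Z ↔ (∀ u v, S u v = S v u) ∧ ∀ z ∈ Z, S z = 0 := Iff.rfl

/-- a symmetric form with a given value at `v` -/
lemma exists_S0 [Finite V] {Z : Submodule (ZMod 3) V} {v : V} (hv : v ∉ Z)
    {l : V →ₗ[ZMod 3] ZMod 3} (hl : l ∈ An Z) : ∃ S ∈ Sg Z, S v = l := by
  obtain ⟨μ, h1, h2⟩ := exists_mu hv
  -- the form `μ ⊗ l + l ⊗ μ - l v μ ⊗ μ`
  let S : Bf V := LinearMap.mk₂ (ZMod 3)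
    (fun a b => μ a * l b + l a * μ b - l v * (μ a * μ b))
    (fun a a' b => by simp only [map_add]; ring)
    (fun c a b => by simp only [map_smul, smul_eq_mul]; ring)
    (fun a b b' => by simp only [map_add]; ring)
    (fun c a b => by simp only [map_smul, smul_eq_mul]; ring)
  have hS : ∀ a b, S a b = μ a * l b + l a * μ b - l v * (μ a * μ b) := fun a b => rfl
  refine ⟨S, ⟨fun a b => by rw [hS, hS]; ring, fun z hz => ?_⟩, ?_⟩
  · ext b
    rw [hS, h2 z hz, hl z hz]
    simp
  · ext b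
    rw [hS, h1]
    ring

/-- the number of the forms -/
lemma card_Sg [Finite V] {Z : Submodule (ZMod 3) V} {v : V} (hv : v ∉ Z) :
    Nat.card (Sg Z) * Nat.card Z =
      Nat.card V * Nat.card (Sg (Z ⊔ Submodule.span (ZMod 3) {v})) := by
  -- evaluation at `v`
  let f : Sg Z →+ An Z :=
    { toFun := fun S => ⟨(S : Bf V) v, fun z hz => by
        rw [S.2.1 v z, S.2.2 z hz]
        rfl⟩
      map_zero' := rfl
      map_add' := fun S T => rfl }
  have hsur : Function.Surjective f := by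
    rintro ⟨l, hl⟩
    obtain ⟨S, hS, h⟩ := exists_S0 hv hl
    exact ⟨⟨S, hS⟩, Subtype.ext h⟩
  have h1 : Nat.card (Sg Z) = Nat.card f.ker * Nat.card (An Z) := by
    rw [AddSubgroup.card_eq_card_quotient_mul_card_addSubgroup f.ker,
      Nat.card_congr (QuotientAddGroup.quotientKerEquivOfSurjective f hsur).toEquiv, mul_comm]
  have h3 : Nat.card f.ker =
      Nat.card (Sg (Z ⊔ Submodule.span (ZMod 3) {v})) := by
    refine Nat.card_congr
      { toFun := fun S => ⟨(S.1 : Bf V), S.1.2.1, fun z hz => ?_⟩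
        invFun := fun S => ⟨⟨S.1, S.2.1, fun z hz => S.2.2 z (Submodule.mem_sup_left hz)⟩, ?_⟩
        left_inv := fun S => rfl
        right_inv := fun S => rfl }
    · obtain ⟨z', hz', u, hu, rfl⟩ := Submodule.mem_sup.1 hz
      obtain ⟨c, rfl⟩ := Submodule.mem_span_singleton.1 hu
      have h4 : ((S.1 : Sg Z) : Bf V) v = 0 := congrArg Subtype.val (AddMonoidHom.mem_ker.1 S.2)
      rw [map_add, map_smul, S.1.2.2 z' hz', h4, smul_zero, add_zero]
    · rw [AddMonoidHom.mem_ker]
      apply Subtype.ext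
      exact S.2.2 v (Submodule.mem_sup_right (Submodule.mem_span_singleton_self v))
  rw [h1, h3, mul_assoc, card_An, mul_comm]

/-- the pullback of a form -/
def pb (π : X →ₗ[ZMod 3] V) (S : Bf V) : Bf X := S.compl₁₂ π π

@[simp] lemma pb_apply (π : X →ₗ[ZMod 3] V) (S : Bf V) (x y : X) :
    pb π S x y = S (π x) (π y) := rfl

/-- the radical -/
def rad (π : X →ₗ[ZMod 3] V) (C : Bf X) (S : Bf V) : Submodule (ZMod 3) X :=
  LinearMap.ker (C + pb π S)

lemma mem_rad {π : X →ₗ[ZMod 3] V} {C : Bf X} {S : Bf V} {x : X} :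
    x ∈ rad π C S ↔ ∀ y, C x y + S (π x) (π y) = 0 := by
  unfold rad
  rw [LinearMap.mem_ker]
  constructor
  · intro h y
    exact congrArg (fun l : X →ₗ[ZMod 3] ZMod 3 => l y) h
  · intro h
    ext y
    exact h y

/-- the data -/
structure Dat (X V I : Type) [AddCommGroup X] [Module (ZMod 3) X] [AddCommGroup V]
    [Module (ZMod 3) V] where
  Z : Submodule (ZMod 3) V
  K : I → Submodule (ZMod 3) X
  C : I → Bf X

/-- the radical of the difference of two forms -/
def Rd (π : X →ₗ[ZMod 3] V) (Z : Submodule (ZMod 3) V) (C C' : Bf X) :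
    Submodule (ZMod 3) (X × X) where
  carrier := {w | π w.1 - π w.2 ∈ Z ∧ ∀ w' : X × X, π w'.1 - π w'.2 ∈ Z →
    C w.1 w'.1 = C' w.2 w'.2}
  add_mem' := fun {a b} ha hb => ⟨by
    have e : π (a + b).1 - π (a + b).2 = (π a.1 - π a.2) + (π b.1 - π b.2) := by
      rw [Prod.fst_add, Prod.snd_add, map_add, map_add]
      abel
    rw [e]
    exact Z.add_mem ha.1 hb.1, fun w' hw' => by
    rw [Prod.fst_add, Prod.snd_add, map_add, map_add, LinearMap.add_apply, LinearMap.add_apply,
      ha.2 w' hw', hb.2 w' hw']⟩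
  zero_mem' := ⟨by simp, fun w' _ => by simp⟩
  smul_mem' := fun c a ha => ⟨by
    have e : π (c • a).1 - π (c • a).2 = c • (π a.1 - π a.2) := by
      rw [Prod.smul_fst, Prod.smul_snd, map_smul, map_smul, smul_sub]
    rw [e]
    exact Z.smul_mem c ha.1, fun w' hw' => by
    rw [Prod.smul_fst, Prod.smul_snd, map_smul, map_smul, LinearMap.smul_apply,
      LinearMap.smul_apply, ha.2 w' hw']⟩

lemma mem_Rd {π : X →ₗ[ZMod 3] V} {Z : Submodule (ZMod 3) V} {C C' : Bf X} {w : X × X} :
    w ∈ Rd π Z C C' ↔ π w.1 - π w.2 ∈ Z ∧ ∀ w' : X × X, π w'.1 - π w'.2 ∈ Z →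
      C w.1 w'.1 = C' w.2 w'.2 := Iff.rfl

/-- the quality of the data -/
structure Ql (π : X →ₗ[ZMod 3] V) (D : Dat X V I) (τ : ℕ) : Prop where
  sym : ∀ i x y, D.C i x y = D.C i y x
  k0 : ∀ i, ∀ x ∈ D.K i, D.C i x = 0
  kz : ∀ i, ∀ x ∈ D.K i, π x ∈ D.Z
  k1 : ∀ i x, D.C i x = 0 → π x ∈ D.Z → x ∈ D.K i
  q2 : ∀ i j, i ≠ j → Nat.card (Rd π D.Z (D.C i) (D.C j)) * 3 ^ τ * Nat.card D.Z ≤
    Nat.card V * (Nat.card (D.K i) * Nat.card (D.K j))
  q3 : ∀ i, Nat.card (D.Z.comap π) * 3 ^ τ * Nat.card D.Z ≤ Nat.card V * Nat.card (D.K i)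

lemma card_comap [Finite X] [Finite V] {π : X →ₗ[ZMod 3] V} (hπ : Function.Surjective π)
    (Z : Submodule (ZMod 3) V) :
    Nat.card (Z.comap π) * Nat.card V = Nat.card X * Nat.card Z := by
  let f : Z.comap π →ₗ[ZMod 3] Z := (π.comp (Z.comap π).subtype).codRestrict Z fun x => x.2
  have hf : Function.Surjective f := by
    rintro ⟨z, hz⟩
    obtain ⟨x, rfl⟩ := hπ z
    exact ⟨⟨x, hz⟩, rfl⟩
  have h1 := card_ker f
  have h2 := card_ker π
  rw [LinearMap.range_eq_top.2 hf] at h1
  rw [LinearMap.range_eq_top.2 hπ] at h2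
  have t1 : Nat.card (⊤ : Submodule (ZMod 3) Z) = Nat.card Z := Nat.card_congr (Equiv.Set.univ _)
  have t2 : Nat.card (⊤ : Submodule (ZMod 3) V) = Nat.card V := Nat.card_congr (Equiv.Set.univ _)
  rw [t1] at h1
  rw [t2] at h2
  have h3 : Nat.card (LinearMap.ker f) = Nat.card (LinearMap.ker π) := by
    refine Nat.card_congr
      { toFun := fun x => ⟨x.1.1, congrArg Subtype.val (LinearMap.mem_ker.1 x.2)⟩
        invFun := fun x => ⟨⟨x.1, by
          rw [Submodule.mem_comap, LinearMap.mem_ker.1 x.2]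
          exact Z.zero_mem⟩, LinearMap.mem_ker.2 (Subtype.ext (LinearMap.mem_ker.1 x.2))⟩
        left_inv := fun x => rfl
        right_inv := fun x => rfl }
  rw [h1, h2, h3]
  ring

end Pool.Agent.H462.JL
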