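import Pool.Agent.H462.JL.LA1

/-!
# The recursion
-/

set_option autoImplicit false

open scoped Classical

namespace Pool.Agent.H462.JL

open Module

attribute [-instance] AddSubgroupClass.instZModModule

variable {X V I : Type} [AddCommGroup X] [Module (ZMod 3) X] [AddCommGroup V]
  [Module (ZMod 3) V]

/-- the event that the radicals have given orders -/
def Ev (π : X →ₗ[ZMod 3] V) (D : Dat X V I) (s : Finset I) (r : I → ℕ) : Set (Bf V) :=
  {S | S ∈ Sg D.Z ∧ ∀ i ∈ s, Nat.card (rad π (D.C i) S) = 3 ^ r i * Nat.card (D.K i)}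

/-- the new data -/
noncomputable def nx (π : X →ₗ[ZMod 3] V) (D : Dat X V I) (i : I) (x : X) (S₀ : Bf V) : Dat X V I where
  Z := D.Z ⊔ Submodule.span (ZMod 3) {π x}
  K := Function.update D.K i (D.K i ⊔ Submodule.span (ZMod 3) {x})
  C := fun j => D.C j + pb π S₀

/-- the admissible vectors -/
def Gd (π : X →ₗ[ZMod 3] V) (D : Dat X V I) (i : I) : Set X :=
  {x | π x ∉ D.Z ∧ ∀ y, π y ∈ D.Z → D.C i x y = 0}

/-- the condition on the base point -/
def Bs (π : X →ₗ[ZMod 3] V) (D : Dat X V I) (i : I) (x : X) (S₀ : Bf V) : Prop :=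
  S₀ ∈ Sg D.Z ∧ ∀ y, S₀ (π x) (π y) = - D.C i x y

lemma exists_bs [Finite V] {π : X →ₗ[ZMod 3] V} (hπ : Function.Surjective π) {D : Dat X V I}
    {i : I} {x : X} (hx : x ∈ Gd π D i) : ∃ S₀, Bs π D i x S₀ := by
  obtain ⟨σ, hσ⟩ := LinearMap.exists_rightInverse_of_surjective π (LinearMap.range_eq_top.2 hπ)
  have hσ' : ∀ v, π (σ v) = v := fun v => congrArg (fun l : V →ₗ[ZMod 3] V => l v) hσ
  let l : V →ₗ[ZMod 3] ZMod 3 := -(D.C i x ∘ₗ σ)
  have hl : l ∈ An D.Z := by
    intro z hz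
    show -(D.C i x (σ z)) = 0
    rw [hx.2 (σ z) (by rw [hσ']; exact hz), neg_zero]
  obtain ⟨S, hS, h⟩ := exists_S0 hx.1 hl
  refine ⟨S, hS, fun y => ?_⟩
  rw [h]
  show -(D.C i x (σ (π y))) = - D.C i x y
  have h1 : D.C i x (σ (π y) - y) = 0 := by
    apply hx.2
    rw [map_sub, hσ', sub_self]
    exact D.Z.zero_mem
  rw [map_sub, sub_eq_zero] at h1
  rw [h1]

lemma rad_nx {π : X →ₗ[ZMod 3] V} {C : Bf X} {S₀ T : Bf V} :
    rad π (C + pb π S₀) T = rad π C (T + S₀) := by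
  ext x
  rw [mem_rad, mem_rad]
  refine forall_congr' fun y => ?_
  rw [LinearMap.add_apply, LinearMap.add_apply, pb_apply, LinearMap.add_apply,
    LinearMap.add_apply]
  have e : ∀ a b c : ZMod 3, a + b + c = a + (c + b) := fun a b c => by ring
  rw [e]

lemma not_mem_K {π : X →ₗ[ZMod 3] V} {D : Dat X V I} {τ : ℕ} (q : Ql π D τ) {i : I} {x : X}
    (hx : x ∈ Gd π D i) : x ∉ D.K i := fun h => hx.1 (q.kz i x h)

lemma Knx_self {π : X →ₗ[ZMod 3] V} {D : Dat X V I} {i : I} {x : X} (S₀ : Bf V) :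
    (nx π D i x S₀).K i = D.K i ⊔ Submodule.span (ZMod 3) {x} := by
  show Function.update D.K i (D.K i ⊔ Submodule.span (ZMod 3) {x}) i = _
  exact Function.update_self _ _ _

lemma bf_sub_add (S T : Bf V) : S - T + T = S := by
  ext a b
  show S a b - T a b + T a b = S a b
  ring

lemma bf_inj (T : Bf V) : Function.Injective (fun S : Bf V => S + T) := by
  intro S S' h
  ext a b
  have h1 := congrArg (fun U : Bf V => U a b) h
  have h2 : S a b + T a b = S' a b + T a b := h1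
  exact add_right_cancel h2

lemma Knx_card [Finite X] {π : X →ₗ[ZMod 3] V} {D : Dat X V I} {τ : ℕ} (q : Ql π D τ) {i : I}
    {x : X} (hx : x ∈ Gd π D i) (S₀ : Bf V) :
    Nat.card ((nx π D i x S₀).K i) = 3 * Nat.card (D.K i) := by
  rw [Knx_self]
  exact card_sup (not_mem_K q hx)

lemma Knx_ne {π : X →ₗ[ZMod 3] V} {D : Dat X V I} {i j : I} (hj : j ≠ i) {x : X} (S₀ : Bf V) :
    (nx π D i x S₀).K j = D.K j := by
  show Function.update D.K i (D.K i ⊔ Submodule.span (ZMod 3) {x}) j = _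
  exact Function.update_of_ne hj _ _

/-- the forms with `x` in the radical -/
theorem ev_nx [Finite X] {π : X →ₗ[ZMod 3] V} (hπ : Function.Surjective π) {D : Dat X V I} {τ : ℕ}
    (q : Ql π D τ) {i : I} {x : X} (hx : x ∈ Gd π D i) {S₀ : Bf V} (hS₀ : Bs π D i x S₀)
    (s : Finset I) (r : I → ℕ) :
    {S ∈ Ev π D s (Function.update r i (r i + 1)) | x ∈ rad π (D.C i) S}.ncard =
      (Ev π (nx π D i x S₀) s r).ncard := by
  have hcard : ∀ j, 3 ^ (Function.update r i (r i + 1)) j * Nat.card (D.K j) =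
      3 ^ r j * Nat.card ((nx π D i x S₀).K j) := by
    intro j
    by_cases hj : j = i
    · subst hj
      rw [Knx_card q hx, Function.update_self, pow_succ]
      ring
    · rw [Knx_ne hj, Function.update_of_ne hj]
  have hsp : π x ∈ D.Z ⊔ Submodule.span (ZMod 3) {π x} :=
    Submodule.mem_sup_right (Submodule.mem_span_singleton_self _)
  have e : {S ∈ Ev π D s (Function.update r i (r i + 1)) | x ∈ rad π (D.C i) S} =
      (fun T => T + S₀) '' (Ev π (nx π D i x S₀) s r) := by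
    ext S
    constructor
    · rintro ⟨⟨h1, h2⟩, h3⟩
      refine ⟨S - S₀, ⟨⟨fun u v => ?_, fun z hz => ?_⟩, fun j hj => ?_⟩, bf_sub_add _ _⟩
      · rw [LinearMap.sub_apply, LinearMap.sub_apply, LinearMap.sub_apply, LinearMap.sub_apply,
          h1.1 u v, hS₀.1.1 u v]
      · have hz' : z ∈ D.Z ⊔ Submodule.span (ZMod 3) {π x} := hz
        obtain ⟨z', hz1, u, hu, rfl⟩ := Submodule.mem_sup.1 hz'
        obtain ⟨c, rfl⟩ := Submodule.mem_span_singleton.1 hu
        have h4 : (S - S₀) (π x) = 0 := by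
          ext v
          obtain ⟨y, rfl⟩ := hπ v
          rw [LinearMap.sub_apply, LinearMap.sub_apply, hS₀.2 y]
          have := mem_rad.1 h3 y
          show S (π x) (π y) - -(D.C i x y) = 0
          rw [sub_neg_eq_add, add_comm]
          exact this
        have h5 : (S - S₀) z' = 0 := by
          rw [LinearMap.sub_apply, h1.2 z' hz1, hS₀.1.2 z' hz1, sub_zero]
        rw [map_add, map_smul, h4, h5, smul_zero, add_zero]
      · have h4 : (nx π D i x S₀).C j = D.C j + pb π S₀ := rfl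
        rw [h4, rad_nx, bf_sub_add, h2 j hj, hcard]
    · rintro ⟨T, ⟨h1, h2⟩, rfl⟩
      have hT0 : T (π x) = 0 := h1.2 _ hsp
      refine ⟨⟨(Sg D.Z).add_mem ⟨h1.1, fun z hz => h1.2 z (Submodule.mem_sup_left hz)⟩ hS₀.1,
        fun j hj => ?_⟩, ?_⟩
      · have h3 := h2 j hj
        have h4 : (nx π D i x S₀).C j = D.C j + pb π S₀ := rfl
        rw [h4, rad_nx] at h3
        rw [h3, hcard]
      · rw [mem_rad]
        intro y
        rw [LinearMap.add_apply, LinearMap.add_apply, hT0, hS₀.2 y]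
        simp
  rw [e, Set.ncard_image_of_injective _ (bf_inj S₀)]

/-- the radical outside of `K` -/
lemma rad_diff {π : X →ₗ[ZMod 3] V} {D : Dat X V I} {τ : ℕ} (q : Ql π D τ) {i : I} {S : Bf V}
    (hS : S ∈ Sg D.Z) {x : X} : (x ∈ Gd π D i ∧ x ∈ rad π (D.C i) S) ↔
      (x ∈ rad π (D.C i) S ∧ x ∉ D.K i) := by
  constructor
  · rintro ⟨h1, h2⟩
    exact ⟨h2, not_mem_K q h1⟩
  · rintro ⟨h1, h2⟩
    refine ⟨⟨fun hz => h2 ?_, fun y hy => ?_⟩, h1⟩
    · refine q.k1 i x ?_ hz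
      ext y
      have h3 := mem_rad.1 h1 y
      rw [hS.2 _ hz] at h3
      simpa using h3
    · have h3 := mem_rad.1 h1 y
      rw [hS.1, hS.2 _ hy] at h3
      simpa using h3

lemma K_le_rad {π : X →ₗ[ZMod 3] V} {D : Dat X V I} {τ : ℕ} (q : Ql π D τ) (i : I) {S : Bf V}
    (hS : S ∈ Sg D.Z) : D.K i ≤ rad π (D.C i) S := by
  intro x hx
  rw [mem_rad]
  intro y
  rw [q.k0 i x hx, hS.2 _ (q.kz i x hx)]
  simp

/-- the number of the admissible vectors in the radical -/
lemma card_Gd_rad [Finite X] {π : X →ₗ[ZMod 3] V} {D : Dat X V I} {τ : ℕ} (q : Ql π D τ) {i : I}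
    {S : Bf V} (hS : S ∈ Sg D.Z) :
    ({x | x ∈ Gd π D i ∧ x ∈ rad π (D.C i) S}).ncard + Nat.card (D.K i) =
      Nat.card (rad π (D.C i) S) := by
  have e : {x | x ∈ Gd π D i ∧ x ∈ rad π (D.C i) S} =
      (rad π (D.C i) S : Set X) \ (D.K i : Set X) := by
    ext x
    exact rad_diff q hS
  have h1 : Nat.card (D.K i) = (D.K i : Set X).ncard := Nat.card_coe_set_eq _
  have h2 : Nat.card (rad π (D.C i) S) = (rad π (D.C i) S : Set X).ncard := Nat.card_coe_set_eq _
  rw [e, h1, h2]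
  exact Set.ncard_sdiff_add_ncard_of_subset (K_le_rad q i hS) (Set.toFinite _)

/-- **double counting** -/
theorem double [Finite X] [Finite V] {π : X →ₗ[ZMod 3] V} (hπ : Function.Surjective π)
    {D : Dat X V I} {τ : ℕ} (q : Ql π D τ) {i : I} {s : Finset I} (hi : i ∈ s) (r : I → ℕ)
    (T : X → Bf V) (hT : ∀ x ∈ Gd π D i, Bs π D i x (T x)) :
    ∑ x ∈ (Set.toFinite (Gd π D i)).toFinset, (Ev π (nx π D i x (T x)) s r).ncard +
      Nat.card (D.K i) * (Ev π D s (Function.update r i (r i + 1))).ncard =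
    3 ^ (r i + 1) * Nat.card (D.K i) * (Ev π D s (Function.update r i (r i + 1))).ncard := by
  have hfE : (Ev π D s (Function.update r i (r i + 1))).Finite := Set.toFinite _
  obtain ⟨E, hE⟩ : ∃ E : Finset (Bf V), E = hfE.toFinset := ⟨_, rfl⟩
  obtain ⟨G, hG⟩ : ∃ G : Finset X, G = (Set.toFinite (Gd π D i)).toFinset := ⟨_, rfl⟩
  have hEm : ∀ S, S ∈ E ↔ S ∈ Ev π D s (Function.update r i (r i + 1)) := fun S => by
    rw [hE, Set.Finite.mem_toFinset]
  have hGm : ∀ x, x ∈ G ↔ x ∈ Gd π D i := fun x => by rw [hG, Set.Finite.mem_toFinset]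
  have hEc : (Ev π D s (Function.update r i (r i + 1))).ncard = E.card := by
    rw [hE, Set.ncard_eq_toFinset_card _ hfE]
  have h1 : ∑ x ∈ G, (Ev π (nx π D i x (T x)) s r).ncard =
      ∑ x ∈ G, (E.filter fun S => x ∈ rad π (D.C i) S).card := by
    refine Finset.sum_congr rfl fun x hx => ?_
    rw [← ev_nx hπ q ((hGm x).1 hx) (hT x ((hGm x).1 hx)) s r, ← Set.ncard_coe_finset]
    congr 1
    ext S
    rw [Finset.coe_filter]
    show _ ↔ S ∈ E ∧ _
    rw [hEm]
    rfl
  have h2 : ∑ x ∈ G, (E.filter fun S => x ∈ rad π (D.C i) S).card =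
      ∑ S ∈ E, (G.filter fun x => x ∈ rad π (D.C i) S).card :=
    Finset.sum_card_bipartiteAbove_eq_sum_card_bipartiteBelow _
  have h3 : ∀ S ∈ E, (G.filter fun x => x ∈ rad π (D.C i) S).card + Nat.card (D.K i) =
      3 ^ (r i + 1) * Nat.card (D.K i) := by
    intro S hS
    obtain ⟨h4, h5⟩ := (hEm S).1 hS
    have h6 := h5 i hi
    rw [Function.update_self] at h6
    rw [← h6, ← card_Gd_rad q h4, ← Set.ncard_coe_finset]
    congr 2
    ext x
    rw [Finset.coe_filter]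
    show x ∈ G ∧ _ ↔ _
    rw [hGm]
    rfl
  rw [← hG, h1, h2, hEc]
  have h4 : ∑ S ∈ E, ((G.filter fun x => x ∈ rad π (D.C i) S).card + Nat.card (D.K i)) =
      E.card * (3 ^ (r i + 1) * Nat.card (D.K i)) := by
    rw [Finset.sum_congr rfl h3, Finset.sum_const, smul_eq_mul]
  rw [Finset.sum_add_distrib, Finset.sum_const, smul_eq_mul] at h4
  linarith

/-! ### the number of the admissible vectors -/

/-- the orthogonal complement -/
def Go (π : X →ₗ[ZMod 3] V) (D : Dat X V I) (i : I) : Submodule (ZMod 3) X :=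
  LinearMap.ker ((D.C i).compl₂ (D.Z.comap π).subtype)

lemma mem_Go {π : X →ₗ[ZMod 3] V} {D : Dat X V I} {i : I} {x : X} :
    x ∈ Go π D i ↔ ∀ y, π y ∈ D.Z → D.C i x y = 0 := by
  unfold Go
  rw [LinearMap.mem_ker]
  constructor
  · intro h y hy
    exact congrArg (fun l : (D.Z.comap π) →ₗ[ZMod 3] ZMod 3 => l ⟨y, hy⟩) h
  · intro h
    ext y
    exact h y y.2

theorem card_Go [Finite X] [Finite V] {π : X →ₗ[ZMod 3] V} (hπ : Function.Surjective π)
    {D : Dat X V I} {τ : ℕ} (q : Ql π D τ) (i : I) :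
    Nat.card (Go π D i) * Nat.card D.Z = Nat.card V * Nat.card (D.K i) := by
  have h1 := flip_card ((D.C i).compl₂ (D.Z.comap π).subtype)
  have h2 : Nat.card (LinearMap.ker ((D.C i).compl₂ (D.Z.comap π).subtype).flip) =
      Nat.card (D.K i) := by
    refine Nat.card_congr
      { toFun := fun y => ⟨y.1.1, q.k1 i _ ?_ y.1.2⟩
        invFun := fun y => ⟨⟨y.1, q.kz i _ y.2⟩, ?_⟩
        left_inv := fun y => rfl
        right_inv := fun y => rfl }
    · ext x
      rw [q.sym]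
      exact congrArg (fun l : X →ₗ[ZMod 3] ZMod 3 => l x) (LinearMap.mem_ker.1 y.2)
    · rw [LinearMap.mem_ker]
      ext x
      show D.C i x y.1 = 0
      rw [q.sym, q.k0 i _ y.2]
      rfl
  have h3 : Nat.card (LinearMap.ker ((D.C i).compl₂ (D.Z.comap π).subtype)) =
      Nat.card (Go π D i) := rfl
  have h4 := card_comap hπ D.Z
  rw [h2, h3] at h1
  have hX : 0 < Nat.card X := Nat.card_pos
  apply Nat.eq_of_mul_eq_mul_left hX
  calc Nat.card X * (Nat.card (Go π D i) * Nat.card D.Z) =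
        (Nat.card X * Nat.card D.Z) * Nat.card (Go π D i) := by ring
    _ = (Nat.card (D.Z.comap π) * Nat.card V) * Nat.card (Go π D i) := by rw [h4]
    _ = (Nat.card (D.Z.comap π) * Nat.card (Go π D i)) * Nat.card V := by ring
    _ = (Nat.card X * Nat.card (D.K i)) * Nat.card V := by rw [h1]
    _ = _ := by ring

/-- the bad vectors -/
def Bd (π : X →ₗ[ZMod 3] V) (D : Dat X V I) (i j : I) : Submodule (ZMod 3) X :=
  LinearMap.range ((LinearMap.fst (ZMod 3) X X).comp (Rd π D.Z (D.C i) (D.C j)).subtype)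

lemma mem_Bd {π : X →ₗ[ZMod 3] V} {D : Dat X V I} {i j : I} {x : X} :
    x ∈ Bd π D i j ↔ ∃ y, (x, y) ∈ Rd π D.Z (D.C i) (D.C j) := by
  unfold Bd
  rw [LinearMap.mem_range]
  constructor
  · rintro ⟨⟨⟨a, b⟩, h⟩, rfl⟩
    exact ⟨b, h⟩
  · rintro ⟨y, h⟩
    exact ⟨⟨(x, y), h⟩, rfl⟩

theorem card_Bd [Finite X] {π : X →ₗ[ZMod 3] V} {D : Dat X V I} {τ : ℕ} (q : Ql π D τ)
    (i j : I) : Nat.card (Bd π D i j) * Nat.card (D.K j) ≤
      Nat.card (Rd π D.Z (D.C i) (D.C j)) := by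
  have h1 := card_ker ((LinearMap.fst (ZMod 3) X X).comp (Rd π D.Z (D.C i) (D.C j)).subtype)
  rw [h1, mul_comm]
  refine Nat.mul_le_mul_right _ ?_
  refine Nat.card_le_card_of_injective (fun k : D.K j => (⟨⟨(0, (k : X)), ?_, ?_⟩, ?_⟩ :
    LinearMap.ker ((LinearMap.fst (ZMod 3) X X).comp (Rd π D.Z (D.C i) (D.C j)).subtype))) ?_
  · show π 0 - π (k : X) ∈ D.Z
    rw [map_zero, zero_sub]
    exact D.Z.neg_mem (q.kz j _ k.2)
  · intro w' _
    show D.C i 0 w'.1 = D.C j (k : X) w'.2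
    rw [q.k0 j _ k.2]
    simp
  · rw [LinearMap.mem_ker]
    rfl
  · intro k k' h
    have h2 : ((0 : X), (k : X)) = (0, (k' : X)) :=
      congrArg (fun u : LinearMap.ker ((LinearMap.fst (ZMod 3) X X).comp
        (Rd π D.Z (D.C i) (D.C j)).subtype) => (u.1.1 : X × X)) h
    exact Subtype.ext (Prod.mk.inj h2).2

/-! ### the quality of the new data -/

lemma card_comap_sup [Finite X] [Finite V] {π : X →ₗ[ZMod 3] V} (hπ : Function.Surjective π)
    {Z : Submodule (ZMod 3) V} {v : V} (hv : v ∉ Z) :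
    Nat.card ((Z ⊔ Submodule.span (ZMod 3) {v}).comap π) = 3 * Nat.card (Z.comap π) := by
  have h1 := card_comap hπ Z
  have h2 := card_comap hπ (Z ⊔ Submodule.span (ZMod 3) {v})
  rw [card_sup hv] at h2
  have hV : 0 < Nat.card V := Nat.card_pos
  apply Nat.eq_of_mul_eq_mul_right hV
  rw [h2, mul_assoc, h1]
  ring

lemma Rd_nx [Finite X] [Finite V] {π : X →ₗ[ZMod 3] V} {D : Dat X V I} {i : I} {x : X}
    (hx : x ∈ Gd π D i) {S₀ : Bf V} (hS₀ : Bs π D i x S₀) (j k : I) :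
    Nat.card (Rd π (nx π D i x S₀).Z ((nx π D i x S₀).C j) ((nx π D i x S₀).C k)) ≤
      3 * Nat.card (Rd π D.Z (D.C j) (D.C k)) := by
  obtain ⟨μ, hμ1, hμ2⟩ := exists_mu hx.1
  obtain ⟨N, hN⟩ : ∃ N, N = Rd π (nx π D i x S₀).Z ((nx π D i x S₀).C j) ((nx π D i x S₀).C k) :=
    ⟨_, rfl⟩
  rw [← hN]
  let f : N →ₗ[ZMod 3] ZMod 3 :=
    (μ.comp (π.comp (LinearMap.fst (ZMod 3) X X) - π.comp (LinearMap.snd (ZMod 3) X X))).comp
      N.subtype
  have hf : ∀ w : N, f w = μ (π w.1.1 - π w.1.2) := fun w => rfl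
  have h1 := card_le_ker f
  rw [Nat.card_zmod, mul_comm] at h1
  refine h1.trans (Nat.mul_le_mul_left 3 ?_)
  refine Nat.card_le_card_of_injective
    (fun w : LinearMap.ker f => (⟨w.1.1, ?_⟩ : Rd π D.Z (D.C j) (D.C k))) ?_
  · obtain ⟨⟨w, hw⟩, hk⟩ := w
    have hk' : μ (π w.1 - π w.2) = 0 := hk
    rw [hN] at hw
    obtain ⟨h2, h3⟩ := hw
    have h4 : π w.1 - π w.2 ∈ D.Z := by
      have h2' : π w.1 - π w.2 ∈ D.Z ⊔ Submodule.span (ZMod 3) {π x} := h2
      obtain ⟨z, hz, u, hu, h5⟩ := Submodule.mem_sup.1 h2'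
      obtain ⟨c, rfl⟩ := Submodule.mem_span_singleton.1 hu
      rw [← h5, map_add, map_smul, hμ1, hμ2 z hz, zero_add, smul_eq_mul, mul_one] at hk'
      rw [hk', zero_smul, add_zero] at h5
      rw [← h5]
      exact hz
    refine ⟨h4, fun w' hw' => ?_⟩
    have h5 := h3 w' (Submodule.mem_sup_left hw')
    have h6 : D.C j w.1 w'.1 + S₀ (π w.1) (π w'.1) = D.C k w.2 w'.2 + S₀ (π w.2) (π w'.2) := h5
    have h7 : S₀ (π w.1) (π w'.1) = S₀ (π w.2) (π w'.2) := by
      have e1 : S₀ (π w.1 - π w.2) = 0 := hS₀.1.2 _ h4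
      have e2 : S₀ (π w'.1 - π w'.2) = 0 := hS₀.1.2 _ hw'
      rw [map_sub, sub_eq_zero] at e1 e2
      rw [e1, hS₀.1.1, e2, hS₀.1.1]
    rw [h7] at h6
    exact add_right_cancel h6
  · intro w w' h
    have h2 : w.1.1 = w'.1.1 := congrArg (fun u : Rd π D.Z (D.C j) (D.C k) => (u : X × X)) h
    exact Subtype.ext (Subtype.ext h2)

theorem Ql.next [Finite X] [Finite V] {π : X →ₗ[ZMod 3] V} (hπ : Function.Surjective π)
    {D : Dat X V I} {τ : ℕ} (q : Ql π D (τ + 2)) {i : I} {x : X} (hx : x ∈ Gd π D i) {S₀ : Bf V}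
    (hS₀ : Bs π D i x S₀) (hb : ∀ j, j ≠ i → x ∉ Bd π D i j) : Ql π (nx π D i x S₀) τ := by
  have hZ : (nx π D i x S₀).Z = D.Z ⊔ Submodule.span (ZMod 3) {π x} := rfl
  have hC : ∀ j a b, (nx π D i x S₀).C j a b = D.C j a b + S₀ (π a) (π b) := fun _ _ _ => rfl
  have hKle : ∀ j, D.K j ≤ (nx π D i x S₀).K j := by
    intro j
    by_cases hj : j = i
    · subst hj
      rw [Knx_self]
      exact le_sup_left
    · rw [Knx_ne hj]
  have hKc : ∀ j, Nat.card (D.K j) ≤ Nat.card ((nx π D i x S₀).K j) := fun j =>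
    Nat.card_le_card_of_injective (fun k : D.K j => (⟨k.1, hKle j k.2⟩ : (nx π D i x S₀).K j))
      fun a b h => Subtype.ext (congrArg (fun u : (nx π D i x S₀).K j => (u : X)) h)
  have hKi : (nx π D i x S₀).K i = D.K i ⊔ Submodule.span (ZMod 3) {x} := Knx_self S₀
  -- the vector `x` is in the new radical
  have hxr : (nx π D i x S₀).C i x = 0 := by
    ext y
    rw [hC, hS₀.2 y]
    simp
  have hkr : ∀ j, ∀ y ∈ D.K j, (nx π D i x S₀).C j y = 0 := by
    intro j y hy
    ext z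
    rw [hC, q.k0 j y hy, hS₀.1.2 _ (q.kz j y hy)]
    simp
  refine ⟨fun j a b => ?_, fun j y hy => ?_, fun j y hy => ?_, fun j y hy hz => ?_,
    fun j k hjk => ?_, fun j => ?_⟩
  · rw [hC, hC, q.sym, hS₀.1.1]
  · by_cases hj : j = i
    · subst hj
      rw [hKi] at hy
      obtain ⟨a, ha, u, hu, rfl⟩ := Submodule.mem_sup.1 hy
      obtain ⟨c, rfl⟩ := Submodule.mem_span_singleton.1 hu
      rw [map_add, map_smul, hxr, hkr j a ha, smul_zero, add_zero]
    · rw [Knx_ne hj] at hy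
      exact hkr j y hy
  · by_cases hj : j = i
    · subst hj
      rw [hKi] at hy
      obtain ⟨a, ha, u, hu, rfl⟩ := Submodule.mem_sup.1 hy
      obtain ⟨c, rfl⟩ := Submodule.mem_span_singleton.1 hu
      rw [map_add, map_smul, hZ]
      exact Submodule.add_mem_sup (q.kz j a ha)
        (Submodule.smul_mem _ _ (Submodule.mem_span_singleton_self _))
    · rw [Knx_ne hj] at hy
      exact Submodule.mem_sup_left (q.kz j y hy)
  · -- the nondegeneracy
    rw [hZ] at hz
    obtain ⟨z, hz', u, hu, h1⟩ := Submodule.mem_sup.1 hz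
    obtain ⟨c, rfl⟩ := Submodule.mem_span_singleton.1 hu
    by_cases hj : j = i
    · subst hj
      rw [hKi]
      have h2 : y - c • x ∈ D.K j := by
        apply q.k1
        · have h3 : (nx π D j x S₀).C j (y - c • x) = 0 := by
            rw [map_sub, map_smul, hy, hxr, smul_zero, sub_zero]
          ext b
          have h4 := congrArg (fun l : X →ₗ[ZMod 3] ZMod 3 => l b) h3
          have h5 : D.C j (y - c • x) b + S₀ (π (y - c • x)) (π b) = 0 := h4
          have h6 : π (y - c • x) ∈ D.Z := by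
            rw [map_sub, map_smul, ← h1, add_sub_cancel_right]
            exact hz'
          rw [hS₀.1.2 _ h6] at h5
          simpa using h5
        · rw [map_sub, map_smul, ← h1, add_sub_cancel_right]
          exact hz'
      have h3 : y = (y - c • x) + c • x := by abel
      rw [h3]
      exact Submodule.add_mem_sup h2
        (Submodule.smul_mem _ _ (Submodule.mem_span_singleton_self _))
    · rw [Knx_ne hj]
      by_cases hc : c = 0
      · rw [hc, zero_smul, add_zero] at h1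
        have h6 : π y ∈ D.Z := by rw [← h1]; exact hz'
        apply q.k1 j y ?_ h6
        ext b
        have h4 := congrArg (fun l : X →ₗ[ZMod 3] ZMod 3 => l b) hy
        have h5 : D.C j y b + S₀ (π y) (π b) = 0 := h4
        rw [hS₀.1.2 _ h6] at h5
        simpa using h5
      · exfalso
        apply hb j hj
        rw [mem_Bd]
        refine ⟨c⁻¹ • y, ?_, fun w' hw' => ?_⟩
        · show π x - π (c⁻¹ • y) ∈ D.Z
          have h7 : π x - π (c⁻¹ • y) = -(c⁻¹ • z) := by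
            rw [map_smul, ← h1, smul_add, smul_smul, inv_mul_cancel₀ hc, one_smul]
            abel
          rw [h7]
          exact D.Z.neg_mem (D.Z.smul_mem _ hz')
        · show D.C i x w'.1 = D.C j (c⁻¹ • y) w'.2
          have h4 := congrArg (fun l : X →ₗ[ZMod 3] ZMod 3 => l w'.2) hy
          have h5 : D.C j y w'.2 + S₀ (π y) (π w'.2) = 0 := h4
          have h6 := hS₀.2 w'.1
          have h7 : S₀ (π y) = c • S₀ (π x) := by
            rw [← h1, map_add, map_smul, hS₀.1.2 z hz', zero_add]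
          have h8 : S₀ (π x) (π w'.1) = S₀ (π x) (π w'.2) := by
            have e2 : S₀ (π w'.1 - π w'.2) = 0 := hS₀.1.2 _ hw'
            rw [map_sub, sub_eq_zero] at e2
            rw [hS₀.1.1, e2, hS₀.1.1]
          rw [h7, LinearMap.smul_apply, smul_eq_mul, ← h8, h6] at h5
          rw [map_smul, LinearMap.smul_apply, smul_eq_mul]
          have h9 : D.C j y w'.2 = c * D.C i x w'.1 := by linear_combination h5
          rw [h9, ← mul_assoc, inv_mul_cancel₀ hc, one_mul]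
  · have h1 := q.q2 j k hjk
    have h2 := Rd_nx hx hS₀ j k
    have h3 : Nat.card (nx π D i x S₀).Z = 3 * Nat.card D.Z := card_sup hx.1
    rw [h3]
    calc _ ≤ (3 * Nat.card (Rd π D.Z (D.C j) (D.C k))) * 3 ^ τ * (3 * Nat.card D.Z) := by
          gcongr
      _ = Nat.card (Rd π D.Z (D.C j) (D.C k)) * 3 ^ (τ + 2) * Nat.card D.Z := by
          rw [pow_add]
          ring
      _ ≤ Nat.card V * (Nat.card (D.K j) * Nat.card (D.K k)) := h1
      _ ≤ _ := Nat.mul_le_mul_left _ (Nat.mul_le_mul (hKc j) (hKc k))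
  · have h1 := q.q3 j
    have h2 : Nat.card ((nx π D i x S₀).Z.comap π) = 3 * Nat.card (D.Z.comap π) :=
      card_comap_sup hπ hx.1
    have h3 : Nat.card (nx π D i x S₀).Z = 3 * Nat.card D.Z := card_sup hx.1
    rw [h2, h3]
    calc 3 * Nat.card (D.Z.comap π) * 3 ^ τ * (3 * Nat.card D.Z) =
          Nat.card (D.Z.comap π) * 3 ^ (τ + 2) * Nat.card D.Z := by
          rw [pow_add]
          ring
      _ ≤ Nat.card V * Nat.card (D.K j) := h1
      _ ≤ _ := Nat.mul_le_mul_left _ (hKc j)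

end Pool.Agent.H462.JL
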