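import Pool.Agent.H462.JL.LA2

/-!
# The joint law
-/

set_option autoImplicit false

open scoped Classical

namespace Pool.Agent.H462.JL

open Module

attribute [-instance] AddSubgroupClass.instZModModule

section
variable {X V I : Type} [AddCommGroup X] [Module (ZMod 3) X] [AddCommGroup V]
  [Module (ZMod 3) V]

/-- the probability -/
noncomputable def Pr (π : X →ₗ[ZMod 3] V) (D : Dat X V I) (s : Finset I) (r : I → ℕ) : ℝ :=
  ((Ev π D s r).ncard : ℝ) / (Nat.card (Sg D.Z) : ℝ)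

lemma Pr_nonneg (π : X →ₗ[ZMod 3] V) (D : Dat X V I) (s : Finset I) (r : I → ℕ) :
    0 ≤ Pr π D s r := by
  unfold Pr
  positivity

variable [Finite X] [Finite V]

lemma Sg_pos (Z : Submodule (ZMod 3) V) : (0 : ℝ) < Nat.card (Sg Z) := by
  have : 0 < Nat.card (Sg Z) := Nat.card_pos
  exact_mod_cast this

omit [Finite X] in
/-- the sum over one coordinate -/
lemma sum_Pr_le (π : X →ₗ[ZMod 3] V) (D : Dat X V I) (s : Finset I) {i : I} (hi : i ∈ s)
    (hK : 0 < Nat.card (D.K i)) (r : I → ℕ) (N : ℕ) :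
    ∑ k ∈ Finset.range N, Pr π D s (Function.update r i k) ≤ 1 := by
  unfold Pr
  rw [← Finset.sum_div, div_le_one (Sg_pos D.Z)]
  have hd : ∀ k ∈ Finset.range N, ∀ l ∈ Finset.range N, k ≠ l →
      Disjoint (Set.toFinite (Ev π D s (Function.update r i k))).toFinset
        (Set.toFinite (Ev π D s (Function.update r i l))).toFinset := by
    intro k _ l _ hkl
    rw [Finset.disjoint_left]
    intro S h1 h2
    rw [Set.Finite.mem_toFinset] at h1 h2
    have h3 := h1.2 i hi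
    have h4 := h2.2 i hi
    rw [Function.update_self] at h3 h4
    rw [h3] at h4
    have h5 := Nat.eq_of_mul_eq_mul_right hK h4
    exact hkl (Nat.pow_right_injective (le_refl 2 |>.trans (by norm_num)) h5)
  have h1 := Finset.card_biUnion hd
  have h2 : ∀ k, (Ev π D s (Function.update r i k)).ncard =
      (Set.toFinite (Ev π D s (Function.update r i k))).toFinset.card := fun k =>
    Set.ncard_eq_toFinset_card _ _
  simp only [h2]
  rw [← Nat.cast_sum, ← h1]
  have h3 : Nat.card (Sg D.Z) = (Set.toFinite ((Sg D.Z : Set (Bf V)))).toFinset.card := by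
    rw [← Set.ncard_eq_toFinset_card, ← Nat.card_coe_set_eq]
    rfl
  rw [h3]
  norm_cast
  refine Finset.card_le_card fun S hS => ?_
  rw [Finset.mem_biUnion] at hS
  obtain ⟨k, -, h4⟩ := hS
  rw [Set.Finite.mem_toFinset] at h4 ⊢
  exact h4.1

omit [Finite X] in
lemma Pr_le_one (π : X →ₗ[ZMod 3] V) (D : Dat X V I) (s : Finset I) (r : I → ℕ) :
    Pr π D s r ≤ 1 := by
  unfold Pr
  rw [div_le_one (Sg_pos D.Z)]
  have h1 : Nat.card (Sg D.Z) = ((Sg D.Z : Set (Bf V))).ncard := Nat.card_coe_set_eq _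
  rw [h1]
  norm_cast
  exact Set.ncard_le_ncard (fun S hS => hS.1) (Set.toFinite _)

/-- the recursion for the probabilities -/
theorem rec_Pr {π : X →ₗ[ZMod 3] V} (hπ : Function.Surjective π) {D : Dat X V I} {τ : ℕ}
    (q : Ql π D τ) {i : I} {s : Finset I} (hi : i ∈ s) (r : I → ℕ)
    (T : X → Bf V) (hT : ∀ x ∈ Gd π D i, Bs π D i x (T x)) :
    (Nat.card (Go π D i) : ℝ) * ((3 ^ (r i + 1) - 1) *
      Pr π D s (Function.update r i (r i + 1))) =
    ∑ x ∈ (Set.toFinite (Gd π D i)).toFinset, Pr π (nx π D i x (T x)) s r := by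
  have h1 := double hπ q hi r T hT
  have h2 := card_Go hπ q i
  obtain ⟨M, hM⟩ : ∃ M : ℝ, M = Nat.card (Sg D.Z) := ⟨_, rfl⟩
  obtain ⟨z, hz⟩ : ∃ z : ℝ, z = Nat.card D.Z := ⟨_, rfl⟩
  obtain ⟨v, hv⟩ : ∃ v : ℝ, v = Nat.card V := ⟨_, rfl⟩
  obtain ⟨k, hk⟩ : ∃ k : ℝ, k = Nat.card (D.K i) := ⟨_, rfl⟩
  obtain ⟨g, hg⟩ : ∃ g : ℝ, g = Nat.card (Go π D i) := ⟨_, rfl⟩
  obtain ⟨E, hE⟩ : ∃ E : ℝ, E = (Ev π D s (Function.update r i (r i + 1))).ncard := ⟨_, rfl⟩
  have pM : 0 < M := by rw [hM]; exact Sg_pos _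
  have pz : 0 < z := by
    rw [hz]
    have : 0 < Nat.card D.Z := Nat.card_pos
    exact_mod_cast this
  have pv : 0 < v := by
    rw [hv]
    have : 0 < Nat.card V := Nat.card_pos
    exact_mod_cast this
  have pk : 0 < k := by
    rw [hk]
    have : 0 < Nat.card (D.K i) := Nat.card_pos
    exact_mod_cast this
  have h2' : g * z = v * k := by
    rw [hg, hz, hv, hk]
    exact_mod_cast h2
  have h3 : ∀ x ∈ (Set.toFinite (Gd π D i)).toFinset, Pr π (nx π D i x (T x)) s r =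
      (v / (M * z)) * ((Ev π (nx π D i x (T x)) s r).ncard : ℝ) := by
    intro x hx
    rw [Set.Finite.mem_toFinset] at hx
    have h4 := card_Sg hx.1
    have h5 : M * z = v * (Nat.card (Sg (nx π D i x (T x)).Z) : ℝ) := by
      rw [hM, hz, hv]
      exact_mod_cast h4
    have p5 := Sg_pos (nx π D i x (T x)).Z
    unfold Pr
    rw [h5, div_mul_eq_mul_div, mul_div_mul_left _ _ pv.ne']
  have h6 : (∑ x ∈ (Set.toFinite (Gd π D i)).toFinset,
      ((Ev π (nx π D i x (T x)) s r).ncard : ℝ)) + k * E = 3 ^ (r i + 1) * k * E := by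
    rw [hk, hE]
    exact_mod_cast h1
  rw [Finset.sum_congr rfl h3, ← Finset.mul_sum]
  have h7 : (∑ x ∈ (Set.toFinite (Gd π D i)).toFinset,
      ((Ev π (nx π D i x (T x)) s r).ncard : ℝ)) = (3 ^ (r i + 1) - 1) * (k * E) := by
    linear_combination h6
  rw [h7]
  have h8 : Pr π D s (Function.update r i (r i + 1)) = E / M := by
    unfold Pr
    rw [hE, hM]
  rw [h8, ← hg]
  field_simp
  linear_combination (3 ^ (r i + 1) - 1) * E * h2'

lemma Gd_le {π : X →ₗ[ZMod 3] V} {D : Dat X V I} (i : I) :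
    ((Set.toFinite (Gd π D i)).toFinset.card : ℝ) ≤ Nat.card (Go π D i) := by
  have h1 : Nat.card (Go π D i) = (Go π D i : Set X).ncard := Nat.card_coe_set_eq _
  rw [h1, ← Set.ncard_eq_toFinset_card]
  norm_cast
  exact Set.ncard_le_ncard (fun x hx => mem_Go.2 hx.2) (Set.toFinite _)

lemma Go_le {π : X →ₗ[ZMod 3] V} {D : Dat X V I} (i : I) :
    (Nat.card (Go π D i) : ℝ) ≤ ((Set.toFinite (Gd π D i)).toFinset.card : ℝ) +
      Nat.card (D.Z.comap π) := by
  have h1 : Nat.card (Go π D i) = (Go π D i : Set X).ncard := Nat.card_coe_set_eq _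
  have h2 : Nat.card (D.Z.comap π) = (D.Z.comap π : Set X).ncard := Nat.card_coe_set_eq _
  rw [h1, h2, ← Set.ncard_eq_toFinset_card]
  norm_cast
  refine (Set.ncard_le_ncard (t := Gd π D i ∪ (D.Z.comap π : Set X)) (fun x hx => ?_)
    (Set.toFinite _)).trans (Set.ncard_union_le _ _)
  by_cases h : π x ∈ D.Z
  · exact Or.inr h
  · exact Or.inl ⟨h, mem_Go.1 hx⟩

/-- **one step** -/
theorem step [Fintype I] {π : X →ₗ[ZMod 3] V} (hπ : Function.Surjective π) {D : Dat X V I} {τ : ℕ}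
    (q : Ql π D (τ + 2)) {i : I} {s : Finset I} (hi : i ∈ s) (r : I → ℕ) {L δ : ℝ}
    (hL0 : 0 ≤ L) (hL1 : L ≤ 1) (hδ : 0 ≤ δ)
    (h : ∀ D' : Dat X V I, Ql π D' τ → |Pr π D' s r - L| ≤ δ) :
    |(3 ^ (r i + 1) - 1) * Pr π D s (Function.update r i (r i + 1)) - L| ≤
      δ + Fintype.card I * (1 / 3) ^ τ := by
  have hex : ∀ x, ∃ S₀, x ∈ Gd π D i → Bs π D i x S₀ := by
    intro x
    by_cases hx : x ∈ Gd π D i
    · obtain ⟨S, hS⟩ := exists_bs hπ hx
      exact ⟨S, fun _ => hS⟩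
    · exact ⟨0, fun h => absurd h hx⟩
  choose T hT using hex
  have h1 := rec_Pr hπ q hi r T hT
  obtain ⟨g, hg⟩ : ∃ g : ℝ, g = Nat.card (Go π D i) := ⟨_, rfl⟩
  obtain ⟨P, hP⟩ : ∃ P : ℝ, P = (3 ^ (r i + 1) - 1) *
      Pr π D s (Function.update r i (r i + 1)) := ⟨_, rfl⟩
  obtain ⟨G, hG⟩ : ∃ G : Finset X, G = (Set.toFinite (Gd π D i)).toFinset := ⟨_, rfl⟩
  have hGm : ∀ x, x ∈ G ↔ x ∈ Gd π D i := fun x => by rw [hG, Set.Finite.mem_toFinset]
  have pg : 0 < g := by
    rw [hg]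
    have : 0 < Nat.card (Go π D i) := Nat.card_pos
    exact_mod_cast this
  have g1 : (G.card : ℝ) ≤ g := by rw [hG, hg]; exact Gd_le i
  have g2 : g ≤ (G.card : ℝ) + Nat.card (D.Z.comap π) := by rw [hG, hg]; exact Go_le i
  rw [← hg, ← hP, ← hG] at h1
  rw [← hP]
  have hgo := card_Go hπ q i
  have pz : 0 < Nat.card D.Z := Nat.card_pos
  -- the small numbers
  obtain ⟨t, ht⟩ : ∃ t : ℝ, t = (1 / 3) ^ τ := ⟨_, rfl⟩
  have h3t : (3 : ℝ) ^ (τ + 2) * t = 9 := by
    rw [ht, pow_add, one_div, inv_pow]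
    field_simp
    norm_num
  have small : ∀ n : ℕ, n * 3 ^ (τ + 2) ≤ Nat.card (Go π D i) → (n : ℝ) ≤ g * t := by
    intro n hn
    have h2 : (n : ℝ) * 3 ^ (τ + 2) ≤ g := by
      rw [hg]
      exact_mod_cast hn
    have pt : 0 < t := by rw [ht]; positivity
    nlinarith
  have hcm : (Nat.card (D.Z.comap π) : ℝ) ≤ g * t := by
    apply small
    have h2 := q.q3 i
    rw [← hgo] at h2
    exact Nat.le_of_mul_le_mul_right h2 pz
  have hbd : ∀ j, j ≠ i → (Nat.card (Bd π D i j) : ℝ) ≤ g * t := by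
    intro j hj
    apply small
    have h2 := q.q2 i j hj.symm
    have h3 := card_Bd q i j
    have pk : 0 < Nat.card (D.K j) := Nat.card_pos
    have h4 : (Nat.card (Bd π D i j) * 3 ^ (τ + 2)) * (Nat.card D.Z * Nat.card (D.K j)) ≤
        Nat.card (Go π D i) * (Nat.card D.Z * Nat.card (D.K j)) := by
      calc _ = (Nat.card (Bd π D i j) * Nat.card (D.K j)) * 3 ^ (τ + 2) * Nat.card D.Z := by ring
        _ ≤ Nat.card (Rd π D.Z (D.C i) (D.C j)) * 3 ^ (τ + 2) * Nat.card D.Z := by gcongr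
        _ ≤ Nat.card V * (Nat.card (D.K i) * Nat.card (D.K j)) := h2
        _ = (Nat.card V * Nat.card (D.K i)) * Nat.card (D.K j) := by ring
        _ = (Nat.card (Go π D i) * Nat.card D.Z) * Nat.card (D.K j) := by rw [hgo]
        _ = _ := by ring
    exact Nat.le_of_mul_le_mul_right h4 (Nat.mul_pos pz pk)
  -- the sum
  have h2 : |∑ x ∈ G, (Pr π (nx π D i x (T x)) s r - L)| ≤
      δ * g + (Fintype.card I - 1) * (g * t) := by
    refine (Finset.abs_sum_le_sum_abs _ _).trans ?_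
    have h3 : ∀ x ∈ G, |Pr π (nx π D i x (T x)) s r - L| ≤
        δ + ∑ j ∈ Finset.univ.erase i, (if x ∈ Bd π D i j then (1 : ℝ) else 0) := by
      intro x hx
      rw [hGm] at hx
      by_cases hb : ∀ j, j ≠ i → x ∉ Bd π D i j
      · have h4 := h _ (q.next hπ hx (hT x hx) hb)
        have h5 : (0 : ℝ) ≤ ∑ j ∈ Finset.univ.erase i, (if x ∈ Bd π D i j then (1 : ℝ) else 0) :=
          Finset.sum_nonneg fun j _ => by split_ifs <;> norm_num
        linarith
      · push Not at hb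
        obtain ⟨j, hj, hxj⟩ := hb
        have h4 : |Pr π (nx π D i x (T x)) s r - L| ≤ 1 := by
          rw [abs_le]
          have a1 := Pr_nonneg π (nx π D i x (T x)) s r
          have a2 := Pr_le_one π (nx π D i x (T x)) s r
          constructor <;> linarith
        have h5 : (1 : ℝ) ≤ ∑ j ∈ Finset.univ.erase i,
            (if x ∈ Bd π D i j then (1 : ℝ) else 0) := by
          have h6 := Finset.single_le_sum (f := fun j => if x ∈ Bd π D i j then (1 : ℝ) else 0)
            (fun j _ => by split_ifs <;> norm_num)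
            (Finset.mem_erase.2 ⟨hj, Finset.mem_univ j⟩)
          simp only [if_pos hxj] at h6
          exact h6
        linarith
    refine (Finset.sum_le_sum h3).trans ?_
    rw [Finset.sum_add_distrib, Finset.sum_const, nsmul_eq_mul, Finset.sum_comm]
    have h4 : ∀ j ∈ Finset.univ.erase i,
        ∑ x ∈ G, (if x ∈ Bd π D i j then (1 : ℝ) else 0) ≤ g * t := by
      intro j hj
      refine le_trans ?_ (hbd j (Finset.mem_erase.1 hj).1)
      rw [Finset.sum_ite, Finset.sum_const, Finset.sum_const_zero, add_zero, nsmul_eq_mul,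
        mul_one]
      have h5 : Nat.card (Bd π D i j) = (Bd π D i j : Set X).ncard := Nat.card_coe_set_eq _
      rw [h5, ← Set.ncard_coe_finset]
      have h6 : ((G.filter fun x => x ∈ Bd π D i j : Finset X) : Set X) ⊆
          (Bd π D i j : Set X) := by
        intro x hx
        rw [Finset.coe_filter] at hx
        exact hx.2
      exact_mod_cast Set.ncard_le_ncard h6 (Set.toFinite _)
    have h5 := Finset.sum_le_sum h4
    rw [Finset.sum_const, Finset.card_erase_of_mem (Finset.mem_univ i), Finset.card_univ,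
      nsmul_eq_mul] at h5
    have h6 : ((Fintype.card I - 1 : ℕ) : ℝ) = (Fintype.card I : ℝ) - 1 := by
      have : 0 < Fintype.card I := Fintype.card_pos_iff.2 ⟨i⟩
      rw [Nat.cast_sub (by omega), Nat.cast_one]
    rw [h6] at h5
    have h7 : (G.card : ℝ) * δ ≤ δ * g := by
      rw [mul_comm]
      exact mul_le_mul_of_nonneg_left g1 hδ
    linarith
  rw [Finset.sum_sub_distrib, Finset.sum_const, nsmul_eq_mul, ← h1] at h2
  have h3 : g * |P - L| ≤ g * (δ + Fintype.card I * t) := by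
    have e : g * (P - L) = (g * P - G.card * L) - (g - G.card) * L := by ring
    have e2 : |g * (P - L)| ≤ |g * P - G.card * L| + |(g - G.card) * L| := by
      rw [e]
      exact abs_sub _ _
    rw [abs_mul, abs_of_pos pg] at e2
    have e3 : |(g - G.card) * L| ≤ g * t := by
      rw [abs_of_nonneg (mul_nonneg (by linarith) hL0)]
      have : (g - G.card) * L ≤ (g - G.card) * 1 :=
        mul_le_mul_of_nonneg_left hL1 (by linarith)
      linarith
    linarith
  rw [← ht]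
  exact le_of_mul_le_mul_left h3 pg

/-- the sum over all orders -/
theorem sum_Pr {π : X →ₗ[ZMod 3] V} {D : Dat X V I} {τ : ℕ} (q : Ql π D τ)
    {s : Finset I} {i : I} (hi : i ∉ s) (r : I → ℕ) : ∃ N₀ : ℕ, ∀ N, N₀ ≤ N →
    Pr π D s r = ∑ k ∈ Finset.range N, Pr π D (insert i s) (Function.update r i k) := by
  refine ⟨finrank (ZMod 3) X + 1, fun N hN => ?_⟩
  unfold Pr
  rw [← Finset.sum_div]
  congr 1
  have hfE : (Ev π D s r).Finite := Set.toFinite _
  have hd : ∀ k ∈ Finset.range N, ∀ l ∈ Finset.range N, k ≠ l →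
      Disjoint (Set.toFinite (Ev π D (insert i s) (Function.update r i k))).toFinset
        (Set.toFinite (Ev π D (insert i s) (Function.update r i l))).toFinset := by
    intro k _ l _ hkl
    rw [Finset.disjoint_left]
    intro S h1 h2
    rw [Set.Finite.mem_toFinset] at h1 h2
    have h3 := h1.2 i (Finset.mem_insert_self _ _)
    have h4 := h2.2 i (Finset.mem_insert_self _ _)
    rw [Function.update_self] at h3 h4
    rw [h3] at h4
    have hK : 0 < Nat.card (D.K i) := Nat.card_pos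
    have h5 := Nat.eq_of_mul_eq_mul_right hK h4
    exact hkl (Nat.pow_right_injective (le_refl 2 |>.trans (by norm_num)) h5)
  have h1 := Finset.card_biUnion hd
  have h2 : ∀ k, (Ev π D (insert i s) (Function.update r i k)).ncard =
      (Set.toFinite (Ev π D (insert i s) (Function.update r i k))).toFinset.card := fun k =>
    Set.ncard_eq_toFinset_card _ _
  simp only [h2]
  rw [← Nat.cast_sum, ← h1, Set.ncard_eq_toFinset_card _ hfE]
  congr 2
  ext S
  rw [Finset.mem_biUnion, Set.Finite.mem_toFinset]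
  constructor
  · rintro ⟨h3, h4⟩
    -- the order of the radical
    obtain ⟨k, hk⟩ : ∃ k, Nat.card (rad π (D.C i) S) = 3 ^ k * Nat.card (D.K i) := by
      have h5 := Submodule.finrank_mono (K_le_rad q i h3)
      refine ⟨finrank (ZMod 3) (rad π (D.C i) S) - finrank (ZMod 3) (D.K i), ?_⟩
      rw [card_pow (rad π (D.C i) S), card_pow (D.K i), ← pow_add]
      congr 1
      omega
    have hkN : k < N := by
      have h6 : 3 ^ k ≤ 3 ^ finrank (ZMod 3) X := by
        rw [← card_pow X]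
        have h7 : Nat.card (rad π (D.C i) S) ≤ Nat.card X :=
          Nat.card_le_card_of_injective _ Subtype.val_injective
        have hK : 0 < Nat.card (D.K i) := Nat.card_pos
        calc 3 ^ k ≤ 3 ^ k * Nat.card (D.K i) := Nat.le_mul_of_pos_right _ hK
          _ ≤ _ := by rw [← hk]; exact h7
      have h8 := (Nat.pow_le_pow_iff_right (show 1 < 3 by norm_num)).1 h6
      omega
    refine ⟨k, Finset.mem_range.2 hkN, ?_⟩
    rw [Set.Finite.mem_toFinset]
    refine ⟨h3, fun j hj => ?_⟩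
    rcases Finset.mem_insert.1 hj with hj' | hj'
    · subst hj'
      rw [Function.update_self, hk]
    · have hji : j ≠ i := fun h => hi (by rw [← h]; exact hj')
      rw [Function.update_of_ne hji, h4 j hj']
  · rintro ⟨k, -, h3⟩
    rw [Set.Finite.mem_toFinset] at h3
    refine ⟨h3.1, fun j hj => ?_⟩
    have hji : j ≠ i := fun h => hi (by rw [← h]; exact hj)
    rw [h3.2 j (Finset.mem_insert_of_mem hj), Function.update_of_ne hji]

/-- the first moment -/
theorem moment {π : X →ₗ[ZMod 3] V} (hπ : Function.Surjective π) {D : Dat X V I} {τ : ℕ}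
    (q : Ql π D τ) {i : I} {s : Finset I} (hi : i ∈ s) (r : I → ℕ) (N : ℕ) :
    ∑ k ∈ Finset.range N, (3 ^ (k + 1) - 1) * Pr π D s (Function.update r i (k + 1)) ≤ 1 := by
  have hex : ∀ x, ∃ S₀, x ∈ Gd π D i → Bs π D i x S₀ := by
    intro x
    by_cases hx : x ∈ Gd π D i
    · obtain ⟨S, hS⟩ := exists_bs hπ hx
      exact ⟨S, fun _ => hS⟩
    · exact ⟨0, fun h => absurd h hx⟩
  choose T hT using hex
  have pg : (0 : ℝ) < Nat.card (Go π D i) := by
    have : 0 < Nat.card (Go π D i) := Nat.card_pos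
    exact_mod_cast this
  have h1 : ∀ k, (Nat.card (Go π D i) : ℝ) * ((3 ^ (k + 1) - 1) *
      Pr π D s (Function.update r i (k + 1))) =
      ∑ x ∈ (Set.toFinite (Gd π D i)).toFinset,
        Pr π (nx π D i x (T x)) s (Function.update r i k) := by
    intro k
    have h2 := rec_Pr hπ q hi (Function.update r i k) T hT
    rwa [Function.update_self, Function.update_idem] at h2
  apply le_of_mul_le_mul_left _ pg
  rw [Finset.mul_sum, Finset.sum_congr rfl fun k _ => h1 k, Finset.sum_comm, mul_one]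
  have h3 : ∀ x ∈ (Set.toFinite (Gd π D i)).toFinset,
      ∑ k ∈ Finset.range N, Pr π (nx π D i x (T x)) s (Function.update r i k) ≤ 1 := by
    intro x _
    exact sum_Pr_le π _ s hi Nat.card_pos r N
  refine (Finset.sum_le_sum h3).trans ?_
  rw [Finset.sum_const, nsmul_eq_mul, mul_one]
  exact Gd_le i

/-- the tail -/
theorem tail {π : X →ₗ[ZMod 3] V} (hπ : Function.Surjective π) {D : Dat X V I} {τ : ℕ}
    (q : Ql π D τ) {i : I} {s : Finset I} (hi : i ∈ s) (r : I → ℕ) (R N : ℕ) :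
    ∑ k ∈ Finset.Ico (R + 1) N, Pr π D s (Function.update r i k) ≤ 1 / (3 ^ (R + 1) - 1) := by
  have p3 : (0 : ℝ) < 3 ^ (R + 1) - 1 := by
    have : (3 : ℝ) ^ 1 ≤ 3 ^ (R + 1) := pow_le_pow_right₀ (by norm_num) (by omega)
    linarith
  rw [le_div_iff₀ p3, mul_comm]
  refine le_trans ?_ (moment hπ q hi r N)
  rw [Finset.mul_sum]
  have h1 : ∀ k ∈ Finset.Ico (R + 1) N, (3 ^ (R + 1) - 1) * Pr π D s (Function.update r i k) ≤
      (3 ^ k - 1) * Pr π D s (Function.update r i k) := by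
    intro k hk
    rw [Finset.mem_Ico] at hk
    have h2 : (3 : ℝ) ^ (R + 1) ≤ 3 ^ k := pow_le_pow_right₀ (by norm_num) hk.1
    exact mul_le_mul_of_nonneg_right (by linarith) (Pr_nonneg _ _ _ _)
  refine (Finset.sum_le_sum h1).trans ?_
  have h2 : ∑ k ∈ Finset.range N, (3 ^ (k + 1) - 1) * Pr π D s (Function.update r i (k + 1)) =
      ∑ k ∈ Finset.Ico 1 (N + 1), (3 ^ k - 1) * Pr π D s (Function.update r i k) := by
    rw [Finset.sum_Ico_eq_sum_range]
    refine Finset.sum_congr (by congr 1) fun k _ => ?_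
    rw [add_comm 1 k]
  rw [h2]
  refine Finset.sum_le_sum_of_subset_of_nonneg ?_ fun k _ _ => ?_
  · intro k hk
    rw [Finset.mem_Ico] at hk ⊢
    omega
  · have h3 : (1 : ℝ) ≤ 3 ^ k := one_le_pow₀ (by norm_num)
    exact mul_nonneg (by linarith) (Pr_nonneg _ _ _ _)

omit [Finite X] in
lemma Pr_empty (π : X →ₗ[ZMod 3] V) (D : Dat X V I) (r : I → ℕ) : Pr π D ∅ r = 1 := by
  unfold Pr
  have h1 : Ev π D ∅ r = (Sg D.Z : Set (Bf V)) := by
    ext S
    exact ⟨fun h => h.1, fun h => ⟨h, fun i hi => absurd hi (Finset.notMem_empty i)⟩⟩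
  have h2 : Nat.card (Sg D.Z) = ((Sg D.Z : Set (Bf V))).ncard := Nat.card_coe_set_eq _
  rw [h1, h2, div_self]
  rw [← h2]
  exact (Sg_pos D.Z).ne'

end

section law
variable {I : Type} [Fintype I]

lemma Ql.mono {X V : Type} [AddCommGroup X] [Module (ZMod 3) X] [AddCommGroup V]
    [Module (ZMod 3) V] {π : X →ₗ[ZMod 3] V} {D : Dat X V I} {τ τ' : ℕ} (q : Ql π D τ)
    (h : τ' ≤ τ) : Ql π D τ' := by
  have h3 : 3 ^ τ' ≤ 3 ^ τ := Nat.pow_le_pow_right (by norm_num) h
  refine ⟨q.sym, q.k0, q.kz, q.k1, fun i j hij => le_trans ?_ (q.q2 i j hij),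
    fun i => le_trans ?_ (q.q3 i)⟩
  · gcongr
  · gcongr

/-- the statement of the law with an error -/
def T (s : Finset I) (r : I → ℕ) (L δ : ℝ) : Prop := ∃ τ : ℕ, ∀ (X V : Type) [AddCommGroup X]
  [Module (ZMod 3) X] [AddCommGroup V] [Module (ZMod 3) V] [Finite X] [Finite V]
  (π : X →ₗ[ZMod 3] V), Function.Surjective π → ∀ D : Dat X V I, Ql π D τ →
    |Pr π D s r - L| ≤ δ

lemma T.mono {s : Finset I} {r : I → ℕ} {L δ δ' : ℝ} (h : T s r L δ) (hd : δ ≤ δ') :
    T s r L δ' := by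
  obtain ⟨τ, h⟩ := h
  exact ⟨τ, fun X V _ _ _ _ _ _ π hπ D q => (h X V π hπ D q).trans hd⟩

lemma T.step {s : Finset I} {r : I → ℕ} {i : I} (hi : i ∈ s) {L δ : ℝ} (hL0 : 0 ≤ L)
    (hL1 : L ≤ 1) (hδ : 0 ≤ δ) (h : T s r L δ) {η : ℝ} (hη : 0 < η) :
    T s (Function.update r i (r i + 1)) (L / (3 ^ (r i + 1) - 1))
      ((δ + η) / (3 ^ (r i + 1) - 1)) := by
  obtain ⟨τ, h⟩ := h
  obtain ⟨n, hn⟩ := exists_pow_lt_of_lt_one (show (0 : ℝ) < η / (Fintype.card I + 1) by positivity)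
    (show (1 / 3 : ℝ) < 1 by norm_num)
  refine ⟨max τ n + 2, fun X V _ _ _ _ _ _ π hπ D q => ?_⟩
  have h1 := JL.step hπ q hi r hL0 hL1 hδ
    (fun D' q' => h X V π hπ D' (q'.mono (le_max_left _ _)))
  have p3 : (0 : ℝ) < 3 ^ (r i + 1) - 1 := by
    have : (3 : ℝ) ^ 1 ≤ 3 ^ (r i + 1) := pow_le_pow_right₀ (by norm_num) (by omega)
    linarith
  have h2 : (Fintype.card I : ℝ) * (1 / 3) ^ (max τ n) ≤ η := by
    have h3 : (1 / 3 : ℝ) ^ (max τ n) ≤ (1 / 3) ^ n :=
      pow_le_pow_of_le_one (by norm_num) (by norm_num) (le_max_right _ _)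
    have h4 : (0 : ℝ) ≤ Fintype.card I := Nat.cast_nonneg _
    rw [lt_div_iff₀ (by positivity)] at hn
    have h5 : (0 : ℝ) ≤ (1 / 3) ^ n := by positivity
    nlinarith
  have e : Pr π D s (Function.update r i (r i + 1)) - L / (3 ^ (r i + 1) - 1) =
      ((3 ^ (r i + 1) - 1) * Pr π D s (Function.update r i (r i + 1)) - L) /
        (3 ^ (r i + 1) - 1) := by
    field_simp
  rw [e, abs_div, abs_of_pos p3]
  exact div_le_div_of_nonneg_right (h1.trans (by linarith)) p3.le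

/-- the product of the `3 ^ (j + 1) - 1` -/
noncomputable def Pi (k : ℕ) : ℝ := ∏ j ∈ Finset.range k, ((3 : ℝ) ^ (j + 1) - 1)

lemma Pi_succ (k : ℕ) : Pi (k + 1) = Pi k * (3 ^ (k + 1) - 1) := Finset.prod_range_succ _ _

lemma Pi_zero : Pi 0 = 1 := Finset.prod_range_zero _

lemma Pi_ge (k : ℕ) : 1 ≤ Pi k := by
  induction k with
  | zero => rw [Pi_zero]
  | succ k ih =>
    rw [Pi_succ]
    have : (3 : ℝ) ^ 1 ≤ 3 ^ (k + 1) := pow_le_pow_right₀ (by norm_num) (by omega)
    nlinarith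

lemma Pi_ge' (k : ℕ) : 2 * 8 ^ k ≤ Pi (k + 1) := by
  induction k with
  | zero =>
    rw [Pi_succ, Pi_zero]
    norm_num
  | succ k ih =>
    rw [Pi_succ]
    have : (3 : ℝ) ^ 2 ≤ 3 ^ (k + 1 + 1) := pow_le_pow_right₀ (by norm_num) (by omega)
    have h8 : (0 : ℝ) < 8 ^ k := by positivity
    rw [pow_succ]
    nlinarith

lemma sum_Pi (R : ℕ) : ∑ k ∈ Finset.range R, 1 / Pi (k + 1) ≤ 4 / 7 - (4 / 7) / 8 ^ R := by
  induction R with
  | zero => norm_num
  | succ R ih =>
    rw [Finset.sum_range_succ]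
    have h1 : 1 / Pi (R + 1) ≤ 1 / (2 * 8 ^ R) :=
      one_div_le_one_div_of_le (by positivity) (Pi_ge' R)
    have h2 : (1 : ℝ) / (2 * 8 ^ R) = (4 / 7) / 8 ^ R - (4 / 7) / 8 ^ (R + 1) := by
      rw [pow_succ]
      field_simp
      norm_num
    linarith

lemma T.iter {s : Finset I} {r : I → ℕ} {i : I} (hi : i ∈ s) {L δ : ℝ} (hL0 : 0 ≤ L)
    (hL1 : L ≤ 1) (hδ : 0 ≤ δ) (h : T s (Function.update r i 0) L δ) (k : ℕ) :
    ∀ η : ℝ, 0 < η → T s (Function.update r i k) (L / Pi k) ((δ + η) / Pi k) := by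
  induction k with
  | zero =>
    intro η hη
    rw [Pi_zero, div_one, div_one]
    exact h.mono (by linarith)
  | succ k ih =>
    intro η hη
    have pP : 0 < Pi k := lt_of_lt_of_le one_pos (Pi_ge k)
    have h1 := ih (η / 2) (by positivity)
    have h2 := h1.step hi (div_nonneg hL0 pP.le) ((div_le_one pP).2 (hL1.trans (Pi_ge k)))
      (div_nonneg (by linarith) pP.le) (η := (η / 2) / Pi k) (by positivity)
    rw [Function.update_self, Function.update_idem] at h2
    have e1 : L / Pi k / (3 ^ (k + 1) - 1) = L / Pi (k + 1) := by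
      rw [Pi_succ, div_div]
    have e2 : ((δ + η / 2) / Pi k + η / 2 / Pi k) / (3 ^ (k + 1) - 1) =
        (δ + η) / Pi (k + 1) := by
      rw [Pi_succ, ← add_div, div_div]
      congr 1
      ring
    rwa [e1, e2] at h2

/-- the limit law -/
structure Lim (c : ℕ → ℝ) : Prop where
  nonneg : ∀ k, 0 ≤ c k
  sum : HasSum c 1
  rec_ : ∀ k, c k = c 0 / Pi k

lemma Lim.le_one {c : ℕ → ℝ} (hc : Lim c) (k : ℕ) : c k ≤ 1 := le_hasSum hc.sum k fun j _ => hc.nonneg j

/-- **the contraction** -/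
theorem contr {c : ℕ → ℝ} (hc : Lim c) {s : Finset I} {i : I} (hi : i ∉ s) {r : I → ℕ} {a : ℝ}
    (ha0 : 0 ≤ a) (ha1 : a ≤ 1) (h : ∀ ε : ℝ, 0 < ε → T s r a ε) {δ : ℝ} (hδ : 0 < δ)
    (h0 : T (insert i s) (Function.update r i 0) (c 0 * a) δ) :
    T (insert i s) (Function.update r i 0) (c 0 * a) ((5 / 7) * δ) := by
  have hmem : i ∈ insert i s := Finset.mem_insert_self _ _
  have hc0a : 0 ≤ c 0 * a := mul_nonneg (hc.nonneg 0) ha0
  have hc1a : c 0 * a ≤ 1 := mul_le_one₀ (hc.le_one 0) ha0 ha1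
  -- the truncation
  obtain ⟨R, hR1, hR2⟩ : ∃ R : ℕ, 1 / (3 ^ (R + 1) - 1 : ℝ) ≤ δ / 28 ∧
      1 - δ / 28 ≤ ∑ k ∈ Finset.range (R + 1), c k := by
    have h1 := (tendsto_order.1 hc.sum.tendsto_sum_nat).1 (1 - δ / 28) (by linarith)
    obtain ⟨R₁, hR₁⟩ := Filter.eventually_atTop.1 h1
    obtain ⟨R₂, hR₂⟩ := exists_pow_lt_of_lt_one (show (0 : ℝ) < δ / 28 by positivity)
      (show (1 / 3 : ℝ) < 1 by norm_num)
    refine ⟨max R₁ R₂, ?_, (hR₁ _ (by have := le_max_left R₁ R₂; omega)).le⟩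
    have h2 : (1 / 3 : ℝ) ^ (max R₁ R₂) ≤ (1 / 3) ^ R₂ :=
      pow_le_pow_of_le_one (by norm_num) (by norm_num) (le_max_right _ _)
    have h3 : 1 / (3 ^ (max R₁ R₂ + 1) - 1 : ℝ) ≤ (1 / 3) ^ (max R₁ R₂) := by
      rw [one_div_pow]
      apply one_div_le_one_div_of_le (by positivity)
      rw [pow_succ]
      have : (1 : ℝ) ≤ 3 ^ (max R₁ R₂) := one_le_pow₀ (by norm_num)
      linarith
    linarith
  -- the quality
  obtain ⟨τ₀, hτ₀⟩ := h (δ / 28) (by positivity)
  have hk := fun k => (h0.iter hmem hc0a hc1a hδ.le k) (δ / 28) (by positivity)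
  choose τ hτ using hk
  obtain ⟨m, hm⟩ : ∃ m, ∀ k ∈ Finset.range (R + 1), τ k ≤ m :=
    ⟨(Finset.range (R + 1)).sup τ, fun k hk => Finset.le_sup hk⟩
  refine ⟨max τ₀ m, fun X V _ _ _ _ _ _ π hπ D q => ?_⟩
  obtain ⟨N₀, hN₀⟩ := sum_Pr q hi r
  obtain ⟨N, hN1, hN2⟩ : ∃ N, N₀ ≤ N ∧ R + 1 ≤ N := ⟨max N₀ (R + 1), le_max_left _ _, le_max_right _ _⟩
  have h1 := hN₀ N hN1
  have h2 := hτ₀ X V π hπ D (q.mono (le_max_left _ _))
  have h3 := tail hπ q hmem r R N
  -- split the sum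
  have h4 : ∑ k ∈ Finset.range N, Pr π D (insert i s) (Function.update r i k) =
      ∑ k ∈ Finset.range (R + 1), Pr π D (insert i s) (Function.update r i k) +
      ∑ k ∈ Finset.Ico (R + 1) N, Pr π D (insert i s) (Function.update r i k) := by
    rw [Finset.sum_range_add_sum_Ico _ hN2]
  rw [Finset.sum_range_succ'] at h4
  have h5 : |∑ k ∈ Finset.range R, (Pr π D (insert i s) (Function.update r i (k + 1)) -
      c (k + 1) * a)| ≤ (4 / 7) * (δ + δ / 28) := by
    refine (Finset.abs_sum_le_sum_abs _ _).trans ?_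
    have h6 : ∀ k ∈ Finset.range R, |Pr π D (insert i s) (Function.update r i (k + 1)) -
        c (k + 1) * a| ≤ (δ + δ / 28) * (1 / Pi (k + 1)) := by
      intro k hk
      rw [Finset.mem_range] at hk
      have h7 := hτ (k + 1) X V π hπ D (q.mono ((hm (k + 1) (Finset.mem_range.2 (by omega))).trans
        (le_max_right _ _)))
      rw [hc.rec_ (k + 1)]
      have e1 : c 0 / Pi (k + 1) * a = c 0 * a / Pi (k + 1) := by ring
      rw [e1, mul_one_div]
      exact h7
    refine (Finset.sum_le_sum h6).trans ?_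
    rw [← Finset.mul_sum, mul_comm]
    refine mul_le_mul_of_nonneg_right ((sum_Pi R).trans ?_) (by positivity)
    have : (0 : ℝ) ≤ (4 / 7) / 8 ^ R := by positivity
    linarith
  rw [Finset.sum_sub_distrib, ← Finset.sum_mul] at h5
  have h6 : ∑ k ∈ Finset.range (R + 1), c k = ∑ k ∈ Finset.range R, c (k + 1) + c 0 :=
    Finset.sum_range_succ' _ _
  have h7 : ∑ k ∈ Finset.range (R + 1), c k ≤ 1 :=
    sum_le_hasSum _ (fun k _ => hc.nonneg k) hc.sum
  have h8 : 0 ≤ ∑ k ∈ Finset.Ico (R + 1) N, Pr π D (insert i s) (Function.update r i k) :=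
    Finset.sum_nonneg fun k _ => Pr_nonneg _ _ _ _
  obtain ⟨U, hU⟩ : ∃ U, U = ∑ k ∈ Finset.range R, Pr π D (insert i s)
      (Function.update r i (k + 1)) := ⟨_, rfl⟩
  obtain ⟨W, hW⟩ : ∃ W, W = ∑ k ∈ Finset.range R, c (k + 1) := ⟨_, rfl⟩
  obtain ⟨Y, hY⟩ : ∃ Y, Y = ∑ k ∈ Finset.Ico (R + 1) N, Pr π D (insert i s)
      (Function.update r i k) := ⟨_, rfl⟩
  rw [← hY] at h3 h8 h4
  rw [← hU] at h4
  rw [← hU, ← hW] at h5
  rw [← hW] at h6
  rw [h4] at h1
  rw [h6] at h7 hR2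
  rw [h1] at h2
  have h9 := (abs_le.1 h2)
  have h10 := (abs_le.1 h5)
  have h11 : (W + c 0) * a ≤ a := by nlinarith
  have h12 : a - δ / 28 ≤ (W + c 0) * a := by nlinarith
  rw [abs_le]
  constructor <;> nlinarith

/-- **The joint law for quality tending to infinity.** -/
theorem law {c : ℕ → ℝ} (hc : Lim c) (s : Finset I) (r : I → ℕ) :
    ∀ ε : ℝ, 0 < ε → T s r (∏ j ∈ s, c (r j)) ε := by
  induction s using Finset.induction_on generalizing r with
  | empty =>
    intro ε hε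
    refine ⟨0, fun X V _ _ _ _ _ _ π hπ D q => ?_⟩
    rw [Pr_empty, Finset.prod_empty, sub_self, abs_zero]
    exact hε.le
  | insert i s hi ih =>
    have ha0 : 0 ≤ ∏ j ∈ s, c (r j) := Finset.prod_nonneg fun j _ => hc.nonneg _
    have ha1 : ∏ j ∈ s, c (r j) ≤ 1 :=
      Finset.prod_le_one (fun j _ => hc.nonneg _) fun j _ => hc.le_one _
    have hmem : i ∈ insert i s := Finset.mem_insert_self _ _
    have hc0a : 0 ≤ c 0 * ∏ j ∈ s, c (r j) := mul_nonneg (hc.nonneg 0) ha0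
    have hc1a : c 0 * ∏ j ∈ s, c (r j) ≤ 1 := mul_le_one₀ (hc.le_one 0) ha0 ha1
    -- the iteration
    have h1 : ∀ n : ℕ, T (insert i s) (Function.update r i 0) (c 0 * ∏ j ∈ s, c (r j))
        ((5 / 7) ^ n) := by
      intro n
      induction n with
      | zero =>
        refine ⟨0, fun X V _ _ _ _ _ _ π hπ D q => ?_⟩
        rw [pow_zero, abs_le]
        have a1 := Pr_nonneg π D (insert i s) (Function.update r i 0)
        have a2 := Pr_le_one π D (insert i s) (Function.update r i 0)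
        constructor <;> linarith
      | succ n ihn =>
        rw [pow_succ, mul_comm ((5 / 7 : ℝ) ^ n)]
        exact contr hc hi ha0 ha1 (fun ε hε => ih r ε hε) (by positivity) ihn
    intro ε hε
    obtain ⟨n, hn⟩ := exists_pow_lt_of_lt_one (show (0 : ℝ) < ε / 2 by positivity)
      (show (5 / 7 : ℝ) < 1 by norm_num)
    have h2 := ((h1 n).mono hn.le).iter hmem hc0a hc1a (by positivity) (r i) (ε / 2) (by positivity)
    rw [Function.update_eq_self, Finset.prod_insert hi, hc.rec_ (r i)] at *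
    have e1 : c 0 / Pi (r i) * ∏ j ∈ s, c (r j) = c 0 * (∏ j ∈ s, c (r j)) / Pi (r i) := by ring
    rw [e1]
    refine h2.mono ?_
    rw [add_halves]
    exact div_le_self hε.le (Pi_ge _)

end law

end Pool.Agent.H462.JL
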