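import Pool.Agent.H462.JL.LA3
import Pool.Graph.R_seed8.Y703.XL.Stm

/-!
# Several Laplacians with a common random part
-/

set_option autoImplicit false

open scoped Classical

namespace Pool.Agent.H462.JL

open Module Finset
open Pool.Agent.Y703.XK (prs ext)
open Pool.Agent.Y703.XL (nA)

attribute [-instance] AddSubgroupClass.instZModModule

section forms
variable {U J : Type} [Fintype U] [Fintype J]

/-- the fixed form -/
noncomputable def Cf (A : U → U → ZMod 3) (B : U → J → ZMod 3) :
    Bf ((U → ZMod 3) × (J → ZMod 3)) :=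
  LinearMap.mk₂ (ZMod 3)
    (fun x y => ∑ u, (∑ v, A u v * (x.1 v - x.1 u) + ∑ l, B u l * (x.2 l - x.1 u)) * y.1 u +
      ∑ l, (∑ u, B u l * (x.1 u - x.2 l)) * y.2 l)
    (fun x x' y => by
      simp only [Prod.fst_add, Prod.snd_add, Pi.add_apply, Finset.sum_mul]
      rw [add_add_add_comm, ← Finset.sum_add_distrib, ← Finset.sum_add_distrib]
      congr 1
      · refine Finset.sum_congr rfl fun u _ => ?_
        rw [← add_mul, add_add_add_comm, ← Finset.sum_add_distrib, ← Finset.sum_add_distrib]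
        congr 2
        · exact Finset.sum_congr rfl fun v _ => by ring
        · exact Finset.sum_congr rfl fun v _ => by ring
      · refine Finset.sum_congr rfl fun l _ => ?_
        rw [← Finset.sum_add_distrib]
        exact Finset.sum_congr rfl fun v _ => by ring)
    (fun c x y => by
      simp only [Prod.smul_fst, Prod.smul_snd, Pi.smul_apply, smul_eq_mul, mul_add,
        Finset.mul_sum, Finset.sum_mul]
      congr 1
      · refine Finset.sum_congr rfl fun u _ => ?_
        rw [add_mul, add_mul, mul_add, Finset.sum_mul, Finset.sum_mul, Finset.sum_mul,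
          Finset.sum_mul, Finset.mul_sum, Finset.mul_sum]
        congr 1
        · exact Finset.sum_congr rfl fun v _ => by ring
        · exact Finset.sum_congr rfl fun v _ => by ring
      · refine Finset.sum_congr rfl fun l _ => ?_
        exact Finset.sum_congr rfl fun v _ => by ring)
    (fun x y y' => by
      simp only [Prod.fst_add, Prod.snd_add, Pi.add_apply, mul_add, Finset.sum_add_distrib]
      ring)
    (fun c x y => by
      simp only [Prod.smul_fst, Prod.smul_snd, Pi.smul_apply, smul_eq_mul, mul_add,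
        Finset.mul_sum]
      congr 1
      · exact Finset.sum_congr rfl fun u _ => by ring
      · exact Finset.sum_congr rfl fun u _ => by ring)

lemma Cf_apply (A : U → U → ZMod 3) (B : U → J → ZMod 3) (x y : (U → ZMod 3) × (J → ZMod 3)) :
    Cf A B x y = ∑ u, (∑ v, A u v * (x.1 v - x.1 u) + ∑ l, B u l * (x.2 l - x.1 u)) * y.1 u +
      ∑ l, (∑ u, B u l * (x.1 u - x.2 l)) * y.2 l := rfl

/-- the random form -/
noncomputable def Sf (R : J → J → ZMod 3) : Bf (J → ZMod 3) :=
  LinearMap.mk₂ (ZMod 3) (fun b c => ∑ l, (∑ m, R l m * (b m - b l)) * c l)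
    (fun b b' c => by
      rw [← Finset.sum_add_distrib]
      refine Finset.sum_congr rfl fun l _ => ?_
      rw [← add_mul, ← Finset.sum_add_distrib]
      congr 1
      exact Finset.sum_congr rfl fun m _ => by simp only [Pi.add_apply]; ring)
    (fun t b c => by
      simp only [Pi.smul_apply, smul_eq_mul, Finset.mul_sum, Finset.sum_mul]
      exact Finset.sum_congr rfl fun l _ => Finset.sum_congr rfl fun m _ => by ring)
    (fun b c c' => by
      simp only [Pi.add_apply, mul_add, Finset.sum_add_distrib])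
    (fun t b c => by
      simp only [Pi.smul_apply, smul_eq_mul, Finset.mul_sum]
      exact Finset.sum_congr rfl fun l _ => by ring)

lemma Sf_apply (R : J → J → ZMod 3) (b c : J → ZMod 3) :
    Sf R b c = ∑ l, (∑ m, R l m * (b m - b l)) * c l := rfl

lemma Cf_symm {A : U → U → ZMod 3} (hA : ∀ u v, A u v = A v u) (B : U → J → ZMod 3)
    (x y : (U → ZMod 3) × (J → ZMod 3)) : Cf A B x y = Cf A B y x := by
  have key : ∀ x y : (U → ZMod 3) × (J → ZMod 3), Cf A B x y =
      ∑ u, ∑ v, A u v * (x.1 v * y.1 u - x.1 u * y.1 u) +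
      ∑ u, ∑ l, B u l * (x.2 l * y.1 u - x.1 u * y.1 u + x.1 u * y.2 l - x.2 l * y.2 l) := by
    intro x y
    rw [Cf_apply]
    have e1 : ∑ l, (∑ u, B u l * (x.1 u - x.2 l)) * y.2 l =
        ∑ u, ∑ l, B u l * (x.1 u - x.2 l) * y.2 l := by
      rw [Finset.sum_comm]
      exact Finset.sum_congr rfl fun l _ => Finset.sum_mul _ _ _
    rw [e1, ← Finset.sum_add_distrib, ← Finset.sum_add_distrib]
    refine Finset.sum_congr rfl fun u _ => ?_
    rw [add_mul, add_assoc, Finset.sum_mul, Finset.sum_mul, ← Finset.sum_add_distrib]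
    congr 1
    · exact Finset.sum_congr rfl fun v _ => by ring
    · exact Finset.sum_congr rfl fun l _ => by ring
  rw [key, key]
  congr 1
  · simp only [mul_sub, Finset.sum_sub_distrib]
    congr 1
    · rw [Finset.sum_comm]
      refine Finset.sum_congr rfl fun v _ => Finset.sum_congr rfl fun u _ => ?_
      rw [hA v u]
      ring
    · refine Finset.sum_congr rfl fun v _ => Finset.sum_congr rfl fun u _ => ?_
      ring
  · refine Finset.sum_congr rfl fun v _ => Finset.sum_congr rfl fun u _ => ?_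
    ring

lemma Sf_symm {R : J → J → ZMod 3} (hR : ∀ l m, R l m = R m l) (b c : J → ZMod 3) :
    Sf R b c = Sf R c b := by
  have key : ∀ b c : J → ZMod 3, Sf R b c = ∑ l, ∑ m, R l m * (b m * c l - b l * c l) := by
    intro b c
    rw [Sf_apply]
    refine Finset.sum_congr rfl fun l _ => ?_
    rw [Finset.sum_mul]
    exact Finset.sum_congr rfl fun m _ => by ring
  rw [key, key]
  simp only [mul_sub, Finset.sum_sub_distrib]
  congr 1
  · rw [Finset.sum_comm]
    refine Finset.sum_congr rfl fun v _ => Finset.sum_congr rfl fun u _ => ?_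
    rw [hR v u]
    ring
  · refine Finset.sum_congr rfl fun v _ => Finset.sum_congr rfl fun u _ => ?_
    ring

/-- the constants -/
def Zc (J : Type) : Submodule (ZMod 3) (J → ZMod 3) := Submodule.span (ZMod 3) {fun _ => 1}

lemma mem_Zc {b : J → ZMod 3} : b ∈ Zc J ↔ ∃ t, ∀ l, b l = t := by
  unfold Zc
  rw [Submodule.mem_span_singleton]
  constructor
  · rintro ⟨t, rfl⟩
    exact ⟨t, fun l => by simp⟩
  · rintro ⟨t, h⟩
    exact ⟨t, by funext l; simp [h]⟩

lemma card_Zc [Nonempty J] : Nat.card (Zc J) = 3 := by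
  have h1 := card_sup (Z := (⊥ : Submodule (ZMod 3) (J → ZMod 3))) (v := fun _ => (1 : ZMod 3))
    (by
      rw [Submodule.mem_bot]
      intro h
      obtain ⟨l⟩ := (inferInstance : Nonempty J)
      exact one_ne_zero (congrFun h l))
  rw [bot_sup_eq] at h1
  have h2 : Nat.card (⊥ : Submodule (ZMod 3) (J → ZMod 3)) = 1 := by
    rw [Nat.card_eq_one_iff_unique]
    exact ⟨inferInstance, inferInstance⟩
  rw [h2, mul_one] at h1
  exact h1

end forms

section ext
variable {J : Type} [Fintype J] [LinearOrder J]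

lemma ext_symm (α : prs J → ZMod 3) (l m : J) : ext α l m = ext α m l := by
  unfold Pool.Agent.Y703.XK.ext
  by_cases h : (l, m) ∈ prs J
  · have h' : (m, l) ∉ prs J := by
      unfold prs at h ⊢
      rw [mem_filter] at h ⊢
      exact fun h2 => absurd h2.2 (not_lt.2 h.2.le)
    rw [dif_pos h, dif_neg h', dif_pos h]
  · rw [dif_neg h]
    by_cases h' : (m, l) ∈ prs J
    · rw [dif_pos h', dif_pos h']
    · rw [dif_neg h', dif_neg h', dif_neg h]

lemma ext_lt {α : prs J → ZMod 3} {l m : J} (h : (l, m) ∈ prs J) : ext α l m = α ⟨(l, m), h⟩ := by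
  unfold Pool.Agent.Y703.XK.ext
  rw [dif_pos h]

lemma Sf_mem (α : prs J → ZMod 3) : Sf (ext α) ∈ Sg (Zc J) := by
  refine ⟨Sf_symm (ext_symm α), fun z hz => ?_⟩
  obtain ⟨t, ht⟩ := mem_Zc.1 hz
  refine LinearMap.ext fun c => ?_
  rw [Sf_apply]
  simp [ht]

lemma Sf_single (R : J → J → ZMod 3) {l m : J} (h : l ≠ m) :
    Sf R (Pi.single m 1) (Pi.single l 1) = R l m := by
  rw [Sf_apply, Finset.sum_eq_single l]
  · rw [Pi.single_eq_same, mul_one, Finset.sum_eq_single m]
    · rw [Pi.single_eq_same, Pi.single_eq_of_ne h, sub_zero, mul_one]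
    · intro m' _ hm'
      rw [Pi.single_eq_of_ne hm', Pi.single_eq_of_ne h, sub_zero, mul_zero]
    · intro h'
      exact absurd (Finset.mem_univ _) h'
  · intro l' _ hl'
    rw [Pi.single_eq_of_ne hl', mul_zero]
  · intro h'
    exact absurd (Finset.mem_univ _) h'

/-- the forms are given by the matrices -/
theorem Sf_bij : Function.Bijective (fun α : prs J → ZMod 3 => (⟨Sf (ext α), Sf_mem α⟩ : Sg (Zc J))) := by
  constructor
  · intro α β h
    funext e
    have h1 : Sf (ext α) = Sf (ext β) := congrArg Subtype.val h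
    obtain ⟨⟨l, m⟩, he⟩ := e
    have hlm : l ≠ m := by
      unfold prs at he
      rw [mem_filter] at he
      exact ne_of_lt he.2
    have h2 := congrArg (fun S : Bf (J → ZMod 3) => S (Pi.single m 1) (Pi.single l 1)) h1
    have h3 : Sf (ext α) (Pi.single m 1) (Pi.single l 1) =
      Sf (ext β) (Pi.single m 1) (Pi.single l 1) := h2
    rw [Sf_single _ hlm, Sf_single _ hlm, ext_lt he, ext_lt he] at h3
    exact h3
  · rintro ⟨S, hS⟩
    refine ⟨fun e => S (Pi.single e.1.2 1) (Pi.single e.1.1 1), Subtype.ext ?_⟩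
    show Sf (ext _) = S
    obtain ⟨α, hα⟩ : ∃ α : prs J → ZMod 3, α = fun e => S (Pi.single e.1.2 1) (Pi.single e.1.1 1) :=
      ⟨_, rfl⟩
    rw [← hα]
    have hne : ∀ l m : J, l ≠ m → Sf (ext α) (Pi.single m 1) (Pi.single l 1) =
        S (Pi.single m 1) (Pi.single l 1) := by
      intro l m hlm
      rw [Sf_single _ hlm]
      rcases lt_or_gt_of_ne hlm with h | h
      · have he : (l, m) ∈ prs J := by
          unfold prs
          rw [mem_filter]
          exact ⟨mem_univ _, h⟩
        rw [ext_lt he, hα]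
      · have he : (m, l) ∈ prs J := by
          unfold prs
          rw [mem_filter]
          exact ⟨mem_univ _, h⟩
        rw [ext_symm, ext_lt he, hα]
        exact hS.1 _ _
    have hsum : ∀ T ∈ Sg (Zc J), ∀ l : J, T (Pi.single l 1) (Pi.single l 1) =
        -∑ m ∈ univ.erase l, T (Pi.single m 1) (Pi.single l 1) := by
      intro T hT l
      have h1 : T (fun _ => 1) = 0 := hT.2 _ (mem_Zc.2 ⟨1, fun _ => rfl⟩)
      have h2 : (fun _ => 1 : J → ZMod 3) = ∑ m, Pi.single m 1 := by
        funext k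
        rw [Finset.sum_apply, Finset.sum_eq_single k]
        · rw [Pi.single_eq_same]
        · intro m _ hm
          rw [Pi.single_eq_of_ne hm.symm]
        · intro h'
          exact absurd (Finset.mem_univ _) h'
      rw [h2, map_sum] at h1
      have h3 := congrArg (fun f : (J → ZMod 3) →ₗ[ZMod 3] ZMod 3 => f (Pi.single l 1)) h1
      have h4 : ∑ m, T (Pi.single m 1) (Pi.single l 1) = 0 := by
        have h5 : (∑ m, T (Pi.single m 1)) (Pi.single l 1) = 0 := h3
        rwa [LinearMap.sum_apply] at h5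
      rw [← Finset.add_sum_erase _ _ (Finset.mem_univ l)] at h4
      exact eq_neg_of_add_eq_zero_left h4
    have hall : ∀ l m : J, Sf (ext α) (Pi.single m 1) (Pi.single l 1) =
        S (Pi.single m 1) (Pi.single l 1) := by
      intro l m
      by_cases hlm : l = m
      · subst hlm
        rw [hsum _ (Sf_mem α), hsum _ hS]
        congr 1
        exact Finset.sum_congr rfl fun m hm => hne l m (Finset.mem_erase.1 hm).1.symm
      · exact hne l m hlm
    refine LinearMap.pi_ext' fun m => LinearMap.ext_ring ?_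
    refine LinearMap.pi_ext' fun l => LinearMap.ext_ring ?_
    exact hall l m

end ext

section data
variable {I U J : Type} [Fintype U] [Fintype J]

/-- the constants and the dead nodes -/
def Kc (J : Type) (lv : U → Prop) : Submodule (ZMod 3) ((U → ZMod 3) × (J → ZMod 3)) where
  carrier := {x | ∃ t, (∀ l, x.2 l = t) ∧ ∀ u, lv u → x.1 u = t}
  add_mem' := fun {x y} hx hy => by
    obtain ⟨t, h1, h2⟩ := hx
    obtain ⟨t', h1', h2'⟩ := hy
    refine ⟨t + t', fun l => ?_, fun u hu => ?_⟩
    · rw [Prod.snd_add, Pi.add_apply, h1, h1']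
    · rw [Prod.fst_add, Pi.add_apply, h2 u hu, h2' u hu]
  zero_mem' := ⟨0, fun _ => rfl, fun _ _ => rfl⟩
  smul_mem' := fun c x hx => by
    obtain ⟨t, h1, h2⟩ := hx
    refine ⟨c * t, fun l => ?_, fun u hu => ?_⟩
    · rw [Prod.smul_snd, Pi.smul_apply, h1, smul_eq_mul]
    · rw [Prod.smul_fst, Pi.smul_apply, h2 u hu, smul_eq_mul]

/-- the data of the matrices -/
noncomputable def MD (A : I → U → U → ZMod 3) (B : I → U → J → ZMod 3) (lv : I → U → Prop) :
    Dat ((U → ZMod 3) × (J → ZMod 3)) (J → ZMod 3) I where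
  Z := Zc J
  K := fun i => Kc J (lv i)
  C := fun i => Cf (A i) (B i)

/-- the projection -/
def pj (U J : Type) : ((U → ZMod 3) × (J → ZMod 3)) →ₗ[ZMod 3] (J → ZMod 3) := LinearMap.snd _ _ _

lemma pj_surj : Function.Surjective (pj U J) := fun b => ⟨(0, b), rfl⟩

/-- the radical is the solution space -/
lemma rad_card (A : U → U → ZMod 3) (B : U → J → ZMod 3) (R : J → J → ZMod 3) :
    Nat.card (rad (pj U J) (Cf A B) (Sf R)) = nA A B R := by
  unfold nA
  refine Nat.card_congr (Equiv.subtypeEquivRight fun x => ?_)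
  rw [mem_rad]
  have key : ∀ y : (U → ZMod 3) × (J → ZMod 3), Cf A B x y + Sf R (pj U J x) (pj U J y) =
      ∑ u, (∑ v, A u v * (x.1 v - x.1 u) + ∑ l, B u l * (x.2 l - x.1 u)) * y.1 u +
      ∑ l, (∑ u, B u l * (x.1 u - x.2 l) + ∑ m, R l m * (x.2 m - x.2 l)) * y.2 l := by
    intro y
    rw [Cf_apply, Sf_apply]
    have h1 : (pj U J x) = x.2 := rfl
    have h2 : (pj U J y) = y.2 := rfl
    rw [h1, h2, add_assoc, ← Finset.sum_add_distrib]
    congr 1
    exact Finset.sum_congr rfl fun l _ => by ring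
  constructor
  · intro h
    refine ⟨fun u => ?_, fun l => ?_⟩
    · have h1 := h (Pi.single u 1, 0)
      rw [key, Finset.sum_eq_single u] at h1
      · simpa using h1
      · intro v _ hv
        show _ * (Pi.single u (1 : ZMod 3) : U → ZMod 3) v = 0
        rw [Pi.single_eq_of_ne hv, mul_zero]
      · intro h'
        exact absurd (Finset.mem_univ _) h'
    · have h1 := h (0, Pi.single l 1)
      rw [key] at h1
      have h2 : ∑ m, (∑ u, B u m * (x.1 u - x.2 m) + ∑ k, R m k * (x.2 k - x.2 m)) *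
          ((0, Pi.single l 1) : (U → ZMod 3) × (J → ZMod 3)).2 m =
          ∑ u, B u l * (x.1 u - x.2 l) + ∑ k, R l k * (x.2 k - x.2 l) := by
        rw [Finset.sum_eq_single l]
        · show _ * (Pi.single l (1 : ZMod 3) : J → ZMod 3) l = _
          rw [Pi.single_eq_same, mul_one]
        · intro m _ hm
          show _ * (Pi.single l (1 : ZMod 3) : J → ZMod 3) m = 0
          rw [Pi.single_eq_of_ne hm, mul_zero]
        · intro h'
          exact absurd (Finset.mem_univ _) h'
      rw [h2] at h1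
      simpa using h1
  · rintro ⟨h1, h2⟩ y
    rw [key]
    simp only [h1, h2, zero_mul, Finset.sum_const_zero, add_zero]

variable {A : I → U → U → ZMod 3} {B : I → U → J → ZMod 3} {lv : I → U → Prop}

lemma Kc_ge [Nonempty J] (lv : U → Prop) : 3 ≤ Nat.card (Kc J lv) := by
  have h1 := Nat.card_le_card_of_injective
    (fun t : ZMod 3 => (⟨(fun _ => t, fun _ => t), t, fun _ => rfl, fun _ _ => rfl⟩ : Kc J lv))
    (fun t t' h => by
      obtain ⟨l⟩ := (inferInstance : Nonempty J)
      have h2 : ((fun _ => t : U → ZMod 3), (fun _ => t : J → ZMod 3)) =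
        (fun _ => t', fun _ => t') := congrArg Subtype.val h
      exact congrFun (Prod.mk.inj h2).2 l)
  rwa [Nat.card_zmod] at h1

/-- the quality of the data -/
theorem quality {τ : ℕ} (hs : ∀ i u v, A i u v = A i v u)
    (hdA : ∀ i u v, ¬ lv i u → A i u v = 0) (hdB : ∀ i u l, ¬ lv i u → B i u l = 0)
    (hnd : ∀ i (w : U → ZMod 3), (∃ u, lv i u ∧ w u ≠ 0) → ∃ l, ∑ u, w u * B i u l ≠ 0)
    (h2 : ∀ i j, i ≠ j → 2 * Fintype.card U + τ ≤
      (univ.filter fun l => ∑ u, B i u l ≠ ∑ u, B j u l).card)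
    (h3 : Fintype.card U + τ + 1 ≤ Fintype.card J) : Ql (pj U J) (MD A B lv) τ := by
  have hJ : Nonempty J := Fintype.card_pos_iff.1 (by omega)
  have hZ : (MD A B lv).Z = Zc J := rfl
  have hK : ∀ i, (MD A B lv).K i = Kc J (lv i) := fun i => rfl
  have hC : ∀ i x y, (MD A B lv).C i x y = Cf (A i) (B i) x y := fun i x y => rfl
  have hVc : Nat.card (J → ZMod 3) = 3 ^ Fintype.card J := by
    rw [Nat.card_eq_fintype_card, Fintype.card_fun, ZMod.card]
  have hUc : Nat.card (U → ZMod 3) = 3 ^ Fintype.card U := by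
    rw [Nat.card_eq_fintype_card, Fintype.card_fun, ZMod.card]
  -- the value at the unit vectors
  have hCl : ∀ i (x : (U → ZMod 3) × (J → ZMod 3)) (l : J),
      Cf (A i) (B i) x (0, Pi.single l 1) = ∑ u, B i u l * (x.1 u - x.2 l) := by
    intro i x l
    rw [Cf_apply]
    have e2 : ∑ m, (∑ u, B i u m * (x.1 u - x.2 m)) *
        ((0, Pi.single l 1) : (U → ZMod 3) × (J → ZMod 3)).2 m =
        ∑ u, B i u l * (x.1 u - x.2 l) := by
      rw [Finset.sum_eq_single l]
      · show _ * (Pi.single l (1 : ZMod 3) : J → ZMod 3) l = _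
        rw [Pi.single_eq_same, mul_one]
      · intro m _ hm
        show _ * (Pi.single l (1 : ZMod 3) : J → ZMod 3) m = 0
        rw [Pi.single_eq_of_ne hm, mul_zero]
      · intro h'
        exact absurd (Finset.mem_univ _) h'
    rw [e2]
    simp
  refine ⟨fun i x y => ?_, fun i x hx => ?_, fun i x hx => ?_, fun i x hx hz => ?_,
    fun i j hij => ?_, fun i => ?_⟩
  · rw [hC, hC, Cf_symm (hs i)]
  · rw [hK] at hx
    obtain ⟨t, ht1, ht2⟩ := hx
    refine LinearMap.ext fun y => ?_
    rw [hC, Cf_symm (hs i), Cf_apply]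
    have e1 : ∀ u, (∑ v, A i u v * (y.1 v - y.1 u) + ∑ l, B i u l * (y.2 l - y.1 u)) * x.1 u =
        (∑ v, A i u v * (y.1 v - y.1 u) + ∑ l, B i u l * (y.2 l - y.1 u)) * t := by
      intro u
      by_cases hu : lv i u
      · rw [ht2 u hu]
      · have a1 : ∀ v, A i u v * (y.1 v - y.1 u) = 0 := fun v => by rw [hdA i u v hu, zero_mul]
        have a2 : ∀ l, B i u l * (y.2 l - y.1 u) = 0 := fun l => by rw [hdB i u l hu, zero_mul]
        simp only [a1, a2, Finset.sum_const_zero, add_zero, zero_mul]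
    simp only [e1, ht1]
    have e2 := Cf_symm (hs i) (B i) y (fun _ => t, fun _ => t)
    rw [Cf_apply, Cf_apply] at e2
    rw [e2]
    simp
  · rw [hK] at hx
    obtain ⟨t, ht1, -⟩ := hx
    exact mem_Zc.2 ⟨t, ht1⟩
  · rw [hK]
    obtain ⟨t, ht⟩ := mem_Zc.1 hz
    have ht' : ∀ l, x.2 l = t := ht
    refine ⟨t, ht', fun u hu => ?_⟩
    by_contra hne
    obtain ⟨l, hl⟩ := hnd i (fun v => x.1 v - t) ⟨u, hu, sub_ne_zero.2 hne⟩
    apply hl
    have h4 := congrArg (fun f : ((U → ZMod 3) × (J → ZMod 3)) →ₗ[ZMod 3] ZMod 3 =>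
      f (0, Pi.single l 1)) hx
    have h5 : Cf (A i) (B i) x (0, Pi.single l 1) = 0 := h4
    rw [hCl] at h5
    rw [← h5]
    refine Finset.sum_congr rfl fun v _ => ?_
    rw [ht' l, mul_comm]
  · -- the radical of the difference
    obtain ⟨d, hd⟩ : ∃ d, d = (univ.filter fun l => ∑ u, B i u l ≠ ∑ u, B j u l).card := ⟨_, rfl⟩
    have hRd : Nat.card (Rd (pj U J) (Zc J) (Cf (A i) (B i)) (Cf (A j) (B j))) ≤
        3 ^ (2 * Fintype.card U + 1 + (Fintype.card J - d)) := by
      let E := {l : J // ∑ u, B i u l = ∑ u, B j u l}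
      have hE : Fintype.card E = Fintype.card J - d := by
        rw [Fintype.card_subtype, hd]
        have := Finset.card_filter_add_card_filter_not (s := (univ : Finset J))
          (fun l => ∑ u, B i u l = ∑ u, B j u l)
        rw [Finset.card_univ] at this
        have e : (univ.filter fun l => ¬ ∑ u, B i u l = ∑ u, B j u l) =
          (univ.filter fun l => ∑ u, B i u l ≠ ∑ u, B j u l) := rfl
        rw [e] at this
        omega
      obtain ⟨l₀⟩ := hJ
      have hinj := Nat.card_le_card_of_injective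
        (fun w : Rd (pj U J) (Zc J) (Cf (A i) (B i)) (Cf (A j) (B j)) =>
          ((w.1.1.1, w.1.2.1, w.1.1.2 l₀ - w.1.2.2 l₀, fun l : E => w.1.1.2 l) :
            (U → ZMod 3) × (U → ZMod 3) × ZMod 3 × (E → ZMod 3))) ?_
      · rw [Nat.card_prod, Nat.card_prod, Nat.card_prod, hUc, Nat.card_zmod] at hinj
        have hEc : Nat.card (E → ZMod 3) = 3 ^ (Fintype.card J - d) := by
          rw [Nat.card_eq_fintype_card, Fintype.card_fun, ZMod.card, hE]
        rw [hEc] at hinj
        refine hinj.trans (le_of_eq ?_)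
        rw [pow_add, pow_add, two_mul, pow_add]
        ring
      · rintro ⟨⟨⟨a, b⟩, ⟨a', b'⟩⟩, hw⟩ ⟨⟨⟨c, f⟩, ⟨c', f'⟩⟩, hw'⟩ h
        simp only [Prod.mk.injEq] at h
        obtain ⟨rfl, rfl, h5, h6⟩ := h
        have key : ∀ b b' : J → ZMod 3, ((a, b), (a', b')) ∈
            Rd (pj U J) (Zc J) (Cf (A i) (B i)) (Cf (A j) (B j)) →
            (∀ l, b l - b' l = b l₀ - b' l₀) ∧ ∀ l, (∑ u, B i u l - ∑ u, B j u l) * b l =
              ∑ u, B i u l * a u - ∑ u, B j u l * a' u -
                (∑ u, B j u l) * (b l₀ - b' l₀) := by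
          intro b b' hb
          obtain ⟨h7, h8⟩ := hb
          obtain ⟨t, ht⟩ := mem_Zc.1 h7
          have ht' : ∀ l, b l - b' l = t := ht
          have h9 : ∀ l, b l - b' l = b l₀ - b' l₀ := fun l => by rw [ht', ht']
          refine ⟨h9, fun l => ?_⟩
          have h10 := h8 ((0, Pi.single l 1), (0, Pi.single l 1)) (by
            show (Pi.single l (1 : ZMod 3) : J → ZMod 3) - Pi.single l 1 ∈ Zc J
            rw [sub_self]
            exact (Zc J).zero_mem)
          have h11 : ∑ u, B i u l * (a u - b l) = ∑ u, B j u l * (a' u - b' l) := by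
            have e1 := hCl i (a, b) l
            have e2 := hCl j (a', b') l
            rw [← e1, ← e2]
            exact h10
          simp only [mul_sub, Finset.sum_sub_distrib, ← Finset.sum_mul] at h11
          have h12 := h9 l
          have h13 : b' l = b l - (b l₀ - b' l₀) := by rw [← h12]; ring
          rw [h13] at h11
          linear_combination -h11
        obtain ⟨k1, k2⟩ := key b b' hw
        obtain ⟨k3, k4⟩ := key f f' hw'
        have hbf : b = f := by
          funext l
          by_cases hl : ∑ u, B i u l = ∑ u, B j u l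
          · exact congrFun h6 ⟨l, hl⟩
          · apply mul_left_cancel₀ (sub_ne_zero.2 hl)
            rw [k2, k4, h5]
        have hbf' : b' = f' := by
          funext l
          have e1 := k1 l
          have e2 := k3 l
          rw [h5, ← e2, hbf] at e1
          exact sub_right_injective e1
        subst hbf hbf'
        rfl
    have h4 := h2 i j hij
    rw [← hd] at h4
    have hdJ : d ≤ Fintype.card J := by
      rw [hd]
      exact (Finset.card_filter_le _ _).trans (le_of_eq Finset.card_univ)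
    have h5 := Kc_ge (J := J) (lv i)
    have h6 := Kc_ge (J := J) (lv j)
    rw [hZ, hVc, card_Zc, hK, hK]
    have h7 : (MD A B lv).C i = Cf (A i) (B i) := rfl
    have h8 : (MD A B lv).C j = Cf (A j) (B j) := rfl
    rw [h7, h8]
    calc _ ≤ 3 ^ (2 * Fintype.card U + 1 + (Fintype.card J - d)) * 3 ^ τ * 3 := by gcongr
      _ = 3 ^ (2 * Fintype.card U + 1 + (Fintype.card J - d) + τ + 1) := by
        rw [pow_succ, pow_add _ _ τ]
      _ ≤ 3 ^ (Fintype.card J + 2) := Nat.pow_le_pow_right (by norm_num) (by omega)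
      _ = 3 ^ Fintype.card J * (3 * 3) := by rw [pow_add]; norm_num
      _ ≤ _ := Nat.mul_le_mul_left _ (Nat.mul_le_mul h5 h6)
  · have h4 := card_comap (pj_surj (U := U) (J := J)) (Zc J)
    rw [card_Zc, hVc, Nat.card_prod, hUc, hVc] at h4
    have h5 : Nat.card ((Zc J).comap (pj U J)) = 3 ^ Fintype.card U * 3 := by
      apply Nat.eq_of_mul_eq_mul_right (show 0 < 3 ^ Fintype.card J by positivity)
      rw [h4]
      ring
    have h6 := Kc_ge (J := J) (lv i)
    rw [hZ, hVc, card_Zc, hK, h5]
    calc 3 ^ Fintype.card U * 3 * 3 ^ τ * 3 = 3 ^ (Fintype.card U + 1 + τ + 1) := by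
          rw [pow_succ, pow_add _ _ τ, pow_succ]
      _ ≤ 3 ^ (Fintype.card J + 1) := Nat.pow_le_pow_right (by norm_num) (by omega)
      _ = 3 ^ Fintype.card J * 3 := pow_succ _ _
      _ ≤ _ := Nat.mul_le_mul_left _ h6

end data

/-- **The joint law for the matrices.** -/
theorem t_MAT {I : Type} [Fintype I] {c : ℕ → ℝ} (hc : Lim c) (r : I → ℕ) (ε : ℝ) (hε : 0 < ε) :
    ∃ τ : ℕ, ∀ (U J : Type) [Fintype U] [Fintype J] [LinearOrder J]
      (A : I → U → U → ZMod 3) (B : I → U → J → ZMod 3) (lv : I → U → Prop),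
      (∀ i u v, A i u v = A i v u) → (∀ i u v, ¬ lv i u → A i u v = 0) →
      (∀ i u l, ¬ lv i u → B i u l = 0) →
      (∀ i (w : U → ZMod 3), (∃ u, lv i u ∧ w u ≠ 0) → ∃ l, ∑ u, w u * B i u l ≠ 0) →
      (∀ i j, i ≠ j → 2 * Fintype.card U + τ ≤
        (univ.filter fun l => ∑ u, B i u l ≠ ∑ u, B j u l).card) →
      Fintype.card U + τ + 1 ≤ Fintype.card J →
      |((univ.filter fun α : prs J → ZMod 3 =>
          ∀ i, nA (A i) (B i) (ext α) = 3 ^ r i * Nat.card (Kc J (lv i))).card : ℝ) /
        3 ^ (prs J).card - ∏ i, c (r i)| ≤ ε := by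
  obtain ⟨τ, hτ⟩ := law hc (Finset.univ : Finset I) r ε hε
  refine ⟨τ, fun U J _ _ _ A B lv hs hdA hdB hnd h2 h3 => ?_⟩
  have h4 := hτ _ _ (pj U J) pj_surj (MD A B lv) (quality hs hdA hdB hnd h2 h3)
  have h5 : Pr (pj U J) (MD A B lv) univ r = ((univ.filter fun α : prs J → ZMod 3 =>
      ∀ i, nA (A i) (B i) (ext α) = 3 ^ r i * Nat.card (Kc J (lv i))).card : ℝ) /
        3 ^ (prs J).card := by
    unfold Pr
    have e1 : Nat.card (Sg (MD A B lv).Z) = 3 ^ (prs J).card := by
      have h6 := Nat.card_congr (Equiv.ofBijective _ (Sf_bij (J := J)))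
      have h7 : Nat.card (prs J → ZMod 3) = 3 ^ (prs J).card := by
        rw [Nat.card_eq_fintype_card, Fintype.card_fun, ZMod.card, Fintype.card_coe]
      rw [h7] at h6
      exact h6.symm
    have e2 : (Ev (pj U J) (MD A B lv) univ r).ncard = (univ.filter fun α : prs J → ZMod 3 =>
        ∀ i, nA (A i) (B i) (ext α) = 3 ^ r i * Nat.card (Kc J (lv i))).card := by
      have h6 : Ev (pj U J) (MD A B lv) univ r = (fun α : prs J → ZMod 3 => Sf (ext α)) ''
          ((univ.filter fun α : prs J → ZMod 3 =>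
            ∀ i, nA (A i) (B i) (ext α) = 3 ^ r i * Nat.card (Kc J (lv i)) :
              Finset (prs J → ZMod 3)) : Set (prs J → ZMod 3)) := by
        ext S
        constructor
        · rintro ⟨h7, h8⟩
          obtain ⟨α, hα⟩ := (Sf_bij (J := J)).2 ⟨S, h7⟩
          have hα' : Sf (ext α) = S := congrArg Subtype.val hα
          refine ⟨α, ?_, hα'⟩
          rw [Finset.mem_coe, Finset.mem_filter]
          refine ⟨Finset.mem_univ _, fun i => ?_⟩
          have h9 := h8 i (Finset.mem_univ i)
          rw [← hα'] at h9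
          rw [← rad_card]
          exact h9
        · rintro ⟨α, h7, rfl⟩
          rw [Finset.mem_coe, Finset.mem_filter] at h7
          refine ⟨Sf_mem α, fun i _ => ?_⟩
          have h8 := h7.2 i
          rw [← rad_card] at h8
          exact h8
      rw [h6, Set.ncard_image_of_injective, Set.ncard_coe_finset]
      intro α β h
      exact (Sf_bij (J := J)).1 (Subtype.ext h)
    rw [e1, e2]
    push_cast
    rfl
  rw [← h5]
  exact h4

end Pool.Agent.H462.JL
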