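import Pool.Agent.H462.JL.Eqr
import Pool.Agent.H462.CTU.K

/-!
# The coranks of the cube-free elements
-/

set_option autoImplicit false
set_option linter.unusedSectionVars false
set_option linter.unusedVariables false

open scoped Classical

namespace Pool.Agent.H462.JL

open Finset
open Pool.Agent.Y692.QS (Ei w nr)
open Pool.Agent.Y703.CT
open Pool.Agent.Y715.T.Rec (cs nn)
open Pool.Agent.Y715.T.RecG (Pq)
open Pool.Agent.Y699.E (PD mem_PD PS PS_prod eq_of_dvd pq_ne nrm prm prm_one prm_mul prm_ne_zero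
  prm_cancel eq_one_of_prm)
open Pool.Agent.XL6 (KerV)
open Pool.Agent.H462.CTU.Chr (nq)
open Pool.Agent.H462.CTU.LK (Dk)
open Pool.Agent.H462.CTU.Sel (KW KerC)
open Pool.Agent.H462.CTU.Law.Cou (un un_nr un_inj un_isUnit un_ne exists_un el_inj)

/-! ### the systems with dead nodes -/

section
variable {J J' J₁ J₂ : Type} [Fintype J] [Fintype J'] [Fintype J₁] [Fintype J₂]

/-- the system, with possibly dead nodes -/
def Sy (k : ZMod 3) (π : J → Ei) (e : J → ZMod 3) (v : Option J → ZMod 3) : Prop :=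
  ∀ j, e j * (k * nq (π j) * (v none - v (some j)) +
    ∑ i, e i * cs (π j) (π i) * (v (some i) - v (some j))) = 0

lemma nJ_Sy (k : ZMod 3) (e : Ei → ZMod 3) (T : Finset Ei) :
    nJ k e T = Nat.card {v : Option T → ZMod 3 // Sy k (fun x : T => (x : Ei)) (fun x => e x) v} := rfl

lemma Sy_equiv (σ : J' ≃ J) (k : ZMod 3) (π : J → Ei) (e : J → ZMod 3) :
    Nat.card {v : Option J → ZMod 3 // Sy k π e v} =
      Nat.card {v : Option J' → ZMod 3 // Sy k (fun x => π (σ x)) (fun x => e (σ x)) v} := by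
  refine Nat.card_congr ((Equiv.arrowCongr (Equiv.optionCongr σ).symm
    (Equiv.refl (ZMod 3))).subtypeEquiv fun v => ?_)
  show (∀ j, _) ↔ ∀ j, e (σ j) * (k * nq (π (σ j)) * (v none - v (some (σ j))) +
      ∑ i, e (σ i) * cs (π (σ j)) (π (σ i)) * (v (some (σ i)) - v (some (σ j)))) = 0
  constructor
  · intro h j
    have h1 := h (σ j)
    rw [← Equiv.sum_comp σ] at h1
    exact h1
  · intro h x
    obtain ⟨j, rfl⟩ := σ.surjective x
    rw [← Equiv.sum_comp σ]
    exact h j

lemma Sy_sum (k : ZMod 3) (π : J₁ ⊕ J₂ → Ei) (e : J₁ ⊕ J₂ → ZMod 3) (h : ∀ j, e (Sum.inr j) = 0) :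
    Nat.card {v : Option (J₁ ⊕ J₂) → ZMod 3 // Sy k π e v} =
      Nat.card {v : Option J₁ → ZMod 3 // Sy k (fun x => π (Sum.inl x)) (fun x => e (Sum.inl x)) v} *
        3 ^ Fintype.card J₂ := by
  have h0 : Nat.card (J₂ → ZMod 3) = 3 ^ Fintype.card J₂ := by
    rw [Nat.card_fun, Nat.card_zmod, Nat.card_eq_fintype_card]
  rw [← h0, ← Nat.card_prod]
  refine Nat.card_congr
    { toFun := fun v => (⟨fun o => v.1 (o.map Sum.inl), fun j => ?_⟩, fun j => v.1 (some (Sum.inr j)))
      invFun := fun p => ⟨fun o => o.elim (p.1.1 none) (fun x => x.elim (fun j => p.1.1 (some j)) p.2),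
        fun j => ?_⟩
      left_inv := fun v => ?_
      right_inv := fun p => ?_ }
  · have h1 := v.2 (Sum.inl j)
    rw [Fintype.sum_sum_type] at h1
    simp only [h, zero_mul, Finset.sum_const_zero, add_zero] at h1
    exact h1
  · rcases j with j | j
    · rw [Fintype.sum_sum_type]
      simp only [h, zero_mul, Finset.sum_const_zero, add_zero]
      exact p.1.2 j
    · rw [h, zero_mul]
  · apply Subtype.ext
    funext o
    rcases o with _ | (j | j)
    · rfl
    · rfl
    · rfl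
  · refine Prod.ext (Subtype.ext ?_) rfl
    funext o
    rcases o with _ | j
    · rfl
    · rfl

lemma Sy_KW {k : ZMod 3} {π : J → Ei} {e : J → ZMod 3} (h : ∀ j, e j ≠ 0) :
    Nat.card {v : Option J → ZMod 3 // Sy k π e v} = (KW k π e).ncard := by
  rw [← Nat.card_coe_set_eq]
  refine Nat.card_congr (Equiv.subtypeEquivRight fun v => ?_)
  refine forall_congr' fun j => ?_
  exact ⟨fun h1 => (mul_eq_zero.1 h1).resolve_left (h j), fun h1 => by rw [h1, mul_zero]⟩

lemma KW_equiv (σ : J' ≃ J) {k : ZMod 3} {π : J → Ei} {e : J → ZMod 3} (h : ∀ j, e j ≠ 0) :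
    (KW k (fun x => π (σ x)) (fun x => e (σ x))).ncard = (KW k π e).ncard := by
  rw [← Sy_KW h, ← Sy_KW fun j => h (σ j), Sy_equiv σ]

end

/-- the live nodes -/
def Lv (T : Finset Ei) (g : Ei → ZMod 3) : Type := {x : T // g x ≠ 0}

noncomputable instance (T : Finset Ei) (g : Ei → ZMod 3) : Fintype (Lv T g) :=
  inferInstanceAs (Fintype {x : T // g x ≠ 0})

/-- the primes and the exponents of the live nodes -/
def lp (T : Finset Ei) (g : Ei → ZMod 3) (x : Lv T g) : Ei := (x.1 : Ei)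

def le' (T : Finset Ei) (g : Ei → ZMod 3) (x : Lv T g) : ZMod 3 := g (x.1 : Ei)

/-- the dead nodes leave the count -/
theorem nJ_KW (k : ZMod 3) (T : Finset Ei) (g : Ei → ZMod 3) :
    nJ k g T = (KW k (lp T g) (le' T g)).ncard * 3 ^ (T.filter fun ρ => g ρ = 0).card := by
  rw [nJ_Sy, Sy_equiv (Equiv.sumCompl fun x : T => g x ≠ 0), Sy_sum]
  · have h1 : Fintype.card {x : T // ¬ g x ≠ 0} = (T.filter fun ρ => g ρ = 0).card := by
      rw [Fintype.card_subtype, ← Finset.card_map (Function.Embedding.subtype _)]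
      congr 1
      ext ρ
      rw [Finset.mem_map, Finset.mem_filter]
      constructor
      · rintro ⟨x, hx, rfl⟩
        exact ⟨x.2, not_not.1 (Finset.mem_filter.1 hx).2⟩
      · rintro ⟨h1, h2⟩
        exact ⟨⟨ρ, h1⟩, Finset.mem_filter.2 ⟨Finset.mem_univ _, not_not.2 h2⟩, rfl⟩
    rw [h1]
    congr 1
    have h2 := Sy_KW (k := k) (π := lp T g) (e := le' T g) fun j => j.2
    rw [← h2]
    rfl
  · rintro ⟨x, hx⟩
    exact not_not.1 hx

/-! ### the elements -/

/-- the product of the powers -/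
noncomputable def pe (T : Finset Ei) (g : Ei → ZMod 3) : Ei := ∏ ρ ∈ T, ρ ^ (g ρ).val

lemma pD_pe (T : Finset Ei) (g : Ei → ZMod 3) : pD (lp T g) (le' T g) = pe T g := by
  unfold pD pe
  rw [← Finset.prod_coe_sort T (fun ρ => ρ ^ (g ρ).val)]
  have h : ∏ i : T, (i : Ei) ^ (g (i : Ei)).val =
      (∏ i : {x : T // g x ≠ 0}, ((i.1 : Ei)) ^ (g (i.1 : Ei)).val) *
        ∏ i : {x : T // ¬ g x ≠ 0}, ((i.1 : Ei)) ^ (g (i.1 : Ei)).val := by
    rw [← Equiv.prod_comp (Equiv.sumCompl fun x : T => g x ≠ 0), Fintype.prod_sum_type]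
    rfl
  rw [h]
  have h2 : ∏ i : {x : T // ¬ g x ≠ 0}, ((i.1 : Ei)) ^ (g (i.1 : Ei)).val = 1 := by
    refine Finset.prod_eq_one fun i _ => ?_
    rw [not_not.1 i.2]
    exact pow_zero _
  rw [h2, mul_one]
  rfl

lemma prm_pow {a : Ei} (h : prm a) (n : ℕ) : prm (a ^ n) := by
  induction n with
  | zero => rw [pow_zero]; exact prm_one
  | succ n ih => rw [pow_succ]; exact prm_mul ih h

lemma prm_prod' {ι : Type} {s : Finset ι} {f : ι → Ei} (h : ∀ i ∈ s, prm (f i)) :
    prm (∏ i ∈ s, f i) := by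
  induction s using Finset.induction_on with
  | empty => rw [Finset.prod_empty]; exact prm_one
  | insert a s ha ih =>
    rw [Finset.prod_insert ha]
    exact prm_mul (h a (Finset.mem_insert_self _ _)) (ih fun i hi => h i (Finset.mem_insert_of_mem hi))

lemma prm_pe {T : Finset Ei} (hT : ∀ ρ ∈ T, Pq ρ) (g : Ei → ZMod 3) : prm (pe T g) :=
  prm_prod' fun ρ hρ => prm_pow (hT ρ hρ).three _

section
variable {J J' : Type} [Fintype J] [Fintype J'] {π : J → Ei} {e : J → ZMod 3} {π' : J' → Ei}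
  {e' : J' → ZMod 3} {k k' : ZMod 3} {z : Ei}

lemma prm_pD (h : Dt π e) : prm (pD π e) := prm_prod' fun j _ => prm_pow (h.pq j).three _

lemma dt_lp {T : Finset Ei} (hT : ∀ ρ ∈ T, Pq ρ) (g : Ei → ZMod 3) : Dt (lp T g) (le' T g) := by
  refine ⟨fun j => hT _ j.1.2, fun i j hij hd => hij ?_, fun j => j.2⟩
  exact Subtype.ext (Subtype.ext (eq_of_dvd (hT _ j.1.2) (hT _ i.1.2) hd).symm)

/-- the data of `± ω^k ∏ π^e` -/
lemma dk_un (h : Dk k π e z) : ∃ b, z = un (b, k) * pD π e := by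
  rcases h with h | h
  · refine ⟨false, ?_⟩
    rw [h]
    unfold un
    simp
  · refine ⟨true, ?_⟩
    rw [h]
    unfold un
    simp

lemma un_dk {b : Bool} (h : z = un (b, k) * pD π e) : Dk k π e z := by
  unfold Dk
  rw [h]
  unfold un
  cases b
  · left
    simp
  · right
    simp

lemma dvd_pD (h : Dt π e) (i : J) : π i ∣ pD π e := by
  have h1 : π i ∣ π i ^ (e i).val := dvd_pow_self _ (by
    rw [ZMod.val_ne_zero]
    exact h.e0 i)
  exact h1.trans (Finset.dvd_prod_of_mem _ (Finset.mem_univ i))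

lemma mem_of_dvd (h : Dt π e) {ρ : Ei} (hρ : Pq ρ) (hd : ρ ∣ pD π e) : ∃ i, π i = ρ := by
  unfold pD at hd
  obtain ⟨i, -, hi⟩ := (hρ.prime.dvd_finset_prod_iff _).1 hd
  exact ⟨i, (eq_of_dvd hρ (h.pq i) (hρ.prime.dvd_of_dvd_pow hi)).symm⟩

lemma exp_le (h : Dt π e) {i : J} {m : ℕ} (hd : π i ^ m ∣ pD π e) : m ≤ (e i).val := by
  have h1 : pD π e = π i ^ (e i).val * ∏ j ∈ Finset.univ.erase i, π j ^ (e j).val := by
    unfold pD
    rw [Finset.mul_prod_erase Finset.univ (fun j => π j ^ (e j).val) (Finset.mem_univ i)]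
  rw [h1] at hd
  have h2 : ¬ π i ∣ ∏ j ∈ Finset.univ.erase i, π j ^ (e j).val := by
    intro h3
    obtain ⟨j, hj, h4⟩ := ((h.pq i).prime.dvd_finset_prod_iff _).1 h3
    exact h.nd j i (Finset.ne_of_mem_erase hj) ((h.pq i).prime.dvd_of_dvd_pow h4)
  have h3 : π i ^ m ∣ π i ^ (e i).val := by
    exact (h.pq i).prime.pow_dvd_of_dvd_mul_right m h2 hd
  exact (pow_dvd_pow_iff (pq_ne (h.pq i)) (h.pq i).prime.not_isUnit).1 h3

/-- the uniqueness of the data -/
theorem dat_unique (h : Dt π e) (hz : Dk k π e z) (h' : Dt π' e') (hz' : Dk k' π' e' z) :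
    k = k' ∧ ∃ σ : J ≃ J', (∀ i, π' (σ i) = π i) ∧ ∀ i, e' (σ i) = e i := by
  obtain ⟨b, hb⟩ := dk_un hz
  obtain ⟨b', hb'⟩ := dk_un hz'
  rw [hb] at hb'
  obtain ⟨h1, h2⟩ := el_inj (prm_pD h) (prm_pD h') hb'
  refine ⟨congrArg Prod.snd h1, ?_⟩
  have h3 : ∀ i, ∃ i', π' i' = π i := fun i => mem_of_dvd h' (h.pq i) (h2 ▸ dvd_pD h i)
  have h4 : ∀ i', ∃ i, π i = π' i' := fun i' => mem_of_dvd h (h'.pq i') (h2 ▸ dvd_pD h' i')
  choose s hs using h3
  have hinj : ∀ {i j : J}, π i = π j → i = j := by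
    intro i j hij
    by_contra hne
    exact h.nd i j hne (by rw [hij])
  have hinj' : ∀ {i j : J'}, π' i = π' j → i = j := by
    intro i j hij
    by_contra hne
    exact h'.nd i j hne (by rw [hij])
  refine ⟨Equiv.ofBijective s ⟨fun i j hij => ?_, fun i' => ?_⟩, hs, fun i => ?_⟩
  · apply hinj
    rw [← hs i, ← hs j, hij]
  · obtain ⟨i, hi⟩ := h4 i'
    exact ⟨i, hinj' (by rw [hs, hi])⟩
  · show e' (s i) = e i
    apply ZMod.val_injective
    apply le_antisymm
    · apply exp_le h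
      rw [h2, ← hs i]
      exact Finset.dvd_prod_of_mem (fun j => π' j ^ (e' j).val) (Finset.mem_univ (s i))
    · apply exp_le h'
      rw [← h2, hs i]
      exact Finset.dvd_prod_of_mem (fun j => π j ^ (e j).val) (Finset.mem_univ i)

end

/-- the number of the trivial solutions -/
def kz (k : ZMod 3) : ℕ := if k = 0 then 1 else 0

/-- the corank of an element -/
def CorG (z : Ei) (r : ℕ) : Prop :=
  ∃ (k : ZMod 3) (n : ℕ) (π : Fin n → Ei) (e : Fin n → ZMod 3),
    Dt π e ∧ Dk k π e z ∧ (KW k π e).ncard = 3 ^ (r + 1 + kz k)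

section
variable {J : Type} [Fintype J] {π : J → Ei} {e : J → ZMod 3} {k : ZMod 3} {z : Ei}

/-- the corank, from any data -/
theorem cor_dat (h : Dt π e) (hz : Dk k π e z) (r : ℕ) :
    CorG z r ↔ (KW k π e).ncard = 3 ^ (r + 1 + kz k) := by
  constructor
  · rintro ⟨k', n, π', e', h', hz', hc⟩
    obtain ⟨h1, σ, h2, h3⟩ := dat_unique h hz h' hz'
    rw [h1, ← hc, ← KW_equiv σ h'.e0]
    have e1 : (fun x => π' (σ x)) = π := funext h2
    have e2 : (fun x => e' (σ x)) = e := funext h3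
    rw [e1, e2]
  · intro hc
    let σ : Fin (Fintype.card J) ≃ J := (Fintype.equivFin J).symm
    refine ⟨k, Fintype.card J, fun x => π (σ x), fun x => e (σ x), ⟨fun j => h.pq _,
      fun i j hij => h.nd _ _ fun h1 => hij (σ.injective h1), fun j => h.e0 _⟩, ?_, ?_⟩
    · have e1 : pD (fun x => π (σ x)) (fun x => e (σ x)) = pD π e := by
        unfold pD
        exact Equiv.prod_comp σ (fun x => π x ^ (e x).val)
      unfold Dk
      rw [e1]
      exact hz
    · rw [KW_equiv σ h.e0, hc]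

lemma pow3_inj {a b : ℕ} (h : (3 : ℕ) ^ a = 3 ^ b) : a = b :=
  Nat.pow_right_injective (le_refl 3 |>.trans' (by norm_num)) h

lemma cor_unique {r s : ℕ} (h1 : CorG z r) (h2 : CorG z s) : r = s := by
  have h1' := h1
  obtain ⟨k, n, π, e, h, hz, hc⟩ := h1'
  have h3 := (cor_dat h hz s).1 h2
  rw [hc] at h3
  have := pow3_inj h3
  omega

/-- the linear map of the system -/
noncomputable def LK' (k : ZMod 3) (π : J → Ei) (e : J → ZMod 3) :
    (Option J → ZMod 3) →ₗ[ZMod 3] (J → ZMod 3) where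
  toFun v := fun j => k * nq (π j) * (v none - v (some j)) +
    ∑ i, e i * cs (π j) (π i) * (v (some i) - v (some j))
  map_add' v v' := by
    funext j
    simp only [Pi.add_apply]
    have h : ∑ i, e i * cs (π j) (π i) * (v (some i) + v' (some i) - (v (some j) + v' (some j))) =
        ∑ i, e i * cs (π j) (π i) * (v (some i) - v (some j)) +
          ∑ i, e i * cs (π j) (π i) * (v' (some i) - v' (some j)) := by
      rw [← Finset.sum_add_distrib]
      exact Finset.sum_congr rfl fun ρ _ => by ring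
    rw [h]
    ring
  map_smul' a v := by
    funext j
    simp only [Pi.smul_apply, smul_eq_mul, RingHom.id_apply]
    have h : ∑ i, e i * cs (π j) (π i) * (a * v (some i) - a * v (some j)) =
        a * ∑ i, e i * cs (π j) (π i) * (v (some i) - v (some j)) := by
      rw [Finset.mul_sum]
      exact Finset.sum_congr rfl fun ρ _ => by ring
    rw [h]
    ring

lemma KW_pow (k : ZMod 3) (π : J → Ei) (e : J → ZMod 3) :
    (KW k π e).ncard = 3 ^ Module.finrank (ZMod 3) (LinearMap.ker (LK' k π e)) := by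
  have h : (KW k π e).ncard = Nat.card (LinearMap.ker (LK' k π e)) := by
    rw [← Nat.card_coe_set_eq]
    refine Nat.card_congr (Equiv.subtypeEquivRight fun v => ?_)
    rw [LinearMap.mem_ker]
    exact ⟨fun h => funext h, fun h π => congrFun h π⟩
  rw [h, Module.natCard_eq_pow_finrank (K := ZMod 3), Nat.card_zmod]

/-- the corank exists -/
lemma cor_exists (h : Dt π e) (hz : Dk k π e z) (hne : Nonempty J) : ∃ r, CorG z r := by
  obtain ⟨m, hm⟩ : ∃ m, m = Module.finrank (ZMod 3) (LinearMap.ker (LK' k π e)) := ⟨_, rfl⟩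
  have hpow := KW_pow k π e
  rw [← hm] at hpow
  have hfin : (KW k π e).Finite := Set.toFinite _
  have hle : 3 ^ (1 + kz k) ≤ (KW k π e).ncard := by
    by_cases hk : k = 0
    · have h1 : (fun p : ZMod 3 × ZMod 3 => (fun o => Option.elim o p.1 fun _ => p.2 :
          Option J → ZMod 3)) '' Set.univ ⊆ KW k π e := by
        rintro _ ⟨p, -, rfl⟩ j
        show k * nq (π j) * (p.1 - p.2) + ∑ i, e i * cs (π j) (π i) * (p.2 - p.2) = 0
        rw [hk]
        simp
      have h2 := Set.ncard_le_ncard h1 hfin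
      rw [Set.ncard_image_of_injective, Set.ncard_univ, Nat.card_prod, Nat.card_zmod] at h2
      · unfold kz
        rw [if_pos hk]
        exact h2
      · intro p q hpq
        obtain ⟨j⟩ := hne
        exact Prod.ext (congrFun hpq none) (congrFun hpq (some j))
    · have h1 : (fun c : ZMod 3 => (fun _ => c : Option J → ZMod 3)) '' Set.univ ⊆ KW k π e := by
        rintro _ ⟨p, -, rfl⟩ j
        show k * nq (π j) * (p - p) + ∑ i, e i * cs (π j) (π i) * (p - p) = 0
        simp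
      have h2 := Set.ncard_le_ncard h1 hfin
      rw [Set.ncard_image_of_injective, Set.ncard_univ, Nat.card_zmod] at h2
      · unfold kz
        rw [if_neg hk]
        exact h2
      · intro p q hpq
        exact congrFun hpq none
  rw [hpow] at hle
  have h3 : 1 + kz k ≤ m := (Nat.pow_le_pow_iff_right (by norm_num)).1 hle
  refine ⟨m - (1 + kz k), (cor_dat h hz _).2 ?_⟩
  rw [hpow]
  congr 1
  omega

end

/-- the corank, with dead nodes -/
theorem cor_nJ {T : Finset Ei} (hT : ∀ ρ ∈ T, Pq ρ) (g : Ei → ZMod 3) (p : Bool × ZMod 3) (r : ℕ) :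
    CorG (un p * pe T g) r ↔
      nJ p.2 g T = 3 ^ r * (3 * 3 ^ (kz p.2 + (T.filter fun ρ => g ρ = 0).card)) := by
  have h1 := dt_lp hT g
  have h2 : Dk p.2 (lp T g) (le' T g) (un p * pe T g) := by
    apply un_dk (b := p.1)
    rw [pD_pe]
  rw [cor_dat h1 h2, nJ_KW]
  have h3 : 3 ^ r * (3 * 3 ^ (kz p.2 + (T.filter fun ρ => g ρ = 0).card)) =
      3 ^ (r + 1 + kz p.2) * 3 ^ (T.filter fun ρ => g ρ = 0).card := by
    rw [pow_add, pow_add, pow_add]
    ring
  rw [h3]
  exact ⟨fun h => by rw [h], fun h => Nat.eq_of_mul_eq_mul_right (by positivity) h⟩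

/-- the inverse class -/
lemma nJ_neg (k : ZMod 3) (g : Ei → ZMod 3) (T : Finset Ei) :
    nJ (-k) (fun ρ => -g ρ) T = nJ k g T := by
  unfold nJ
  refine Nat.card_congr (Equiv.subtypeEquivRight fun v => ?_)
  refine forall_congr' fun π => ?_
  have h : ∑ ρ : T, -g ρ * cs (π : Ei) ρ * (v (some ρ) - v (some π)) =
      -∑ ρ : T, g ρ * cs (π : Ei) ρ * (v (some ρ) - v (some π)) := by
    rw [← Finset.sum_neg_distrib]
    exact Finset.sum_congr rfl fun ρ _ => by ring
  rw [h]
  have h2 : -g (π : Ei) * (-k * nq (π : Ei) * (v none - v (some π)) +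
      -∑ ρ : T, g ρ * cs (π : Ei) ρ * (v (some ρ) - v (some π))) =
      g (π : Ei) * (k * nq (π : Ei) * (v none - v (some π)) +
      ∑ ρ : T, g ρ * cs (π : Ei) ρ * (v (some ρ) - v (some π))) := by ring
  rw [h2]

lemma nJ_congr {k : ZMod 3} {g g' : Ei → ZMod 3} {T : Finset Ei} (h : ∀ ρ ∈ T, g ρ = g' ρ) :
    nJ k g T = nJ k g' T := by
  unfold nJ
  have e : ∀ ρ : T, g ρ = g' ρ := fun ρ => h ρ ρ.2
  simp only [e]

end Pool.Agent.H462.JL
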